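import Mathlib

/-! Functional analysis for holomorphic reflexivity: seminorms and strong duals. -/

open scoped Topology
open Set Filter Bornology

noncomputable section

namespace HolRefl.Pf

/-- suprema of absolute values of linear functionals -/
theorem exists_supS {V : Type*} [AddCommGroup V] [Module ℂ V] {ι : Type*} (φ : ι → V →ₗ[ℂ] ℂ)
    (h : ∀ v, ∃ B : ℝ, ∀ i, ‖φ i v‖ ≤ B) : ∃ p : Seminorm ℂ V, (∀ i v, ‖φ i v‖ ≤ p v) ∧
    ∀ v (c : ℝ), 0 ≤ c → (∀ i, ‖φ i v‖ ≤ c) → p v ≤ c := by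
  have hb : ∀ v, BddAbove (Set.range fun i => ‖φ i v‖) := fun v => by
    obtain ⟨B, hB⟩ := h v
    exact ⟨B, by rintro _ ⟨i, rfl⟩; exact hB i⟩
  refine ⟨Seminorm.of (fun v => ⨆ i, ‖φ i v‖) ?_ ?_, ?_, ?_⟩
  · intro x y
    refine Real.iSup_le (fun i => ?_) (add_nonneg (Real.iSup_nonneg fun i => norm_nonneg _)
      (Real.iSup_nonneg fun i => norm_nonneg _))
    rw [map_add]
    exact (norm_add_le _ _).trans (add_le_add (le_ciSup (hb x) i) (le_ciSup (hb y) i))
  · intro c x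
    rw [Real.mul_iSup_of_nonneg (norm_nonneg c)]
    congr 1
    funext i
    rw [map_smul, norm_smul]
  · intro i v
    exact le_ciSup (hb v) i
  · intro v c hc hv
    exact Real.iSup_le hv hc

/-- Hahn-Banach for seminorms (real Hahn-Banach `exists_extension_of_le_sublinear` for the real
part on the line through `v₀`, then complexification). -/
theorem exists_functional {V : Type*} [AddCommGroup V] [Module ℂ V] (p : Seminorm ℂ V) (v₀ : V) :
    ∃ φ : V →ₗ[ℂ] ℂ, (∀ v, ‖φ v‖ ≤ p v) ∧ φ v₀ = p v₀ := by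
  by_cases hv : v₀ = 0
  · refine ⟨0, fun v => by simp, by simp [hv]⟩
  · let e := LinearEquiv.toSpanNonzeroSingleton ℂ V v₀ hv
    let f : Module.Dual ℂ (Submodule.span ℂ {v₀}) :=
      (LinearMap.mulRight ℂ ((p v₀ : ℝ) : ℂ)).comp e.symm.toLinearMap
    have hf : ∀ x, ‖f x‖ ≤ p x := by
      intro x
      obtain ⟨c, rfl⟩ := e.surjective x
      have h1 : f (e c) = c * ((p v₀ : ℝ) : ℂ) := by
        simp [f]
      have h2 : ((e c : Submodule.span ℂ {v₀}) : V) = c • v₀ := by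
        simp [e, LinearEquiv.toSpanNonzeroSingleton_apply]
      rw [h1, h2, map_smul_eq_mul, norm_mul, Complex.norm_real, Real.norm_of_nonneg (apply_nonneg p v₀)]
    obtain ⟨g, hg, hgp⟩ := Module.Dual.exists_extension_of_le_seminorm (Submodule.span ℂ {v₀}) f hf
    refine ⟨g, hgp, ?_⟩
    have h3 : ((e 1 : Submodule.span ℂ {v₀}) : V) = v₀ := by
      simp [e, LinearEquiv.toSpanNonzeroSingleton_apply]
    have h4 := hg (e 1)
    rw [h3] at h4
    rw [h4]
    simp [f]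

theorem cts_of_le {V : Type*} [AddCommGroup V] [Module ℂ V] [TopologicalSpace V]
    [IsTopologicalAddGroup V] (φ : V →ₗ[ℂ] ℂ) (p : Seminorm ℂ V) (hp : Continuous p)
    (h : ∀ v, ‖φ v‖ ≤ p v) : Continuous φ := by
  have h0 : Tendsto (fun v => φ v) (𝓝 0) (𝓝 0) := by
    have h1 : Tendsto (fun v => p v) (𝓝 0) (𝓝 0) := by
      have := hp.tendsto 0
      rwa [map_zero] at this
    exact squeeze_zero_norm h h1
  refine continuous_of_continuousAt_zero φ ?_
  unfold ContinuousAt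
  rw [map_zero]
  exact h0

variable {X : Type*} [AddCommGroup X] [Module ℂ X] [TopologicalSpace X]

/-- a continuous seminorm on the strong dual is bounded by a multiple of the supremum over a
bounded set (`ContinuousLinearMap.hasBasis_nhds_zero`) -/
theorem dual_bound (p : Seminorm ℂ (StrongDual ℂ X)) (hp : Continuous p) :
    ∃ S : Set X, IsVonNBounded ℂ S ∧ ∃ M : ℝ, 1 ≤ M ∧ ∀ (φ : StrongDual ℂ X) (c : ℝ), 0 ≤ c →
      (∀ f ∈ S, ‖φ f‖ ≤ c) → p φ ≤ M * c := by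
  have h1 : {φ : StrongDual ℂ X | p φ < 1} ∈ 𝓝 (0 : StrongDual ℂ X) := by
    have h0 : Iio (1 : ℝ) ∈ 𝓝 (p 0) := by
      rw [map_zero]
      exact Iio_mem_nhds one_pos
    exact hp.continuousAt.preimage_mem_nhds h0
  obtain ⟨⟨S, V⟩, ⟨hS, hV⟩, hSV⟩ := ContinuousLinearMap.hasBasis_nhds_zero.mem_iff.1 h1
  obtain ⟨ε, hε, hεV⟩ := Metric.mem_nhds_iff.1 hV
  dsimp only at hS hV hSV hεV
  have hδ : 0 < min (ε / 2) 1 := lt_min (by linarith) one_pos
  set δ := min (ε / 2) 1 with hδdef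
  have hδε : δ < ε := lt_of_le_of_lt (min_le_left _ _) (by linarith)
  have hδ1 : δ ≤ 1 := min_le_right _ _
  refine ⟨S, hS, δ⁻¹, (one_le_inv₀ hδ).2 hδ1, fun φ c hc hφ => ?_⟩
  refine le_of_forall_pos_lt_add fun η hη => ?_
  have hc' : 0 < c + δ * η := by positivity
  have h2 : (((δ / (c + δ * η) : ℝ) : ℂ) • φ) ∈ {φ : StrongDual ℂ X | p φ < 1} := by
    apply hSV
    intro x hx
    apply hεV
    rw [Metric.mem_ball, dist_zero_right]
    change ‖((δ / (c + δ * η) : ℝ) : ℂ) • φ x‖ < ε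
    rw [norm_smul, Complex.norm_real, Real.norm_of_nonneg (by positivity)]
    calc δ / (c + δ * η) * ‖φ x‖ ≤ δ / (c + δ * η) * (c + δ * η) := by
          apply mul_le_mul_of_nonneg_left _ (by positivity)
          have := hφ x hx
          have : 0 < δ * η := by positivity
          linarith
      _ = δ := by field_simp
      _ < ε := hδε
  have h3 : p (((δ / (c + δ * η) : ℝ) : ℂ) • φ) < 1 := h2
  rw [map_smul_eq_mul, Complex.norm_real, Real.norm_of_nonneg (by positivity)] at h3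
  have h4 : p φ < (c + δ * η) / δ := by
    rw [lt_div_iff₀ hδ]
    rw [div_mul_eq_mul_div, div_lt_one hc'] at h3
    linarith
  calc p φ < (c + δ * η) / δ := h4
    _ = δ⁻¹ * c + η := by field_simp

theorem dual_cts {S : Set X} (hS : IsVonNBounded ℂ S) (p : Seminorm ℂ (StrongDual ℂ X)) {M : ℝ}
    (h : ∀ (φ : StrongDual ℂ X) (c : ℝ), 0 ≤ c → (∀ f ∈ S, ‖φ f‖ ≤ c) → p φ ≤ M * c) :
    Continuous p := by
  refine Seminorm.continuous_of_forall fun r hr => ?_
  have hδ : 0 < r / (2 * (|M| + 1)) := by positivity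
  have h1 := ContinuousLinearMap.eventually_nhds_zero_mapsTo (σ := RingHom.id ℂ) (F := ℂ) hS
    (Metric.ball_mem_nhds (0 : ℂ) hδ)
  filter_upwards [h1] with φ hφ
  rw [Seminorm.mem_ball, sub_zero]
  have h2 := h φ (r / (2 * (|M| + 1))) hδ.le (fun f hf => by
    have := hφ hf
    rw [Metric.mem_ball, dist_zero_right] at this
    exact this.le)
  refine lt_of_le_of_lt h2 ?_
  calc M * (r / (2 * (|M| + 1))) ≤ |M| * (r / (2 * (|M| + 1))) :=
        mul_le_mul_of_nonneg_right (le_abs_self M) hδ.le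
    _ < (|M| + 1) * (r / (2 * (|M| + 1))) := by
        apply mul_lt_mul_of_pos_right _ hδ
        linarith
    _ = r / 2 := by field_simp
    _ < r := by linarith

/-- supremum over a bounded set as a seminorm on the strong dual -/
theorem exists_dual_sup [ContinuousSMul ℂ X] {S : Set X} (hS : IsVonNBounded ℂ S) :
    ∃ p : Seminorm ℂ (StrongDual ℂ X), Continuous p ∧ (∀ f ∈ S, ∀ φ, ‖φ f‖ ≤ p φ) ∧
      ∀ φ (c : ℝ), 0 ≤ c → (∀ f ∈ S, ‖φ f‖ ≤ c) → p φ ≤ c := by
  let ev : S → StrongDual ℂ X →ₗ[ℂ] ℂ := fun f =>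
    { toFun := fun φ => φ f
      map_add' := fun _ _ => rfl
      map_smul' := fun _ _ => rfl }
  obtain ⟨p, hp1, hp2⟩ := exists_supS ev (fun φ => by
    have h1 := (hS.image φ)
    obtain ⟨B, hB⟩ := (NormedSpace.isVonNBounded_iff' ℂ).1 h1
    exact ⟨B, fun f => hB _ ⟨f, f.2, rfl⟩⟩)
  refine ⟨p, ?_, fun f hf φ => hp1 ⟨f, hf⟩ φ, fun φ c hc h => hp2 φ c hc fun f => h f f.2⟩
  refine dual_cts hS p (M := 1) fun φ c hc h => ?_
  rw [one_mul]
  exact hp2 φ c hc fun f => h f f.2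

/-- a set of continuous functionals which is uniformly bounded on every bounded set is bounded in
the strong dual -/
theorem dual_bdd {Φ : Set (StrongDual ℂ X)}
    (h : ∀ S : Set X, IsVonNBounded ℂ S → ∃ B : ℝ, ∀ φ ∈ Φ, ∀ f ∈ S, ‖φ f‖ ≤ B) :
    IsVonNBounded ℂ Φ := by
  rw [ContinuousLinearMap.isVonNBounded_iff]
  intro S hS
  obtain ⟨B, hB⟩ := h S hS
  rw [NormedSpace.isVonNBounded_iff']
  refine ⟨B, ?_⟩
  rintro _ ⟨φ, hφ, f, hf, rfl⟩
  exact hB φ hφ f hf

/-- continuous functionals are bounded on bounded sets, uniformly for bounded sets of functionals -/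
theorem bdd_of_dual_bdd {Φ : Set (StrongDual ℂ X)} (hΦ : IsVonNBounded ℂ Φ) {S : Set X}
    (hS : IsVonNBounded ℂ S) : ∃ B : ℝ, ∀ φ ∈ Φ, ∀ f ∈ S, ‖φ f‖ ≤ B := by
  have h1 := ContinuousLinearMap.isVonNBounded_image2_apply hΦ hS
  obtain ⟨B, hB⟩ := (NormedSpace.isVonNBounded_iff' ℂ).1 h1
  exact ⟨B, fun φ hφ f hf => hB _ ⟨φ, hφ, f, hf, rfl⟩⟩

end HolRefl.Pf
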