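import Mathlib

/-! Approximation of functionals by finite combinations of point evaluations. -/

open scoped Topology BoundedContinuousFunction
open Set Filter

noncomputable section

namespace HolRefl.Pf

/-- extension of functionals (Hahn-Banach on the range of `T`) -/
theorem exists_extend {V W : Type*} [AddCommGroup V] [Module ℂ V] [NormedAddCommGroup W]
    [NormedSpace ℂ W] (T : V →ₗ[ℂ] W) (φ : V →ₗ[ℂ] ℂ) {C : ℝ} (h : ∀ v, ‖φ v‖ ≤ C * ‖T v‖) :
    ∃ L : StrongDual ℂ W, ∀ v, L (T v) = φ v := by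
  have hker : LinearMap.ker T ≤ LinearMap.ker φ := by
    intro v hv
    rw [LinearMap.mem_ker] at hv ⊢
    have h1 := h v
    rw [hv, norm_zero, mul_zero] at h1
    exact norm_le_zero_iff.mp h1
  let ψ : LinearMap.range T →ₗ[ℂ] ℂ :=
    ((LinearMap.ker T).liftQ φ hker).comp T.quotKerEquivRange.symm.toLinearMap
  have hψ : ∀ v, ψ ⟨T v, LinearMap.mem_range_self T v⟩ = φ v := by
    intro v
    change (LinearMap.ker T).liftQ φ hker
      (T.quotKerEquivRange.symm ⟨T v, LinearMap.mem_range_self T v⟩) = φ v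
    rw [LinearMap.quotKerEquivRange_symm_apply_image]
    simp
  have hb : ∀ w : LinearMap.range T, ‖ψ w‖ ≤ C * ‖w‖ := by
    rintro ⟨w, v, rfl⟩
    rw [hψ v]
    exact h v
  obtain ⟨g, hg, _⟩ := exists_extension_norm_eq (LinearMap.range T) (ψ.mkContinuous C hb)
  refine ⟨g, fun v => ?_⟩
  have h1 := hg ⟨T v, LinearMap.mem_range_self T v⟩
  rw [LinearMap.mkContinuous_apply, hψ v] at h1
  exact h1

variable {G : Type*} [TopologicalSpace G] [LocallyCompactSpace G] [T2Space G]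

/-- Functionals on `C_b(G)` are limits of combinations of point evaluations, uniformly on
equicontinuous sets of functions which vanish uniformly at infinity.

Proof. Let `K` be compact with `|u| ≤ ε'` off `K` for `u ∈ F`. Cover `K` by finitely many open sets
`U_i` around `x_i` with `|u y - u x_i| ≤ ε'` on `U_i`, and take continuous `χ_i ≥ 0` with compact
support in `U_i`, `Σ χ_i ≤ 1` and `Σ χ_i = 1` on `K`. Then `‖u - Σ u(x_i) χ_i‖ ≤ 2 ε'`, so
`|L u - Σ L(χ_i) u(x_i)| ≤ 2 ε' ‖L‖`. -/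
theorem approx (L : StrongDual ℂ (G →ᵇ ℂ)) (F : Set (G →ᵇ ℂ))
    (heq : ∀ x, ∀ ε : ℝ, 0 < ε → ∃ U ∈ 𝓝 x, ∀ u ∈ F, ∀ y ∈ U, ‖u y - u x‖ ≤ ε)
    (hvan : ∀ ε : ℝ, 0 < ε → ∃ K, IsCompact K ∧ ∀ u ∈ F, ∀ y, y ∉ K → ‖u y‖ ≤ ε)
    {ε : ℝ} (hε : 0 < ε) :
    ∃ (s : Finset G) (c : G → ℂ), ∀ u ∈ F, ‖L u - ∑ x ∈ s, c x * u x‖ ≤ ε := by
  classical
  obtain ⟨ε', hε', hεL⟩ : ∃ ε' : ℝ, 0 < ε' ∧ ‖L‖ * (2 * ε') ≤ ε := by
    refine ⟨ε / (2 * (‖L‖ + 1)), by positivity, ?_⟩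
    have hL := norm_nonneg L
    have h1 : ‖L‖ * (2 * (ε / (2 * (‖L‖ + 1)))) = ε * (‖L‖ / (‖L‖ + 1)) := by
      field_simp
    rw [h1]
    have h2 : ‖L‖ / (‖L‖ + 1) ≤ 1 := by
      rw [div_le_one (by positivity)]
      linarith
    nlinarith
  obtain ⟨K, hK, hKF⟩ := hvan ε' hε'
  choose U hU hUF using fun x => heq x ε' hε'
  obtain ⟨t, _, ht⟩ := hK.elim_nhds_subcover (fun x => interior (U x))
    (fun x _ => interior_mem_nhds.mpr (hU x))
  obtain ⟨χ, hχ, _⟩ := PartitionOfUnity.exists_isSubordinate_of_locallyFinite_t2space hK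
    (fun x : t => interior (U x)) (fun _ => isOpen_interior) (locallyFinite_of_finite _)
    (fun y hy => by
      obtain ⟨x, hx, hxy⟩ := mem_iUnion₂.mp (ht hy)
      exact mem_iUnion.mpr ⟨⟨x, hx⟩, hxy⟩)
  have hsum_le : ∀ y, ∑ i, χ i y ≤ 1 := fun y => by
    have h1 := χ.sum_le_one y
    rwa [finsum_eq_sum_of_fintype] at h1
  have hsum_eq : ∀ y ∈ K, ∑ i, χ i y = 1 := fun y hy => by
    have h1 := χ.sum_eq_one hy
    rwa [finsum_eq_sum_of_fintype] at h1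
  let X : t → (G →ᵇ ℂ) := fun i =>
    BoundedContinuousFunction.ofNormedAddCommGroup (fun y => ((χ i y : ℝ) : ℂ))
      (Complex.continuous_ofReal.comp (χ i).continuous) 1 (fun y => by
        rw [Complex.norm_real, Real.norm_of_nonneg (χ.nonneg i y)]
        exact χ.le_one i y)
  have hX : ∀ i y, X i y = ((χ i y : ℝ) : ℂ) := fun _ _ => rfl
  refine ⟨t, fun x => if hx : x ∈ t then L (X ⟨x, hx⟩) else 0, fun u hu => ?_⟩
  have h1 : ∑ x ∈ t, (if hx : x ∈ t then L (X ⟨x, hx⟩) else 0) * u x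
      = L (∑ i : t, u i • X i) := by
    rw [← Finset.sum_coe_sort t, map_sum]
    refine Finset.sum_congr rfl fun i _ => ?_
    rw [dif_pos i.2, map_smul, smul_eq_mul, mul_comm]
  rw [h1, ← map_sub]
  refine (L.le_opNorm _).trans ((mul_le_mul_of_nonneg_left ?_ (norm_nonneg L)).trans hεL)
  rw [BoundedContinuousFunction.norm_le (by positivity)]
  intro y
  have h2 : (u - ∑ i : t, u i • X i) y
      = ∑ i : t, (χ i y : ℂ) * (u y - u i) + (1 - ((∑ i, χ i y : ℝ) : ℂ)) * u y := by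
    rw [BoundedContinuousFunction.sub_apply, BoundedContinuousFunction.sum_apply]
    simp only [BoundedContinuousFunction.smul_apply, smul_eq_mul, hX, mul_sub,
      Finset.sum_sub_distrib, Complex.ofReal_sum, sub_mul, one_mul, Finset.sum_mul]
    have h3 : ∑ i : t, u i * (χ i y : ℂ) = ∑ i : t, (χ i y : ℂ) * u i :=
      Finset.sum_congr rfl fun i _ => mul_comm _ _
    rw [h3]
    ring
  rw [h2]
  have h4 : ‖∑ i : t, (χ i y : ℂ) * (u y - u i)‖ ≤ ε' := by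
    refine (norm_sum_le _ _).trans ?_
    have h5 : ∀ i : t, ‖(χ i y : ℂ) * (u y - u i)‖ ≤ χ i y * ε' := by
      intro i
      rw [norm_mul, Complex.norm_real, Real.norm_of_nonneg (χ.nonneg i y)]
      by_cases hy : χ i y = 0
      · rw [hy, zero_mul, zero_mul]
      · have h6 : y ∈ U i := by
          have h7 : y ∈ tsupport (χ i) := subset_tsupport _ hy
          exact interior_subset (hχ i h7)
        exact mul_le_mul_of_nonneg_left (hUF i u hu y h6) (χ.nonneg i y)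
    refine (Finset.sum_le_sum fun i _ => h5 i).trans ?_
    rw [← Finset.sum_mul]
    nlinarith [hsum_le y]
  have h8 : ‖(1 - ((∑ i, χ i y : ℝ) : ℂ)) * u y‖ ≤ ε' := by
    by_cases hy : y ∈ K
    · rw [hsum_eq y hy]
      simp [hε'.le]
    · have h9 : (1 - ((∑ i, χ i y : ℝ) : ℂ)) = ((1 - ∑ i, χ i y : ℝ) : ℂ) := by push_cast; ring
      have h10 : 0 ≤ ∑ i, χ i y := Finset.sum_nonneg fun i _ => χ.nonneg i y
      rw [norm_mul, h9, Complex.norm_real, Real.norm_of_nonneg (by linarith [hsum_le y])]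
      have h11 := hKF u hu y hy
      have h12 := norm_nonneg (u y)
      nlinarith [hsum_le y]
  calc _ ≤ ε' + ε' := (norm_add_le _ _).trans (add_le_add h4 h8)
    _ = 2 * ε' := by ring

theorem approx_functional {V : Type*} [AddCommGroup V] [Module ℂ V] (T : V →ₗ[ℂ] (G →ᵇ ℂ))
    (φ : V →ₗ[ℂ] ℂ) {C : ℝ} (h : ∀ v, ‖φ v‖ ≤ C * ‖T v‖) (S : Set V)
    (heq : ∀ x, ∀ ε : ℝ, 0 < ε → ∃ U ∈ 𝓝 x, ∀ v ∈ S, ∀ y ∈ U, ‖T v y - T v x‖ ≤ ε)
    (hvan : ∀ ε : ℝ, 0 < ε → ∃ K, IsCompact K ∧ ∀ v ∈ S, ∀ y, y ∉ K → ‖T v y‖ ≤ ε)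
    {ε : ℝ} (hε : 0 < ε) :
    ∃ (s : Finset G) (c : G → ℂ), ∀ v ∈ S, ‖φ v - ∑ x ∈ s, c x * T v x‖ ≤ ε := by
  obtain ⟨L, hL⟩ := exists_extend T φ h
  obtain ⟨s, c, hs⟩ := approx L (T '' S)
    (fun x ε hε => by
      obtain ⟨U, hU, h1⟩ := heq x ε hε
      refine ⟨U, hU, ?_⟩
      rintro _ ⟨v, hv, rfl⟩ y hy
      exact h1 v hv y hy)
    (fun ε hε => by
      obtain ⟨K, hK, h1⟩ := hvan ε hε
      refine ⟨K, hK, ?_⟩
      rintro _ ⟨v, hv, rfl⟩ y hy
      exact h1 v hv y hy) hε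
  refine ⟨s, c, fun v hv => ?_⟩
  have h1 := hs _ (mem_image_of_mem T hv)
  rwa [hL] at h1

end HolRefl.Pf
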