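import Pool.Agent.W_06f097_h35.RD

/-! Uniqueness of the Arens-Michael envelope. -/

open scoped Topology
open Set Filter

noncomputable section

namespace HolRefl.Pf

/-- two dense maps of a set into complete Hausdorff uniform spaces which induce the same uniform
structure -/
theorem exists_uniformEquiv {α B C : Type*} [UniformSpace B] [UniformSpace C] [CompleteSpace B]
    [CompleteSpace C] [T0Space B] [T0Space C] {i : α → B} {j : α → C}
    (h : UniformSpace.comap i inferInstance = UniformSpace.comap j inferInstance)
    (hi : DenseRange i) (hj : DenseRange j) : ∃ e : C ≃ᵤ B, ∀ a, e (j a) = i a := by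
  let _ : UniformSpace α := UniformSpace.comap i inferInstance
  have hiu : IsUniformInducing i := ⟨rfl⟩
  have hju : IsUniformInducing j := by
    refine isUniformInducing_iff_uniformSpace.2 ?_
    exact h.symm
  let pB : AbstractCompletion α :=
    ⟨B, i, inferInstance, inferInstance, inferInstance, hiu, hi⟩
  let pC : AbstractCompletion α :=
    ⟨C, j, inferInstance, inferInstance, inferInstance, hju, hj⟩
  exact ⟨pC.compareEquiv pB, fun a => pC.compare_coe pB a⟩

/-- comparison of the neighbourhoods of zero which two envelopes induce -/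
theorem am_nhds_le {A B C : Type*} [AddCommGroup A] [Module ℂ A] [TopologicalSpace A]
    [AddCommGroup B] [Module ℂ B] [UniformSpace B] [IsUniformAddGroup B] [ContinuousSMul ℂ B]
    [AddCommGroup C] [Module ℂ C] [UniformSpace C] [IsUniformAddGroup C] [ContinuousSMul ℂ C]
    {mA : A → A → A → Prop} {mB : B → B → B → Prop} {mC : C → C → C → Prop} {i : A →ₗ[ℂ] B}
    {j : A →ₗ[ℂ] C} (hi : IsAMEnvelope mA mB i) (hj : IsAMEnvelope mA mC j) :
    comap i (𝓝 (0 : B)) ≤ comap j (𝓝 (0 : C)) := by
  rintro s ⟨U, hU, hUs⟩
  obtain ⟨q, hq, hqU⟩ := hj.locConvex U hU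
  obtain ⟨p, hp, hpm, hqp⟩ := hj.ge q hq
  obtain ⟨q', hq', hpq'⟩ := hi.le p hp hpm
  refine ⟨{b | q' b < 1}, ?_, fun a ha => hUs (hqU ?_)⟩
  · have h3 := hq'.continuousAt (x := (0 : B))
    refine h3.eventually (p := fun t => t < 1) ?_
    rw [map_zero]
    exact Iio_mem_nhds one_pos
  · exact ((hqp a).trans (hpq' a)).trans_lt ha

/-- uniqueness of the envelope. Proof: `comap i` and `comap j` of the uniform structures are
structures of uniform additive groups with the same neighbourhoods of `0` (`locConvex`, `le`, `ge`
for `i` and `j`), hence equal; the equivalence of `exists_uniformEquiv` is linear by density. -/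
theorem am_unique {A B C : Type*} [AddCommGroup A] [Module ℂ A] [TopologicalSpace A]
    [AddCommGroup B] [Module ℂ B] [UniformSpace B] [IsUniformAddGroup B] [ContinuousSMul ℂ B]
    [AddCommGroup C] [Module ℂ C] [UniformSpace C] [IsUniformAddGroup C] [ContinuousSMul ℂ C]
    {mA : A → A → A → Prop} {mB : B → B → B → Prop} {mC : C → C → C → Prop} {i : A →ₗ[ℂ] B}
    {j : A →ₗ[ℂ] C} (hi : IsAMEnvelope mA mB i) (hj : IsAMEnvelope mA mC j) :
    ∃ κ : C ≃L[ℂ] B, ∀ a, κ (j a) = i a := by
  have := hi.complete
  have := hj.complete
  have := hi.t2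
  have := hj.t2
  have hcomap : UniformSpace.comap i (inferInstance : UniformSpace B) =
      UniformSpace.comap j (inferInstance : UniformSpace C) := by
    have gi : @IsUniformAddGroup A (UniformSpace.comap i inferInstance) _ := by
      let _ : UniformSpace A := UniformSpace.comap i inferInstance
      exact IsUniformInducing.isUniformAddGroup i.toAddMonoidHom ⟨rfl⟩
    have gj : @IsUniformAddGroup A (UniformSpace.comap j inferInstance) _ := by
      let _ : UniformSpace A := UniformSpace.comap j inferInstance
      exact IsUniformInducing.isUniformAddGroup j.toAddMonoidHom ⟨rfl⟩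
    refine IsUniformAddGroup.ext gi gj ?_
    have e1 : @nhds A (UniformSpace.comap i inferInstance).toTopologicalSpace 0 =
        comap i (𝓝 (0 : B)) := by
      rw [UniformSpace.toTopologicalSpace_comap, nhds_induced, map_zero]
    have e2 : @nhds A (UniformSpace.comap j inferInstance).toTopologicalSpace 0 =
        comap j (𝓝 (0 : C)) := by
      rw [UniformSpace.toTopologicalSpace_comap, nhds_induced, map_zero]
    rw [e1, e2]
    exact le_antisymm (am_nhds_le hi hj) (am_nhds_le hj hi)
  obtain ⟨e, he⟩ := exists_uniformEquiv hcomap hi.dense hj.dense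
  have hadd : ∀ x y : C, e (x + y) = e x + e y := by
    have h1 : (fun z : C × C => e (z.1 + z.2)) = fun z : C × C => e z.1 + e z.2 := by
      refine (hj.dense.prodMap hj.dense).equalizer 
        (e.continuous.comp continuous_add)
        ((e.continuous.comp continuous_fst).add (e.continuous.comp continuous_snd)) ?_
      funext z
      simp only [Function.comp_apply, Prod.map_apply']
      rw [← map_add, he, he, he, map_add]
    exact fun x y => congrFun h1 (x, y)
  have hsmul : ∀ (c : ℂ) (x : C), e (c • x) = c • e x := by
    intro c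
    have h1 : (fun z : C => e (c • z)) = fun z : C => c • e z := by
      refine hj.dense.equalizer (e.continuous.comp (continuous_const_smul c))
        (e.continuous.const_smul c) ?_
      funext z
      simp only [Function.comp_apply]
      rw [← map_smul, he, he, map_smul]
    exact fun x => congrFun h1 x
  refine ⟨⟨⟨⟨⟨e, hadd⟩, hsmul⟩, e.symm, e.left_inv, e.right_inv⟩, e.continuous,
    e.symm.continuous⟩, he⟩

end HolRefl.Pf
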