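import Pool.Agent.W_06f097_h43.ME3
import Pool.Agent.W_06f097_h43.ME4
import Pool.Agent.W_06f097_h43.CA5
import Pool.Agent.W_06f097_h43.CA6

/-! Smoothing of a length function: a smooth proper function with bounded left invariant
derivatives. -/

open scoped Topology ContDiff
open MeasureTheory Set Filter Metric

noncomputable section

namespace HR

namespace CLG

/-- local Lipschitz bound, uniform near a point -/
private lemma ka_local {F : Type*} [NormedAddCommGroup F] [NormedSpace ℝ F] {n : ℕ} {G : Type*}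
    [Group G] [TopologicalSpace G] [IsTopologicalGroup G] (C : CLG n G) {f : G → F} (hf : C.Sm f)
    (x0 : G) :
    ∃ δ : ℝ, 0 < δ ∧ ∃ K : ℝ, 0 ≤ K ∧ ∀ w z : En n, ‖w‖ < δ → ‖z‖ < δ →
      ‖f (x0 * C.ψ w * C.ψ z) - f (x0 * C.ψ w)‖ ≤ K * ‖z‖ := by
  have h0 : (0 : En n) ∈ C.ψ.source := C.ball_sub (mem_ball_self C.r_pos)
  have hm0 : C.ψ.symm (C.ψ 0 * C.ψ 0) = 0 := by
    have h1 : C.ψ 0 * C.ψ 0 = C.ψ 0 := by rw [C.map_zero, mul_one]
    rw [h1, C.ψ.left_inv h0]
  have hm : ContDiffAt ℝ 1 (fun p : En n × En n => C.ψ.symm (C.ψ p.1 * C.ψ p.2))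
      ((0 : En n), (0 : En n)) := by
    have h1 := C.mul_smooth.contDiffAt (x := ((0 : En n), (0 : En n)))
      (prod_mem_nhds (ball_mem_nhds _ C.r_pos) (ball_mem_nhds _ C.r_pos))
    exact (h1.restrict_scalars ℝ).of_le (by exact_mod_cast le_top)
  have hf0 : ContDiffAt ℝ 1 (C.co f x0)
      ((fun p : En n × En n => C.ψ.symm (C.ψ p.1 * C.ψ p.2)) ((0 : En n), (0 : En n))) := by
    have h1 : (fun p : En n × En n => C.ψ.symm (C.ψ p.1 * C.ψ p.2)) ((0 : En n), (0 : En n)) = 0 :=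
      hm0
    rw [h1]
    exact (hf x0).of_le (by exact_mod_cast le_top)
  obtain ⟨K, t, ht, hL⟩ := (hf0.comp ((0 : En n), (0 : En n)) hm).exists_lipschitzOnWith
  obtain ⟨ε, hε, hεt⟩ := Metric.mem_nhds_iff.1 ht
  refine ⟨min ε C.r, lt_min hε C.r_pos, K, K.2, fun w z hw hz => ?_⟩
  have hwr : w ∈ ball (0 : En n) C.r := mem_ball_zero_iff.2 (hw.trans_le (min_le_right _ _))
  have hzr : z ∈ ball (0 : En n) C.r := mem_ball_zero_iff.2 (hz.trans_le (min_le_right _ _))
  have h0r : (0 : En n) ∈ ball (0 : En n) C.r := mem_ball_self C.r_pos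
  have hwz : (w, z) ∈ t := hεt (by
    rw [mem_ball, Prod.dist_eq, max_lt_iff]
    simp only [dist_zero_right]
    exact ⟨hw.trans_le (min_le_left _ _), hz.trans_le (min_le_left _ _)⟩)
  have hw0 : (w, (0 : En n)) ∈ t := hεt (by
    rw [mem_ball, Prod.dist_eq, max_lt_iff]
    simp only [dist_zero_right, norm_zero]
    exact ⟨hw.trans_le (min_le_left _ _), hε⟩)
  have h2 := hL.dist_le_mul (w, z) hwz (w, 0) hw0
  have e1 : (C.co f x0 ∘ fun p : En n × En n => C.ψ.symm (C.ψ p.1 * C.ψ p.2)) (w, z) =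
      f (x0 * C.ψ w * C.ψ z) := by
    simp only [Function.comp, CLG.co]
    rw [C.ψ.right_inv (C.mul_mem w hwr z hzr), mul_assoc]
  have e2 : (C.co f x0 ∘ fun p : En n × En n => C.ψ.symm (C.ψ p.1 * C.ψ p.2)) (w, 0) =
      f (x0 * C.ψ w) := by
    simp only [Function.comp, CLG.co]
    rw [C.ψ.right_inv (C.mul_mem w hwr 0 h0r), C.map_zero, mul_one]
  rw [e1, e2, dist_eq_norm, Prod.dist_eq] at h2
  refine h2.trans (le_of_eq ?_)
  simp

open scoped Pointwise in
/-- Lipschitz bound, uniform in `x` -/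
private lemma ka_unif {F : Type*} [NormedAddCommGroup F] [NormedSpace ℝ F] {n : ℕ} {G : Type*}
    [Group G] [TopologicalSpace G] [IsTopologicalGroup G] (C : CLG n G) {f : G → F} (hf : C.Sm f)
    (hc : HasCompactSupport f) :
    ∃ K' : Set G, IsCompact K' ∧ ∃ δ : ℝ, 0 < δ ∧ ∃ K : ℝ, 0 ≤ K ∧
      (∀ x ∈ K', ∀ z : En n, ‖z‖ < δ → ‖f (x * C.ψ z) - f x‖ ≤ K * ‖z‖) ∧
      ∀ x, x ∉ K' → ∀ z : En n, ‖z‖ < δ → f (x * C.ψ z) - f x = 0 := by
  have hr2 : closedBall (0 : En n) (C.r / 2) ⊆ ball (0 : En n) C.r :=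
    closedBall_subset_ball (by linarith [C.r_pos])
  have hcomp : IsCompact (C.ψ '' closedBall (0 : En n) (C.r / 2)) :=
    (isCompact_closedBall _ _).image_of_continuousOn
      (C.ψ.continuousOn.mono (hr2.trans C.ball_sub))
  set K' : Set G := tsupport f * (C.ψ '' closedBall (0 : En n) (C.r / 2))⁻¹ with hK'
  have hK'c : IsCompact K' := IsCompact.mul hc hcomp.inv
  have hloc : ∃ δ : ℝ, 0 < δ ∧ ∃ K : ℝ, 0 ≤ K ∧
      ∀ x ∈ K', ∀ z : En n, ‖z‖ < δ → ‖f (x * C.ψ z) - f x‖ ≤ K * ‖z‖ := by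
    refine hK'c.induction_on (p := fun s => ∃ δ : ℝ, 0 < δ ∧ ∃ K : ℝ, 0 ≤ K ∧
      ∀ x ∈ s, ∀ z : En n, ‖z‖ < δ → ‖f (x * C.ψ z) - f x‖ ≤ K * ‖z‖) ?_ ?_ ?_ ?_
    · exact ⟨1, one_pos, 0, le_rfl, fun x hx => absurd hx (notMem_empty x)⟩
    · rintro s t hst ⟨δ, hδ, K, hK, h⟩
      exact ⟨δ, hδ, K, hK, fun x hx => h x (hst hx)⟩
    · rintro s t ⟨δ, hδ, K, hK, h⟩ ⟨δ', hδ', L, hL, h'⟩
      refine ⟨min δ δ', lt_min hδ hδ', max K L, le_max_of_le_left hK, fun x hx z hz => ?_⟩
      rcases hx with hx | hx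
      · exact (h x hx z (hz.trans_le (min_le_left _ _))).trans
          (mul_le_mul_of_nonneg_right (le_max_left _ _) (norm_nonneg z))
      · exact (h' x hx z (hz.trans_le (min_le_right _ _))).trans
          (mul_le_mul_of_nonneg_right (le_max_right _ _) (norm_nonneg z))
    · intro x0 _
      obtain ⟨δ, hδ, K, hK, h⟩ := ka_local C hf x0
      refine ⟨(fun z => x0 * C.ψ z) '' ball (0 : En n) δ, mem_nhdsWithin_of_mem_nhds ?_, δ, hδ,
        K, hK, ?_⟩
      · rw [← C.map_nhds x0]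
        exact image_mem_map (ball_mem_nhds _ hδ)
      · rintro x ⟨w, hw, rfl⟩ z hz
        exact h w z (mem_ball_zero_iff.1 hw) hz
  obtain ⟨δ, hδ, K, hK, h⟩ := hloc
  refine ⟨K', hK'c, min δ (C.r / 2), lt_min hδ (by linarith [C.r_pos]), K, hK,
    fun x hx z hz => h x hx z (hz.trans_le (min_le_left _ _)), fun x hx z hz => ?_⟩
  have key : ∀ w : En n, ‖w‖ ≤ C.r / 2 → f (x * C.ψ w) = 0 := by
    intro w hw
    by_contra hne
    apply hx
    have h1 : x * C.ψ w ∈ tsupport f := subset_tsupport f hne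
    refine Set.mem_mul.2 ⟨x * C.ψ w, h1, (C.ψ w)⁻¹, ?_, by group⟩
    rw [Set.mem_inv, inv_inv]
    exact ⟨w, mem_closedBall_zero_iff.2 hw, rfl⟩
  have h1 := key z (hz.le.trans (min_le_right _ _))
  have h2 := key 0 (by rw [norm_zero]; linarith [C.r_pos])
  rw [C.map_zero, mul_one] at h2
  rw [h1, h2, sub_zero]

variable {n : ℕ} {G : Type*} [Group G] [TopologicalSpace G] [IsTopologicalGroup G] [T2Space G]
  [LocallyCompactSpace G] [SecondCountableTopology G] [MeasurableSpace G] [BorelSpace G]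
  (C : CLG n G) (μ : Measure G) [μ.IsHaarMeasure] {l : G → ℝ} (hl : Len μ l)

omit [IsTopologicalGroup G] [T2Space G] [LocallyCompactSpace G] [SecondCountableTopology G]
  [BorelSpace G] [μ.IsHaarMeasure] in
include hl in
private theorem ka_diff (x y : G) : |l (x * y) - l x| ≤ l y := by
  rw [abs_le]
  have h1 := hl.mul x y
  have h2 := hl.mul (x * y) y⁻¹
  rw [mul_inv_cancel_right, hl.inv] at h2
  constructor <;> linarith

omit [Group G] [IsTopologicalGroup G] [SecondCountableTopology G] [μ.IsHaarMeasure] in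
private theorem ka_locInt [IsFiniteMeasureOnCompacts μ] {l : G → ℝ} (hm : Measurable l)
    (hb : ∀ K, IsCompact K → ∃ M : ℝ, ∀ x ∈ K, l x ≤ M) (h0 : ∀ x, 0 ≤ l x) :
    LocallyIntegrable l μ := by
  rw [locallyIntegrable_iff]
  intro K hK
  obtain ⟨M, hM⟩ := hb K hK
  refine Measure.integrableOn_of_bounded (M := M) hK.measure_lt_top.ne hm.aestronglyMeasurable ?_
  filter_upwards [ae_restrict_mem hK.measurableSet] with x hx
  rw [Real.norm_eq_abs, abs_of_nonneg (h0 x)]
  exact hM x hx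

omit [T2Space G] [LocallyCompactSpace G] [SecondCountableTopology G] [MeasurableSpace G]
  [BorelSpace G] in
/-- bound of the gradient from a Lipschitz bound -/
private theorem ka_grad {t : G → ℝ} (ht : C.Sm t) {L : ℝ} (hL : 0 ≤ L) {x : G}
    (h : ∀ᶠ z in 𝓝 (0 : En n), |t (x * C.ψ z) - t x| ≤ L * ‖z‖) (b : En n) :
    ‖∑ k, b k * C.X k (fun y => (t y : ℂ)) x‖ ^ 2 ≤ n * L ^ 2 * ∑ j, ‖b j‖ ^ 2 := by
  have hsm : C.Sm (fun y => (t y : ℂ)) := C.sm_ofReal.2 ht
  have h1 : HasFDerivAt (C.co (fun y => (t y : ℂ)) x) (C.D (fun y => (t y : ℂ)) x) 0 :=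
    ((hsm x).differentiableAt (by simp)).hasFDerivAt
  have h2 : ‖C.D (fun y => (t y : ℂ)) x‖ ≤ L := by
    refine h1.le_of_lip' hL ?_
    filter_upwards [h] with z hz
    have e : C.co (fun y => (t y : ℂ)) x 0 = (t x : ℂ) := by
      simp only [co]; rw [C.map_zero, mul_one]
    rw [e, sub_zero]
    simp only [co]
    rw [← Complex.ofReal_sub, Complex.norm_real]
    exact hz
  have h3 : ∀ k, ‖C.X k (fun y => (t y : ℂ)) x‖ ≤ L := by
    intro k
    have h4 : ‖C.D (fun y => (t y : ℂ)) x (Pi.single k 1)‖ ≤ L := by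
      refine (ContinuousLinearMap.le_opNorm _ _).trans ?_
      rw [Pi.norm_single, norm_one, mul_one]
      exact h2
    have h5 : ‖C.D (fun y => (t y : ℂ)) x (Pi.single k Complex.I)‖ ≤ L := by
      refine (ContinuousLinearMap.le_opNorm _ _).trans ?_
      rw [Pi.norm_single, Complex.norm_I, mul_one]
      exact h2
    rw [X, norm_div]
    have h6 : ‖(2 : ℂ)‖ = 2 := by simp
    rw [h6, div_le_iff₀ (by norm_num)]
    refine (norm_sub_le _ _).trans ?_
    rw [norm_mul, Complex.norm_I, one_mul]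
    linarith
  have h7 : ‖∑ k, b k * C.X k (fun y => (t y : ℂ)) x‖ ≤ L * ∑ k, ‖b k‖ := by
    rw [Finset.mul_sum]
    refine (norm_sum_le _ _).trans (Finset.sum_le_sum fun k _ => ?_)
    rw [norm_mul, mul_comm]
    exact mul_le_mul_of_nonneg_right (h3 k) (norm_nonneg _)
  have h8 : (∑ k, ‖b k‖) ^ 2 ≤ n * ∑ k, ‖b k‖ ^ 2 := by
    have := sq_sum_le_card_mul_sum_sq (s := (Finset.univ : Finset (Fin n))) (f := fun k => ‖b k‖)
    simpa using this
  calc ‖∑ k, b k * C.X k (fun y => (t y : ℂ)) x‖ ^ 2 ≤ (L * ∑ k, ‖b k‖) ^ 2 := by gcongr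
    _ = L ^ 2 * (∑ k, ‖b k‖) ^ 2 := by ring
    _ ≤ L ^ 2 * (n * ∑ k, ‖b k‖ ^ 2) := by gcongr
    _ = n * L ^ 2 * ∑ j, ‖b j‖ ^ 2 := by ring

include hl in
/-- a smooth proper function at bounded distance from `l` whose left invariant derivatives are
bounded -/
theorem exists_slow' : ∃ t : G → ℝ, C.Sm (fun y => (t y : ℂ)) ∧
    (∀ R : ℝ, IsCompact {x | t x ≤ R}) ∧ (∃ c : ℝ, 0 ≤ c ∧ ∀ x, |t x - l x| ≤ c) ∧
    ∃ B : ℝ, 0 ≤ B ∧ ∀ x (b : En n),
      ‖∑ k, b k * C.X k (fun y => (t y : ℂ)) x‖ ^ 2 ≤ B * ∑ j, ‖b j‖ ^ 2 := by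
  obtain ⟨β, hβ, hβc, -, hβ0, hβ1⟩ := C.exists_bump (U := univ) univ_mem
  have hβcont : Continuous β := C.sm_continuous hβ
  have hβi : Integrable β μ := hβcont.integrable_of_hasCompactSupport hβc
  have hI : 0 < ∫ y, β y ∂μ := by
    refine (integral_pos_iff_support_of_nonneg hβ0 hβi).2 ?_
    have ho : IsOpen (Function.support β) := hβcont.isOpen_support
    exact ho.measure_pos μ ⟨1, by simpa using hβ1.ne'⟩
  obtain ⟨I, hIdef⟩ : ∃ I, I = ∫ y, β y ∂μ := ⟨_, rfl⟩
  rw [← hIdef] at hI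
  -- bound of `l` on the support
  obtain ⟨M, hM⟩ := hl.bdd (tsupport β) hβc
  have hM0 : 0 ≤ max M 0 := le_max_right _ _
  -- local integrability
  have hloc : LocallyIntegrable l μ := ka_locInt μ hl.meas hl.bdd hl.nonneg
  have hint : ∀ x, Integrable (fun y => β y * l (x * y)) μ := by
    intro x
    have hm : Measurable fun y => l (x * y) := hl.meas.comp (measurable_const_mul x)
    have h1 : Integrable (fun y => β y * (l x + max M 0)) μ := hβi.mul_const _
    refine h1.mono' (hβcont.measurable.mul hm).aestronglyMeasurable (Eventually.of_forall fun y => ?_)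
    rw [norm_mul, Real.norm_eq_abs, Real.norm_eq_abs, abs_of_nonneg (hβ0 y),
      abs_of_nonneg (hl.nonneg _)]
    by_cases hy : y ∈ tsupport β
    · refine mul_le_mul_of_nonneg_left ?_ (hβ0 y)
      have := hl.mul x y
      have h2 := (hM y hy).trans (le_max_left M 0)
      linarith
    · rw [image_eq_zero_of_notMem_tsupport hy, zero_mul, zero_mul]
  obtain ⟨T, hT⟩ : ∃ T : G → ℝ, T = fun x => (∫ y, β y * l (x * y) ∂μ) / I := ⟨_, rfl⟩
  have hTd : ∀ x, T x - l x = (∫ y, β y * (l (x * y) - l x) ∂μ) / I := by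
    intro x
    have h1 : ∫ y, β y * (l (x * y) - l x) ∂μ = (∫ y, β y * l (x * y) ∂μ) - I * l x := by
      rw [hIdef, ← integral_mul_const, ← integral_sub (hint x) (hβi.mul_const _)]
      refine integral_congr_ae (Eventually.of_forall fun y => ?_)
      simp only
      ring
    rw [h1, hT]
    field_simp
  have hTl : ∀ x, |T x - l x| ≤ max M 0 := by
    intro x
    rw [hTd, abs_div, abs_of_pos hI, div_le_iff₀ hI, hIdef, ← integral_const_mul]
    refine (abs_integral_le_integral_abs).trans (integral_mono_of_nonneg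
      (Eventually.of_forall fun y => abs_nonneg _) (hβi.const_mul _)
      (Eventually.of_forall fun y => ?_))
    simp only
    rw [abs_mul, abs_of_nonneg (hβ0 y), mul_comm]
    by_cases hy : y ∈ tsupport β
    · refine mul_le_mul_of_nonneg_right ?_ (hβ0 y)
      exact (ka_diff μ hl x y).trans ((hM y hy).trans (le_max_left _ _))
    · rw [image_eq_zero_of_notMem_tsupport hy, mul_zero, mul_zero]
  -- smoothness
  have hTsm : C.Sm T := by
    have h1 : LocallyIntegrable (fun y => (l y : ℂ)) μ := by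
      intro x
      obtain ⟨U, hU, h2⟩ := hloc x
      exact ⟨U, hU, h2.ofReal⟩
    have h2 : C.Sm (Mol μ β (fun y => (l y : ℂ))) := C.mol_sm μ hβ hβc h1
    have h3 := C.sm_invFun h2
    have h4 : (fun x => Mol μ β (fun y => (l y : ℂ)) x⁻¹) =
        fun x => (((∫ y, β y * l (x * y) ∂μ : ℝ)) : ℂ) := by
      funext x
      rw [Mol, ← integral_complex_ofReal]
      refine integral_congr_ae (Eventually.of_forall fun y => ?_)
      simp only
      rw [← mul_inv_rev, hl.inv]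
      push_cast
      rfl
    rw [h4, C.sm_ofReal] at h3
    rw [hT]
    intro x
    exact (h3 x).div_const I
  refine ⟨T, C.sm_ofReal.2 hTsm, fun R => ?_, ⟨max M 0, hM0, hTl⟩, ?_⟩
  · obtain ⟨K, hK, hKs⟩ := hl.proper (R + max M 0)
    refine hK.of_isClosed_subset (isClosed_le (C.sm_continuous hTsm) continuous_const) ?_
    intro x hx
    apply hKs
    have h1 := abs_le.1 (hTl x)
    simp only [mem_setOf_eq] at hx ⊢
    linarith [h1.1]
  · -- the gradient
    have hβinv : C.Sm (fun g => β g⁻¹) := C.sm_invFun hβ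
    have hβinvc : HasCompactSupport (fun g => β g⁻¹) :=
      hβc.comp_homeomorph (Homeomorph.inv G)
    obtain ⟨K', hK', δ, hδ, L, hL, h1, h2⟩ := ka_unif C hβinv hβinvc
    obtain ⟨M₂, hM₂⟩ := hl.bdd K' hK'
    obtain ⟨Bm, hBm⟩ : ∃ Bm : ℝ, Bm = (μ (K'⁻¹)).toReal := ⟨_, rfl⟩
    have hK'i : IsCompact K'⁻¹ := hK'.inv
    have hBm0 : 0 ≤ Bm := by rw [hBm]; exact ENNReal.toReal_nonneg
    have hA : ∀ x, ∀ z : En n, ‖z‖ < δ → |T (x * C.ψ z) - T x| ≤
        (L * max M₂ 0 * Bm / I) * ‖z‖ := by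
      intro x z hz
      have e1 : ∫ y, β y * l (x * C.ψ z * y) ∂μ = ∫ y, β ((C.ψ z)⁻¹ * y) * l (x * y) ∂μ := by
        rw [← integral_mul_left_eq_self (μ := μ) (fun y => β y * l (x * C.ψ z * y)) (C.ψ z)⁻¹]
        refine integral_congr_ae (Eventually.of_forall fun y => ?_)
        simp only
        congr 2
        group
      have hi1 : Integrable (fun y => β ((C.ψ z)⁻¹ * y) * l (x * y)) μ := by
        have := (hint (x * C.ψ z)).comp_mul_left (C.ψ z)⁻¹
        refine this.congr (Eventually.of_forall fun y => ?_)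
        simp only
        congr 2
        group
      have hi2 : Integrable (fun y => β ((C.ψ z)⁻¹ * y)) μ := hβi.comp_mul_left (C.ψ z)⁻¹
      have e2 : ∫ y, β ((C.ψ z)⁻¹ * y) ∂μ = ∫ y, β y ∂μ :=
        integral_mul_left_eq_self (μ := μ) β (C.ψ z)⁻¹
      have e3 : (∫ y, β y * l (x * C.ψ z * y) ∂μ) - ∫ y, β y * l (x * y) ∂μ =
          ∫ y, (β ((C.ψ z)⁻¹ * y) - β y) * (l (x * y) - l x) ∂μ := by
        have e4 : (fun y => (β ((C.ψ z)⁻¹ * y) - β y) * (l (x * y) - l x)) =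
            fun y => (β ((C.ψ z)⁻¹ * y) * l (x * y) - β y * l (x * y)) -
              (β ((C.ψ z)⁻¹ * y) - β y) * l x := by
          funext y; ring
        have i1 : ∫ y, (β ((C.ψ z)⁻¹ * y) * l (x * y) - β y * l (x * y)) ∂μ =
            (∫ y, β ((C.ψ z)⁻¹ * y) * l (x * y) ∂μ) - ∫ y, β y * l (x * y) ∂μ :=
          integral_sub hi1 (hint x)
        have i2 : ∫ y, (β ((C.ψ z)⁻¹ * y) - β y) ∂μ = 0 := by
          have := integral_sub hi2 hβi
          rw [e2, sub_self] at this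
          exact this
        have i3 : ∫ y, (β ((C.ψ z)⁻¹ * y) - β y) * l x ∂μ = 0 := by
          rw [integral_mul_const, i2, zero_mul]
        have i4 : ∫ y, ((β ((C.ψ z)⁻¹ * y) * l (x * y) - β y * l (x * y)) -
            (β ((C.ψ z)⁻¹ * y) - β y) * l x) ∂μ =
            (∫ y, (β ((C.ψ z)⁻¹ * y) * l (x * y) - β y * l (x * y)) ∂μ) -
              ∫ y, (β ((C.ψ z)⁻¹ * y) - β y) * l x ∂μ :=
          integral_sub (hi1.sub (hint x)) ((hi2.sub hβi).mul_const _)
        rw [e4, i4, i3, i1, e1, sub_zero]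
      have e5 : T (x * C.ψ z) - T x =
          (∫ y, (β ((C.ψ z)⁻¹ * y) - β y) * (l (x * y) - l x) ∂μ) / I := by
        rw [hT]
        simp only
        rw [← sub_div, e3]
      rw [e5, abs_div, abs_of_pos hI, div_mul_eq_mul_div]
      refine div_le_div_of_nonneg_right ?_ hI.le
      have e6 : ∫ y, indicator K'⁻¹ (fun _ => L * ‖z‖ * max M₂ 0) y ∂μ =
          L * max M₂ 0 * Bm * ‖z‖ := by
        rw [integral_indicator hK'i.measurableSet, setIntegral_const, hBm, smul_eq_mul]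
        simp only [Measure.real]
        ring
      rw [← e6]
      refine (abs_integral_le_integral_abs).trans (integral_mono_of_nonneg
        (Eventually.of_forall fun y => abs_nonneg _) ?_ (Eventually.of_forall fun y => ?_))
      · exact (integrable_indicator_iff hK'i.measurableSet).2
          (integrableOn_const hK'i.measure_lt_top.ne)
      · simp only
        by_cases hy : y ∈ K'⁻¹
        · rw [indicator_of_mem hy, abs_mul]
          have h3 := h1 y⁻¹ hy z hz
          rw [mul_inv_rev, inv_inv, Real.norm_eq_abs] at h3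
          have h4 : l y ≤ max M₂ 0 := by
            have := hM₂ y⁻¹ hy
            rw [hl.inv] at this
            exact this.trans (le_max_left _ _)
          exact mul_le_mul h3 ((ka_diff μ hl x y).trans h4) (abs_nonneg _)
            (mul_nonneg hL (norm_nonneg _))
        · rw [indicator_of_notMem hy]
          have h3 := h2 y⁻¹ hy z hz
          rw [mul_inv_rev, inv_inv] at h3
          rw [h3, zero_mul, abs_zero]
    refine ⟨n * (L * max M₂ 0 * Bm / I) ^ 2, by positivity, fun x b => ?_⟩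
    refine C.ka_grad hTsm (by positivity) ?_ b
    filter_upwards [ball_mem_nhds (0 : En n) hδ] with z hz
    exact hA x z (mem_ball_zero_iff.1 hz)

include hl in
/-- a smooth proper function whose left invariant derivatives are bounded -/
theorem exists_slow : ∃ t : G → ℝ, C.Sm (fun y => (t y : ℂ)) ∧
    (∀ R : ℝ, IsCompact {x | t x ≤ R}) ∧ ∃ B : ℝ, 0 ≤ B ∧ ∀ x (b : En n),
      ‖∑ k, b k * C.X k (fun y => (t y : ℂ)) x‖ ^ 2 ≤ B * ∑ j, ‖b j‖ ^ 2 := by
  obtain ⟨t, h1, h2, -, h3⟩ := exists_slow' C μ hl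
  exact ⟨t, h1, h2, h3⟩

end CLG

end HR
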