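import Pool.Agent.W_06f097_h43.HB3
import Pool.Agent.W_06f097_h43.CA5

/-! Holomorphic maps from `G` to a Hilbert space, and the Levi form of the square of the norm. -/

open scoped Topology ContDiff
open MeasureTheory Set Filter Metric

noncomputable section

namespace HR

namespace CLG

variable {n : ℕ} {G : Type*} [Group G] [TopologicalSpace G] [IsTopologicalGroup G] (C : CLG n G)

section general

variable {H : Type*} [NormedAddCommGroup H] [NormedSpace ℂ H]

/-- holomorphic maps into a complex normed space -/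
def HolV (F : G → H) : Prop := ∀ x, DifferentiableAt ℂ (fun z => F (x * C.ψ z)) 0

theorem holV_differentiableOn {f : G → H} (hf : C.HolV f) (x : G) :
    DifferentiableOn ℂ (C.co f x) (ball 0 C.r) := by
  intro z₀ hz
  apply DifferentiableAt.differentiableWithinAt
  refine DifferentiableAt.congr_of_eventuallyEq ?_ (C.co_base f x hz)
  have hg : DifferentiableAt ℂ (fun z => C.ψ.symm ((C.ψ z₀)⁻¹ * C.ψ z)) z₀ :=
    (C.base_smooth z₀ hz).differentiableAt (by simp)
  have hf' : DifferentiableAt ℂ (C.co f (x * C.ψ z₀)) (C.ψ.symm ((C.ψ z₀)⁻¹ * C.ψ z₀)) := by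
    rw [C.base_zero hz]; exact hf _
  exact DifferentiableAt.comp (g := C.co f (x * C.ψ z₀)) z₀ hf' hg

theorem holV_const (c : H) : C.HolV (fun _ : G => c) := fun _ => by
  simpa using differentiableAt_const c

end general

section complete

variable {H : Type*} [NormedAddCommGroup H] [NormedSpace ℂ H] [CompleteSpace H]

theorem holV_contDiffOn {f : G → H} (hf : C.HolV f) (x : G) :
    ContDiffOn ℂ ∞ (C.co f x) (ball 0 C.r) :=
  contDiffOn_of_differentiableOn isOpen_ball (C.holV_differentiableOn hf x)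

theorem holV_sm {f : G → H} (hf : C.HolV f) : C.Sm f := by
  intro x
  have h : ContDiffAt ℂ ∞ (C.co f x) 0 :=
    (C.holV_contDiffOn hf x).contDiffAt (ball_mem_nhds (0 : En n) C.r_pos)
  exact h.restrict_scalars ℝ

theorem holV_D_eq {f : G → H} (hf : C.HolV f) (x : G) (v : En n) :
    C.D f x v = fderiv ℂ (C.co f x) 0 v := by
  have h : DifferentiableAt ℂ (C.co f x) 0 := hf x
  rw [D, (h.hasFDerivAt.restrictScalars ℝ).fderiv]
  rfl

theorem holV_D_smul {f : G → H} (hf : C.HolV f) (x : G) (c : ℂ) (v : En n) :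
    C.D f x (c • v) = c • C.D f x v := by
  rw [C.holV_D_eq hf, C.holV_D_eq hf, map_smul]

theorem holV_D_eq' {f : G → H} (hf : C.HolV f) (x : G) {z : En n} (hz : z ∈ ball (0 : En n) C.r)
    (v : En n) : fderiv ℂ (C.co f (x * C.ψ z)) 0 v = fderiv ℂ (C.co f x) z (C.CA4_vec z v) := by
  have h0 := C.co_base' f x hz
  have h1 : HasFDerivAt (C.co f x) (fderiv ℂ (C.co f x) z) (C.CA4_mu (z, 0)) := by
    rw [C.CA4_mu_left hz]
    exact (((C.holV_contDiffOn hf x).contDiffAt (isOpen_ball.mem_nhds hz)).differentiableAt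
      (by simp)).hasFDerivAt
  have h3 := HasFDerivAt.comp (0 : En n) h1 (C.CA4_slice hz)
  have h4 : HasFDerivAt (C.co f (x * C.ψ z)) _ 0 := h3.congr_of_eventuallyEq h0
  rw [h4.fderiv]
  rfl

theorem holV_D {f : G → H} (hf : C.HolV f) (v : En n) : C.HolV (fun x => C.D f x v) := by
  intro x
  have h1 : (fun z => C.D f (x * C.ψ z) v) =ᶠ[𝓝 0]
      fun z => fderiv ℂ (C.co f x) z (C.CA4_vec z v) := by
    filter_upwards [ball_mem_nhds (0 : En n) C.r_pos] with z hz
    rw [C.holV_D_eq hf, C.holV_D_eq' hf x hz]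
  apply DifferentiableAt.congr_of_eventuallyEq _ h1
  have h2 : ContDiffAt ℂ ∞ (fderiv ℂ (C.co f x)) 0 :=
    ((C.holV_contDiffOn hf x).contDiffAt (isOpen_ball.mem_nhds C.CA4_zero_mem)).fderiv_right
      (m := ∞) (by simp)
  exact (h2.differentiableAt (by simp)).clm_apply ((C.CA4_vec_smooth _).differentiableAt (by simp))

/-- local uniform limits of holomorphic maps -/
theorem holV_limit [LocallyCompactSpace G] {f : ℕ → G → H} {g : G → H}
    (hf : ∀ i, C.HolV (f i))
    (h : ∀ K : Set G, IsCompact K → TendstoUniformlyOn f g atTop K) : C.HolV g := by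
  intro x
  have h1 : TendstoLocallyUniformly f g atTop := by
    rw [tendstoLocallyUniformly_iff_forall_isCompact]
    exact h
  have h2 : TendstoLocallyUniformlyOn (fun i => C.co (f i) x) (C.co g x) atTop (ball 0 C.r) := by
    intro u hu z hz
    obtain ⟨t, ht, h3⟩ := h1 u hu (x * C.ψ z)
    have hc : ContinuousAt (fun z => x * C.ψ z) z :=
      continuousAt_const.mul (C.ψ.continuousAt (C.ball_sub hz))
    exact ⟨(fun z => x * C.ψ z) ⁻¹' t, mem_nhdsWithin_of_mem_nhds (hc.preimage_mem_nhds ht),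
      h3.mono fun i hi y hy => hi _ hy⟩
  have h3 := holo_limit isOpen_ball
    (Eventually.of_forall fun i => C.holV_differentiableOn (hf i) x) h2
  exact (h3.1).differentiableAt (ball_mem_nhds (0 : En n) C.r_pos)

end complete

section inner

variable {H : Type*} [NormedAddCommGroup H] [InnerProductSpace ℂ H] [CompleteSpace H]

theorem D_inner {A B : G → H} (hA : C.Sm A) (hB : C.Sm B) (x : G) (v : En n) :
    C.D (fun y => inner ℂ (A y) (B y)) x v =
      inner ℂ (A x) (C.D B x v) + inner ℂ (C.D A x v) (B x) := by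
  have h1 : DifferentiableAt ℝ (C.co A x) 0 := (hA x).differentiableAt (by simp)
  have h2 : DifferentiableAt ℝ (C.co B x) 0 := (hB x).differentiableAt (by simp)
  have h3 := fderiv_inner_apply ℂ h1 h2 v
  have e1 : C.co A x 0 = A x := by simp only [co]; rw [C.map_zero, mul_one]
  have e2 : C.co B x 0 = B x := by simp only [co]; rw [C.map_zero, mul_one]
  rw [e1, e2] at h3
  exact h3

theorem X_inner {A B : G → H} (hA : C.HolV A) (hB : C.HolV B) (j : Fin n) (x : G) :
    C.X j (fun y => inner ℂ (A y) (B y)) x = inner ℂ (A x) (C.D B x (Pi.single j 1)) := by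
  rw [X, CA4_single, C.D_inner (C.holV_sm hA) (C.holV_sm hB), C.D_inner (C.holV_sm hA) (C.holV_sm hB),
    C.holV_D_smul hA, C.holV_D_smul hB, inner_smul_left, inner_smul_right, Complex.conj_I]
  have hI := Complex.I_mul_I
  linear_combination (-(1 / 2 : ℂ) * inner ℂ (A x) (C.D B x (Pi.single j 1)) +
    (1 / 2 : ℂ) * inner ℂ (C.D A x (Pi.single j 1)) (B x)) * hI

theorem Xb_inner {A B : G → H} (hA : C.HolV A) (hB : C.HolV B) (j : Fin n) (x : G) :
    C.Xb j (fun y => inner ℂ (A y) (B y)) x = inner ℂ (C.D A x (Pi.single j 1)) (B x) := by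
  rw [Xb, CA4_single, C.D_inner (C.holV_sm hA) (C.holV_sm hB), C.D_inner (C.holV_sm hA) (C.holV_sm hB),
    C.holV_D_smul hA, C.holV_D_smul hB, inner_smul_left, inner_smul_right, Complex.conj_I]
  have hI := Complex.I_mul_I
  linear_combination ((1 / 2 : ℂ) * inner ℂ (A x) (C.D B x (Pi.single j 1)) -
    (1 / 2 : ℂ) * inner ℂ (C.D A x (Pi.single j 1)) (B x)) * hI

omit [IsTopologicalGroup G] [CompleteSpace H] in
theorem sq_inner (F : G → H) : (fun y => ((‖F y‖ ^ 2 : ℝ) : ℂ)) = fun y => inner ℂ (F y) (F y) := by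
  funext y
  rw [inner_self_eq_norm_sq_to_K]
  simp

theorem holV_sm_sq {F : G → H} (hF : C.HolV F) : C.Sm (fun y => ((‖F y‖ ^ 2 : ℝ) : ℂ)) := by
  rw [sm_ofReal]
  intro x
  exact ContDiffAt.norm_sq ℂ (C.holV_sm hF x)

theorem holV_Lv {F : G → H} (hF : C.HolV F) (x : G) (b : En n) :
    C.Lv (fun y => ‖F y‖ ^ 2) x b = ‖∑ j, b j • C.D F x (Pi.single j 1)‖ ^ 2 := by
  have h1 : ∀ k, C.Xb k (fun y => ((‖F y‖ ^ 2 : ℝ) : ℂ)) =
      fun y => inner ℂ (C.D F y (Pi.single k 1)) (F y) := by
    intro k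
    funext y
    rw [sq_inner, C.Xb_inner hF hF]
  have h2 : ∀ j k, C.X j (C.Xb k (fun y => ((‖F y‖ ^ 2 : ℝ) : ℂ))) x =
      inner ℂ (C.D F x (Pi.single k 1)) (C.D F x (Pi.single j 1)) := by
    intro j k
    rw [h1, C.X_inner (C.holV_D hF _) hF]
  have h3 : (∑ j, ∑ k, b j * (starRingEnd ℂ) (b k) *
      C.X j (C.Xb k (fun y => ((‖F y‖ ^ 2 : ℝ) : ℂ))) x) =
      inner ℂ (∑ j, b j • C.D F x (Pi.single j 1)) (∑ j, b j • C.D F x (Pi.single j 1)) := by
    rw [inner_sum]
    refine Finset.sum_congr rfl fun j _ => ?_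
    rw [sum_inner]
    refine Finset.sum_congr rfl fun k _ => ?_
    rw [h2, inner_smul_left, inner_smul_right]
    ring
  rw [Lv, h3]
  have h4 := inner_self_eq_norm_sq (𝕜 := ℂ) (∑ j, b j • C.D F x (Pi.single j 1))
  exact h4

theorem X_inner_const {F : G → H} (hF : C.HolV F) (a : H) (j : Fin n) (x : G) :
    C.X j (fun y => inner ℂ a (F y)) x = inner ℂ a (C.D F x (Pi.single j 1)) :=
  C.X_inner (A := fun _ => a) (C.holV_const a) hF j x

end inner

end CLG

end HR
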