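import Pool.Agent.W_06f097_h35.KA
import Pool.Agent.W_06f097_h35.KB
import Pool.Agent.W_06f097_h43.HP2
import Pool.Agent.W_06f097_h43.ME2

/-! The square of the norm of the evaluation functional of a weighted Hilbert space of holomorphic
functions is smooth; its Levi form. -/

open scoped Topology ContDiff Pointwise
open MeasureTheory Set Filter Metric

noncomputable section

namespace HR

/-- the Hilbert space of square summable sequences -/
abbrev L2s := lp (fun _ : ℕ => ℂ) 2

/-- square summable sequences -/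
def mkL2 (a : ℕ → ℂ) (h : Summable fun j => ‖a j‖ ^ 2) : L2s :=
  ⟨a, memℓp_gen (by simpa using h)⟩

theorem mkL2_apply (a : ℕ → ℂ) (h : Summable fun j => ‖a j‖ ^ 2) (j : ℕ) : mkL2 a h j = a j := rfl

theorem L2s_norm_sq (f : L2s) : ‖f‖ ^ 2 = ∑' j, ‖f j‖ ^ 2 := by
  have h := lp.norm_rpow_eq_tsum (p := 2) (by norm_num) f
  simpa using h

theorem L2s_summable (f : L2s) : Summable fun j => ‖f j‖ ^ 2 := by
  have h := (lp.memℓp f).summable (by norm_num)
  simpa using h

theorem L2s_trunc (a : ℕ → ℂ) (J j : ℕ) :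
    (∑ i ∈ Finset.range J, a i • (lp.single 2 i (1 : ℂ) : L2s)) j = if j < J then a j else 0 := by
  rw [lp.coeFn_sum, Finset.sum_apply]
  have h1 : ∀ i ∈ Finset.range J, (a i • (lp.single 2 i (1 : ℂ) : L2s)) j =
      if j = i then a j else 0 := by
    intro i _
    rw [lp.coeFn_smul, Pi.smul_apply, lp.single_apply]
    by_cases hij : j = i
    · subst hij
      simp
    · rw [Pi.single_eq_of_ne hij, if_neg hij, smul_zero]
  rw [Finset.sum_congr rfl h1, Finset.sum_ite_eq]
  simp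

theorem L2s_tail (a : ℕ → ℂ) (h : Summable fun j => ‖a j‖ ^ 2) {b : ℕ → ℝ} (hb : Summable b)
    (hab : ∀ j, ‖a j‖ ^ 2 ≤ b j) (J : ℕ) :
    ‖mkL2 a h - ∑ i ∈ Finset.range J, a i • (lp.single 2 i (1 : ℂ) : L2s)‖ ^ 2 ≤
      ∑' j, b (j + J) := by
  obtain ⟨v, hv⟩ : ∃ v : L2s, v = mkL2 a h -
    ∑ i ∈ Finset.range J, a i • (lp.single 2 i (1 : ℂ) : L2s) := ⟨_, rfl⟩
  have h1 : ∀ j, v j = if j < J then 0 else a j := by
    intro j
    rw [hv, lp.coeFn_sub, Pi.sub_apply, L2s_trunc, mkL2_apply]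
    split_ifs <;> simp
  rw [← hv, L2s_norm_sq, ← (L2s_summable v).sum_add_tsum_nat_add J]
  have h2 : ∑ j ∈ Finset.range J, ‖v j‖ ^ 2 = 0 := by
    refine Finset.sum_eq_zero fun j hj => ?_
    rw [h1, if_pos (Finset.mem_range.1 hj)]
    simp
  rw [h2, zero_add]
  refine ((summable_nat_add_iff J).2 (L2s_summable v)).tsum_le_tsum (fun j => ?_)
    ((summable_nat_add_iff J).2 hb)
  rw [h1, if_neg (by omega)]
  exact hab _

namespace CLG

section E

variable {n : ℕ} {G : Type*} [Group G] [TopologicalSpace G] [IsTopologicalGroup G] (C : CLG n G)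

theorem holV_L2 [LocallyCompactSpace G] {e : ℕ → G → ℂ} (he : ∀ j, C.Hol (e j))
    (hs : ∀ x, Summable fun j => ‖e j x‖ ^ 2)
    (ha : ∀ K : Set G, IsCompact K → ∃ a : ℕ → ℝ, Summable a ∧ ∀ j, ∀ x ∈ K, ‖e j x‖ ^ 2 ≤ a j) :
    C.HolV (fun x => mkL2 (fun j => e j x) (hs x)) := by
  refine C.holV_limit (f := fun J x => ∑ i ∈ Finset.range J, e i x • (lp.single 2 i (1 : ℂ) : L2s))
    ?_ ?_
  · intro J x
    refine DifferentiableAt.fun_sum fun i _ => ?_
    exact (he i x).smul_const _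
  · intro K hK
    obtain ⟨a, ha1, ha2⟩ := ha K hK
    have h1 := tendsto_sum_nat_add a
    rw [Metric.tendstoUniformlyOn_iff]
    intro ε hε
    have h2 : ∀ᶠ J in atTop, ∑' j, a (j + J) < ε ^ 2 :=
      (tendsto_order.1 h1).2 _ (by positivity)
    filter_upwards [h2] with J hJ x hx
    rw [dist_eq_norm]
    have h3 := L2s_tail (fun j => e j x) (hs x) ha1 (fun j => ha2 j x hx) J
    exact lt_of_pow_lt_pow_left₀ 2 hε.le (h3.trans_lt hJ)

end E

variable {n : ℕ} {G : Type*} [Group G] [TopologicalSpace G] [IsTopologicalGroup G] [T2Space G]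
  [LocallyCompactSpace G] [SecondCountableTopology G] [MeasurableSpace G] [BorelSpace G]
  (C : CLG n G) (μ : Measure G) [μ.IsHaarMeasure]

variable {μ} in
private theorem kc_smv {V : Set G} {K : Set G} (hK : IsCompact K)
    (hVc : IsCompact V) {c : ℝ} (hc : 0 < c)
    (hs : ∀ f : G → ℂ, C.Hol f → ∀ x, ‖f x‖ ^ 2 ≤ c * ∫ y in V, ‖f (x * y)‖ ^ 2 ∂μ)
    {f : G → ℂ} (hf : C.Hol f) {x : G} (hx : x ∈ K) :
    ‖f x‖ ^ 2 ≤ c * ∫ y in K * V, ‖f y‖ ^ 2 ∂μ := by
  refine (hs f hf x).trans ?_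
  refine mul_le_mul_of_nonneg_left ?_ hc.le
  have hVm := hVc.isClosed.measurableSet
  have hKV : IsCompact (K * V) := hK.mul hVc
  have e1 : ∫ y in V, ‖f (x * y)‖ ^ 2 ∂μ
      = ∫ y, V.indicator (fun z => ‖f (x * z)‖ ^ 2) (x⁻¹ * y) ∂μ := by
    rw [integral_mul_left_eq_self (fun y => V.indicator (fun z => ‖f (x * z)‖ ^ 2) y) x⁻¹,
      integral_indicator hVm]
  rw [e1, ← integral_indicator hKV.isClosed.measurableSet]
  refine integral_mono_of_nonneg (Eventually.of_forall fun y => ?_) ?_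
    (Eventually.of_forall fun y => ?_)
  · exact indicator_nonneg (fun _ _ => by positivity) _
  · rw [integrable_indicator_iff hKV.isClosed.measurableSet]
    exact ((C.hol_continuous hf).norm.pow 2).continuousOn.integrableOn_compact hKV
  · show V.indicator (fun z => ‖f (x * z)‖ ^ 2) (x⁻¹ * y)
      ≤ (K * V).indicator (fun y => ‖f y‖ ^ 2) y
    by_cases hy : x⁻¹ * y ∈ V
    · have hy2 : y ∈ K * V := ⟨x, hx, x⁻¹ * y, hy, by simp⟩
      rw [indicator_of_mem hy, indicator_of_mem hy2]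
      simp
    · rw [indicator_of_notMem hy]
      exact indicator_nonneg (fun _ _ => by positivity) _

/-- The square of the norm of the evaluation functional at `x` of the weighted Hilbert space. -/
theorem exists_kernel {W : G → ℝ} (hW : AdmW W) : ∃ s : G → ℝ,
    C.Sm (fun y => (s y : ℂ)) ∧ (∀ x, 0 ≤ s x) ∧
    (∀ f, C.MemH μ W f → ∀ x, ‖f x‖ ^ 2 ≤ s x * nH μ W f) ∧
    (∀ x (b : En n), 0 ≤ C.Lv s x b) ∧
    ∀ f, C.MemH μ W f → ∀ x (b : En n),
      ‖∑ k, b k * C.X k f x‖ ^ 2 ≤ nH μ W f * C.Lv s x b := by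
  obtain ⟨e, he1, he2, he3, he4, he5, he6⟩ := C.exists_onb μ hW {f | C.MemH μ W f}
    (fun g hg => hg)
    (by
      refine ⟨C.hol_const 0, ?_⟩
      simp)
    (fun f hf g hg => C.memH_add μ hW hf hg) (fun t f hf => C.memH_smul μ hW hf t)
    (fun u g _ hg _ => hg)
  have hbound : ∀ K : Set G, IsCompact K → ∃ a : ℕ → ℝ, Summable a ∧
      ∀ j, ∀ x ∈ K, ‖e j x‖ ^ 2 ≤ a j := by
    intro K hK
    obtain ⟨V, hVc, hV⟩ := exists_compact_mem_nhds (1 : G)
    obtain ⟨c, hc, hsv⟩ := C.smv μ hV hVc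
    have hKV : IsCompact (K * V) := hK.mul hVc
    obtain ⟨c', hc', hev⟩ := C.memH_eval μ hW hKV
    refine ⟨fun j => c * ∫ y in K * V, ‖e j y‖ ^ 2 ∂μ, ?_, fun j x hx =>
      C.kc_smv hK hVc hc hsv (he1 j).1 hx⟩
    refine Summable.mul_left c ?_
    have hi : ∀ j, IntegrableOn (fun y => ‖e j y‖ ^ 2) (K * V) μ := fun j =>
      ((C.hol_continuous (he1 j).1).norm.pow 2).continuousOn.integrableOn_compact hKV
    refine summable_of_sum_range_le (c := ∫ _ in K * V, c' ∂μ)
      (fun j => integral_nonneg fun y => by positivity) fun J => ?_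
    rw [← integral_finset_sum _ fun j _ => hi j]
    refine setIntegral_mono_on (integrable_finset_sum _ fun j _ => hi j)
      (integrableOn_const hKV.measure_lt_top.ne) hKV.measurableSet fun y hy => ?_
    refine ((he4 y).sum_le_tsum _ (fun j _ => by positivity)).trans ?_
    exact he6 y c' hc'.le fun g hg => hev g hg y hy
  obtain ⟨E, hE⟩ : ∃ E : G → L2s, E = fun x => mkL2 (fun j => e j x) (he4 x) := ⟨_, rfl⟩
  have hEh : C.HolV E := by
    rw [hE]
    exact C.holV_L2 (fun j => (he1 j).1) he4 hbound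
  have hEn : ∀ x, ‖E x‖ ^ 2 = ∑' j, ‖e j x‖ ^ 2 := by
    intro x
    rw [L2s_norm_sq, hE]
    rfl
  refine ⟨fun x => ‖E x‖ ^ 2, C.holV_sm_sq hEh, fun x => by positivity, fun f hf x => ?_, ?_, ?_⟩
  · simp only
    rw [hEn]
    exact he5 x f hf
  · intro x b
    rw [C.holV_Lv hEh]
    positivity
  · intro f hf x b
    obtain ⟨h1, h2, h3⟩ := he3 f hf
    obtain ⟨α, hα⟩ : ∃ α : ℕ → ℂ, α = fun j =>
      ∫ x, f x * (starRingEnd ℂ) (e j x) / (W x : ℂ) ∂μ := ⟨_, rfl⟩
    have hα' : ∀ j, ∫ x, f x * (starRingEnd ℂ) (e j x) / (W x : ℂ) ∂μ = α j := fun j => by rw [hα]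
    simp only [hα'] at h1 h2 h3
    have hA : Summable fun j => ‖(starRingEnd ℂ) (α j)‖ ^ 2 := by
      simpa only [RCLike.norm_conj] using h1
    obtain ⟨A, hAdef⟩ : ∃ A : L2s, A = mkL2 (fun j => (starRingEnd ℂ) (α j)) hA := ⟨_, rfl⟩
    have hAn : ‖A‖ ^ 2 = nH μ W f := by
      rw [L2s_norm_sq, ← h2, hAdef]
      refine tsum_congr fun j => ?_
      rw [mkL2_apply, RCLike.norm_conj]
    -- pointwise expansion
    have hfx : ∀ y, f y = inner ℂ A (E y) := by
      intro y
      have h4 : HasSum (fun j => α j * e j y) (inner ℂ A (E y)) := by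
        have h5 := lp.hasSum_inner (𝕜 := ℂ) A (E y)
        have h5' : (fun j => inner ℂ (A j) (E y j)) = fun j => α j * e j y := by
          funext j
          rw [hAdef, hE]
          simp only [mkL2_apply]
          rw [RCLike.inner_apply, RCLike.conj_conj, mul_comm]
        rwa [h5'] at h5
      have h6 : Tendsto (fun J => ∑ j ∈ Finset.range J, α j * e j y) atTop
          (𝓝 (inner ℂ A (E y))) := h4.tendsto_sum_nat
      have h7 : Tendsto (fun J => ∑ j ∈ Finset.range J, α j * e j y) atTop (𝓝 (f y)) := by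
        rw [tendsto_iff_norm_sub_tendsto_zero]
        have h8 : ∀ J, ‖(∑ j ∈ Finset.range J, α j * e j y) - f y‖ ^ 2 ≤
            (∑' j, ‖e j y‖ ^ 2) * nH μ W (fun z => f z - ∑ j ∈ Finset.range J, α j * e j z) := by
          intro J
          rw [norm_sub_rev]
          refine he5 y (fun z => f z - ∑ j ∈ Finset.range J, α j * e j z) ?_
          refine C.memH_sub μ hW hf ?_
          induction J with
          | zero =>
            refine ⟨by simpa using C.hol_const 0, ?_⟩
            simp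
          | succ J ih =>
            simp only [Finset.sum_range_succ]
            exact C.memH_add μ hW ih (C.memH_smul μ hW (he1 J) (α J))
        have h9 : Tendsto (fun J => Real.sqrt ((∑' j, ‖e j y‖ ^ 2) *
            nH μ W (fun z => f z - ∑ j ∈ Finset.range J, α j * e j z))) atTop (𝓝 0) := by
          have h10 := (h3.const_mul (∑' j, ‖e j y‖ ^ 2)).sqrt
          rwa [mul_zero, Real.sqrt_zero] at h10
        refine squeeze_zero (fun J => norm_nonneg _) (fun J => ?_) h9
        exact Real.le_sqrt_of_sq_le (h8 J)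
      exact tendsto_nhds_unique h7 h6
    have hfe : f = fun y => inner ℂ A (E y) := funext hfx
    have hX : ∀ k, C.X k f x = inner ℂ A (C.D E x (Pi.single k 1)) := by
      intro k
      rw [hfe]
      exact C.X_inner_const hEh A k x
    have hsum : ∑ k, b k * C.X k f x = inner ℂ A (∑ k, b k • C.D E x (Pi.single k 1)) := by
      rw [inner_sum]
      refine Finset.sum_congr rfl fun k _ => ?_
      rw [hX, inner_smul_right]
    rw [hsum, C.holV_Lv hEh, ← hAn, ← mul_pow]
    gcongr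
    exact norm_inner_le_norm _ _

end CLG

end HR
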