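import Pool.Agent.W_06f097_h35.KC
import Pool.Agent.W_06f097_h43.ST1

/-! Existence of a function `s` with the properties `Kah` from the separation of tangent vectors by
functions of exponential growth. -/

open scoped Topology ContDiff Pointwise
open MeasureTheory Set Filter Metric

noncomputable section

namespace HR

variable {n : ℕ} {G : Type*} [Group G] [TopologicalSpace G] [IsTopologicalGroup G] [T2Space G]
  [LocallyCompactSpace G] [SecondCountableTopology G] [MeasurableSpace G] [BorelSpace G]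
  (C : CLG n G) (μ : Measure G) [μ.IsHaarMeasure] {l : G → ℝ} (hl : Len μ l)

omit [T2Space G] [LocallyCompactSpace G] [SecondCountableTopology G] [BorelSpace G]
  [μ.IsHaarMeasure] in
private theorem kd_common (f : Fin n → Aexp C hl) : ∃ M R : ℝ, 1 ≤ M ∧ 0 ≤ R ∧
    ∀ i x, ‖(f i : G → ℂ) x‖ ≤ M * Real.exp (R * l x) := by
  have h : ∀ i, ∃ M R : ℝ, 0 ≤ M ∧ 0 ≤ R ∧ ∀ x, ‖(f i : G → ℂ) x‖ ≤ M * Real.exp (R * l x) :=
    fun i => (f i).2.2
  choose M R hM hR hb using h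
  refine ⟨1 + ∑ i, M i, ∑ i, R i, ?_, Finset.sum_nonneg fun i _ => hR i, fun i x => ?_⟩
  · have := Finset.sum_nonneg (s := Finset.univ) fun i _ => hM i
    linarith
  · refine (hb i x).trans ?_
    have h1 : M i ≤ 1 + ∑ i, M i := by
      have := Finset.single_le_sum (f := M) (fun i _ => hM i) (Finset.mem_univ i)
      linarith
    have h2 : R i ≤ ∑ i, R i := Finset.single_le_sum (f := R) (fun i _ => hR i) (Finset.mem_univ i)
    have h3 := hl.nonneg x
    have h4 : Real.exp (R i * l x) ≤ Real.exp ((∑ i, R i) * l x) :=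
      Real.exp_le_exp.2 (mul_le_mul_of_nonneg_right h2 h3)
    exact mul_le_mul h1 h4 (Real.exp_pos _).le ((hM i).trans h1)

theorem exists_kah (hsep : ∀ v : En n, v ≠ 0 → ∃ f : Aexp C hl, C.D (f : G → ℂ) 1 v ≠ 0) :
    ∃ s : G → ℝ, C.Kah s := by
  obtain ⟨f, -, hf1⟩ := exists_coord C μ hl hsep
  obtain ⟨M, R, hM, hR, hfb⟩ := kd_common C μ hl f
  obtain ⟨R', B, hRR', hB, hgr⟩ := gr_memH C μ hl R hR
  have hR' : 0 ≤ R' := hR.trans hRR'
  obtain ⟨s, hs1, hs2, hs3, hs4, hs5⟩ := C.exists_kernel μ (ew_adm μ hl R' hR')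
  -- `om` is controlled by `s`
  have hom : ∀ x, om C hl R x ^ 2 ≤ B * s x := by
    intro x
    have h0 : 0 ≤ B * s x := mul_nonneg hB (hs2 x)
    have h1 : om C hl R x ≤ Real.sqrt (B * s x) := by
      refine Real.sSup_le ?_ (Real.sqrt_nonneg _)
      rintro t ⟨g, hg, rfl⟩
      apply Real.le_sqrt_of_sq_le
      obtain ⟨h2, h3⟩ := hgr g g.2.1 hg
      calc ‖(g : G → ℂ) x‖ ^ 2 ≤ s x * nH μ (ew l R') (g : G → ℂ) := hs3 _ h2 x
        _ ≤ s x * B := mul_le_mul_of_nonneg_left h3 (hs2 x)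
        _ = B * s x := mul_comm _ _
    have h2 : 0 ≤ om C hl R x := zero_le_one.trans (one_le_om C μ hl hR x)
    calc om C hl R x ^ 2 ≤ Real.sqrt (B * s x) ^ 2 := by gcongr
      _ = B * s x := Real.sq_sqrt h0
  -- lower bound of the Levi form
  have hlow1 : ∀ x (b : En n) i, ‖b i‖ ^ 2 ≤ M ^ 2 * (B * s x) * (B * C.Lv s x b) := by
    intro x b i
    obtain ⟨c, hc⟩ : ∃ c : ℝ, c = M * om C hl R x := ⟨_, rfl⟩
    have hom1 := one_le_om C μ hl hR x
    have hc1 : 0 < c := by rw [hc]; positivity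
    obtain ⟨g, hg⟩ : ∃ g : G → ℂ, g = fun y => ((c⁻¹ : ℝ) : ℂ) * (f i : G → ℂ) (x⁻¹ * y) := ⟨_, rfl⟩
    have hfl : C.Hol (fun y => (f i : G → ℂ) (x⁻¹ * y)) := C.hol_left (f i).2.1 x⁻¹
    have hgh : C.Hol g := by
      rw [hg]
      exact C.hol_mul (C.hol_const _) hfl
    have hgb : ∀ y, ‖g y‖ ≤ Real.exp (R * l y) := by
      intro y
      have h1 : ∀ z, ‖((((M⁻¹ : ℝ) : ℂ) • f i : Aexp C hl) : G → ℂ) z‖ ≤ Real.exp (R * l z) := by
        intro z
        have e : ((((M⁻¹ : ℝ) : ℂ) • f i : Aexp C hl) : G → ℂ) z =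
          ((M⁻¹ : ℝ) : ℂ) * (f i : G → ℂ) z := rfl
        rw [e, norm_mul, Complex.norm_real, Real.norm_eq_abs, abs_of_pos (by positivity),
          inv_mul_le_iff₀ (by positivity)]
        exact hfb i z
      have h2 := left_le C μ hl R hR x⁻¹ y _ h1
      have e : ((((M⁻¹ : ℝ) : ℂ) • f i : Aexp C hl) : G → ℂ) (x⁻¹ * y) =
          ((M⁻¹ : ℝ) : ℂ) * (f i : G → ℂ) (x⁻¹ * y) := rfl
      rw [e, norm_mul, Complex.norm_real, Real.norm_eq_abs, abs_of_pos (by positivity),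
        om_inv C μ hl R x, inv_mul_le_iff₀ (by positivity)] at h2
      rw [hg]
      simp only
      rw [norm_mul, Complex.norm_real, Real.norm_eq_abs, abs_of_pos (by positivity),
        inv_mul_le_iff₀ hc1, hc]
      linarith
    obtain ⟨h1, h2⟩ := hgr g hgh hgb
    have h3 := hs5 g h1 x b
    have h4 : ∀ k, C.X k g x = ((c⁻¹ : ℝ) : ℂ) * (if i = k then 1 else 0) := by
      intro k
      rw [hg, C.X_mul (C.sm_const _) (C.hol_sm hfl), C.X_const, zero_mul, zero_add,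
        C.X_left (f i : G → ℂ) x⁻¹ k x, inv_mul_cancel, hf1]
    have h5 : ∑ k, b k * C.X k g x = b i * ((c⁻¹ : ℝ) : ℂ) := by
      rw [Finset.sum_eq_single i]
      · rw [h4, if_pos rfl, mul_one]
      · intro k _ hk
        rw [h4, if_neg (Ne.symm hk), mul_zero, mul_zero]
      · intro h
        exact absurd (Finset.mem_univ i) h
    rw [h5, norm_mul, Complex.norm_real, Real.norm_eq_abs, abs_of_pos (by positivity), mul_pow] at h3
    have h6 : ‖b i‖ ^ 2 * c⁻¹ ^ 2 ≤ B * C.Lv s x b :=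
      h3.trans (mul_le_mul_of_nonneg_right h2 (hs4 x b))
    have h7 : ‖b i‖ ^ 2 ≤ c ^ 2 * (B * C.Lv s x b) := by
      have e : ‖b i‖ ^ 2 = c ^ 2 * (‖b i‖ ^ 2 * c⁻¹ ^ 2) := by
        field_simp
      rw [e]
      exact mul_le_mul_of_nonneg_left h6 (by positivity)
    refine h7.trans ?_
    have h8 : c ^ 2 ≤ M ^ 2 * (B * s x) := by
      rw [hc, mul_pow]
      exact mul_le_mul_of_nonneg_left (hom x) (by positivity)
    exact mul_le_mul_of_nonneg_right h8 (mul_nonneg hB (hs4 x b))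
  obtain ⟨K, hK⟩ : ∃ K : ℝ, K = n * (M ^ 2 * B * B) := ⟨_, rfl⟩
  have hK0 : 0 ≤ K := by rw [hK]; positivity
  have hlow : ∀ x (b : En n), ∑ i, ‖b i‖ ^ 2 ≤ K * s x * C.Lv s x b := by
    intro x b
    calc ∑ i, ‖b i‖ ^ 2 ≤ ∑ _i : Fin n, M ^ 2 * (B * s x) * (B * C.Lv s x b) :=
          Finset.sum_le_sum fun i _ => hlow1 x b i
      _ = K * s x * C.Lv s x b := by
          rw [Finset.sum_const, Finset.card_univ, Fintype.card_fin, nsmul_eq_mul, hK]
          ring
  obtain ⟨t, ht1, ht2, Bt, hBt, ht3⟩ := C.exists_slow μ hl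
  refine ⟨s, hs1, hs2, fun x b hb => ?_, t, ht1, ht2, fun R₁ => ?_⟩
  · have h1 : 0 < ∑ i, ‖b i‖ ^ 2 := by
      obtain ⟨i, hi⟩ : ∃ i, b i ≠ 0 := by
        by_contra h
        push Not at h
        exact hb (funext h)
      exact Finset.sum_pos' (fun j _ => by positivity) ⟨i, Finset.mem_univ i, by positivity⟩
    have h2 := h1.trans_le (hlow x b)
    have h3 := hs4 x b
    rcases h3.lt_or_eq with h4 | h4
    · exact h4
    · rw [← h4, mul_zero] at h2
      exact absurd h2 (lt_irrefl _)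
  · refine ⟨Bt * (K * max R₁ 0), by positivity, fun x hx b => ?_⟩
    calc ‖∑ k, b k * C.X k (fun y => (t y : ℂ)) x‖ ^ 2 ≤ Bt * ∑ j, ‖b j‖ ^ 2 := ht3 x b
      _ ≤ Bt * (K * s x * C.Lv s x b) := mul_le_mul_of_nonneg_left (hlow x b) hBt
      _ ≤ Bt * (K * max R₁ 0 * C.Lv s x b) := by
          have h1 : s x ≤ max R₁ 0 := hx.trans (le_max_left _ _)
          have h2 := hs4 x b
          gcongr
      _ = Bt * (K * max R₁ 0) * C.Lv s x b := by ring

end HR
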