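import Pool.Agent.W_06f097_h43.Public

/-! Public definition for MP_06f097_an (continuation of `W_06f097_h43.Public`). -/

open scoped Topology ContDiff Manifold
open Set Filter

noncomputable section

namespace HolRefl

variable (E : Type*) [NormedAddCommGroup E] [NormedSpace ℂ E]
variable (G : Type*) [TopologicalSpace G] [ChartedSpace E G] [Group G]

/-- The Arens-Michael envelope of `O_exp(G)` is its closure in `O(G)` (compact-open topology):
every continuous submultiplicative seminorm on `O_exp(G)` is dominated by a supremum over a compact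
set, the suprema over compact sets are continuous submultiplicative seminorms on `O_exp(G)`, and
(description of the closure) a holomorphic function is a limit of functions of `O_exp(G)`,
uniformly on compact sets, iff it takes equal values at any two points at which all functions of
`O_exp(G)` take equal values. -/
structure EnvelopeIsClosure : Prop where
  bound : ∀ p : Seminorm ℂ (Oexp E G), IsSubmul E p → IsCtsSeminorm E p →
    ∃ K : Set G, IsCompact K ∧ ∃ M : ℝ, 0 ≤ M ∧ ∀ (f : Oexp E G) (c : ℝ),
      (∀ x ∈ K, ‖(f : G → ℂ) x‖ ≤ c) → 0 ≤ c → p f ≤ M * c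
  sup : ∀ K : Set G, IsCompact K → ∃ p : Seminorm ℂ (Oexp E G), IsSubmul E p ∧
    IsCtsSeminorm E p ∧ ∀ f : Oexp E G, p f = ⨆ x : K, ‖(f : G → ℂ) x‖
  closure : ∀ f : G → ℂ, IsHol E f →
    ((∀ K : Set G, IsCompact K → ∀ ε : ℝ, 0 < ε → ∃ g : Oexp E G, ∀ x ∈ K,
        ‖f x - (g : G → ℂ) x‖ < ε) ↔
      ∀ x y : G, (∀ g : Oexp E G, (g : G → ℂ) x = (g : G → ℂ) y) → f x = f y)

end HolRefl
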