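import Pool.Agent.W_06f097_h43.Alg
import Pool.Agent.W_06f097_h43.CA4
import Pool.Agent.W_06f097_h43.CA5

/-! Normal form near the unit of the functions of exponential growth: in suitable coordinates they
only depend on `k` of the coordinates. -/

open scoped Topology ContDiff
open MeasureTheory Set Filter Metric

noncomputable section

namespace HR

section algebra

variable {n : ℕ} {G : Type*} [Group G] [TopologicalSpace G] [IsTopologicalGroup G]
  [MeasurableSpace G] (C : CLG n G) {μ : Measure G} {l : G → ℝ} (hl : Len μ l)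

/-- the differential at the unit -/
def dd1 : Aexp C hl →ₗ[ℂ] Module.Dual ℂ (En n) where
  toFun f := (fderiv ℂ (C.co (f : G → ℂ) 1) 0 : En n →ₗ[ℂ] ℂ)
  map_add' f g := by
    have hf : DifferentiableAt ℂ (C.co (f : G → ℂ) 1) 0 := f.2.1 1
    have hg : DifferentiableAt ℂ (C.co (g : G → ℂ) 1) 0 := g.2.1 1
    have h : fderiv ℂ (C.co ((f + g : Aexp C hl) : G → ℂ) 1) 0 =
        fderiv ℂ (C.co (f : G → ℂ) 1) 0 + fderiv ℂ (C.co (g : G → ℂ) 1) 0 := fderiv_add hf hg
    rw [h]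
    rfl
  map_smul' c f := by
    have hf : DifferentiableAt ℂ (C.co (f : G → ℂ) 1) 0 := f.2.1 1
    have h : fderiv ℂ (C.co ((c • f : Aexp C hl) : G → ℂ) 1) 0 =
        c • fderiv ℂ (C.co (f : G → ℂ) 1) 0 := fderiv_const_smul hf c
    rw [h]
    rfl

theorem dd1_apply (f : Aexp C hl) (v : En n) :
    dd1 C hl f v = fderiv ℂ (C.co (f : G → ℂ) 1) 0 v := rfl

/-- linear algebra: functions with independent differentials at the unit -/
theorem exists_lin : ∃ (k : ℕ) (f : Fin k → Aexp C hl) (A : En n →L[ℂ] En k) (L : En k →L[ℂ] En n),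
    (∀ i, (f i : G → ℂ) 1 = 0) ∧ (∀ v i, A v i = dd1 C hl (f i) v) ∧ (∀ w, A (L w) = w) ∧
    ∀ v, A v = 0 → ∀ g, dd1 C hl g v = 0 := by
  obtain ⟨W, hW⟩ : ∃ W, W = LinearMap.range (dd1 C hl) := ⟨_, rfl⟩
  have hWm : ∀ x ∈ W, ∃ f : Aexp C hl, dd1 C hl f = x := by
    intro x hx
    rw [hW] at hx
    exact hx
  let b := Module.finBasis ℂ W
  have hb : ∀ i, ∃ f : Aexp C hl, dd1 C hl f = (b i : Module.Dual ℂ (En n)) := fun i =>
    hWm _ (b i).2
  choose f₀ hf₀ using hb
  obtain ⟨f, hf⟩ : ∃ f : Fin (Module.finrank ℂ W) → Aexp C hl,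
    f = fun i => f₀ i - algebraMap ℂ (Aexp C hl) ((f₀ i : G → ℂ) 1) := ⟨_, rfl⟩
  have hconst : ∀ c : ℂ, dd1 C hl (algebraMap ℂ (Aexp C hl) c) = 0 := by
    intro c
    refine LinearMap.ext fun v => ?_
    rw [dd1_apply]
    have h : C.co ((algebraMap ℂ (Aexp C hl) c : Aexp C hl) : G → ℂ) 1 = fun _ => c := rfl
    rw [h]
    simp
  have hfd : ∀ i, dd1 C hl (f i) = (b i : Module.Dual ℂ (En n)) := by
    intro i
    rw [hf]
    simp only
    rw [map_sub, hconst, sub_zero, hf₀]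
  have hf1 : ∀ i, (f i : G → ℂ) 1 = 0 := by
    intro i
    rw [hf]
    exact sub_self _
  let A₀ : En n →ₗ[ℂ] En (Module.finrank ℂ W) :=
    LinearMap.pi fun i => (b i : Module.Dual ℂ (En n))
  have hA₀ : ∀ v i, A₀ v i = (b i : Module.Dual ℂ (En n)) v := fun v i => rfl
  have hsurj : Function.Surjective A₀ := by
    rw [← LinearMap.dualMap_injective_iff, injective_iff_map_eq_zero]
    intro φ hφ
    have h1 : ∀ v, ∑ i, φ (Pi.single i 1) * (b i : Module.Dual ℂ (En n)) v = 0 := by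
      intro v
      have h2 : (A₀.dualMap φ) v = 0 := by rw [hφ]; rfl
      rw [LinearMap.dualMap_apply] at h2
      have h3 : A₀ v = ∑ i, (b i : Module.Dual ℂ (En n)) v • (Pi.single i (1 : ℂ) : En _) := by
        ext j
        rw [Finset.sum_apply, Finset.sum_eq_single j]
        · rw [Pi.smul_apply, Pi.single_eq_same, smul_eq_mul, mul_one, hA₀]
        · intro i _ hij
          rw [Pi.smul_apply, Pi.single_eq_of_ne (Ne.symm hij), smul_zero]
        · intro h
          exact absurd (Finset.mem_univ j) h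
      rw [h3, map_sum] at h2
      simp only [map_smul, smul_eq_mul] at h2
      rw [← h2]
      exact Finset.sum_congr rfl fun i _ => mul_comm _ _
    have h4 : ∑ i, φ (Pi.single i 1) • b i = 0 := by
      apply Subtype.ext
      apply LinearMap.ext
      intro v
      have h5 := h1 v
      simp only [Submodule.coe_sum, Submodule.coe_smul, LinearMap.coe_sum, Finset.sum_apply,
        LinearMap.smul_apply, smul_eq_mul, Submodule.coe_zero, LinearMap.zero_apply]
      exact h5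
    have h6 := (Fintype.linearIndependent_iff.1 b.linearIndependent) _ h4
    apply LinearMap.pi_ext'
    intro i
    ext
    simpa using h6 i
  obtain ⟨L₀, hL₀⟩ := A₀.exists_rightInverse_of_surjective (LinearMap.range_eq_top.2 hsurj)
  refine ⟨Module.finrank ℂ W, f, LinearMap.toContinuousLinearMap A₀,
    LinearMap.toContinuousLinearMap L₀, hf1, fun v i => ?_, fun w => ?_, fun v hv g => ?_⟩
  · rw [hfd]
    rfl
  · have := congrArg (fun T => T w) hL₀
    exact this
  · have hg : dd1 C hl g ∈ W := by rw [hW]; exact ⟨g, rfl⟩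
    have h1 := b.sum_repr ⟨dd1 C hl g, hg⟩
    have h2 := congrArg (fun T : W => (T : Module.Dual ℂ (En n)) v) h1
    simp only [Submodule.coe_sum, Submodule.coe_smul, LinearMap.coe_sum, Finset.sum_apply,
      LinearMap.smul_apply, smul_eq_mul] at h2
    rw [← h2]
    refine Finset.sum_eq_zero fun i _ => ?_
    have h3 : (b i : Module.Dual ℂ (En n)) v = 0 := congrFun hv i
    rw [h3, mul_zero]

/-- the derivative at `ψ z` -/
private theorem qa_D (g : Aexp C hl) {z : En n} (hz : z ∈ ball (0 : En n) C.r) (v : En n) :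
    fderiv ℂ (C.co (g : G → ℂ) 1) z (C.CA4_vec z v) = dd1 C hl (Lt C hl (C.ψ z) g) v := by
  rw [← C.CA4_D_eq_hol g.2.1 1 hz v, dd1_apply]
  have e : C.co (g : G → ℂ) (1 * C.ψ z) = C.co (Lt C hl (C.ψ z) g : G → ℂ) 1 := by
    funext w
    have e2 : (Lt C hl (C.ψ z) g : G → ℂ) = fun y => (g : G → ℂ) (C.ψ z * y) := rfl
    rw [e2]
    simp only [CLG.co, one_mul]
  rw [e]

/-- the frame as an operator -/
def frm (z : En n) : En n →L[ℂ] En n :=
  (fderiv ℂ C.CA4_mu (z, 0)).comp (ContinuousLinearMap.inr ℂ (En n) (En n))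

theorem frm_apply (z v : En n) : frm C z v = C.CA4_vec z v := rfl

private theorem qa_frm_cont : ContinuousAt (frm C) 0 := by
  have h1 : ContDiffAt ℂ ∞ (fderiv ℂ C.CA4_mu) ((0 : En n), (0 : En n)) :=
    (C.CA4_mu_at (p := ((0 : En n), (0 : En n))) ⟨C.CA4_zero_mem, C.CA4_zero_mem⟩).fderiv_right
      (m := ∞) (by simp)
  have h2 : ContDiffAt ℂ ∞ (fun z : En n => ((z, 0) : En n × En n)) 0 :=
    contDiffAt_id.prodMk contDiffAt_const
  have h3 : ContDiffAt ℂ ∞ (fun z : En n => fderiv ℂ C.CA4_mu (z, 0)) 0 :=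
    ContDiffAt.comp (0 : En n) h1 h2
  exact (h3.clm_comp contDiffAt_const).continuousAt

private theorem qa_frm_zero : frm C 0 = 1 := by
  ext1 v
  rw [frm_apply, C.CA4_vec_zero]
  rfl

theorem exists_coords : ∃ (k : ℕ) (f : Fin k → Aexp C hl) (A : En n →L[ℂ] En k)
    (L : En k →L[ℂ] En n) (P : OpenPartialHomeomorph (En n) (En n)) (ρ : ℝ), 0 < ρ ∧
    (∀ i, (f i : G → ℂ) 1 = 0) ∧ (∀ w, A (L w) = w) ∧ P.source ⊆ ball (0 : En n) C.r ∧
    (0 : En n) ∈ P.source ∧ P 0 = 0 ∧ ball (0 : En n) ρ ⊆ P.target ∧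
    (∀ z ∈ ball (0 : En n) ρ, DifferentiableAt ℂ P.symm z) ∧
    (∀ z i, A (P z) i = (f i : G → ℂ) (C.ψ z)) ∧
    ∀ g : Aexp C hl, ∀ z ∈ ball (0 : En n) ρ, ∀ z' ∈ ball (0 : En n) ρ, A z = A z' →
      (g : G → ℂ) (C.ψ (P.symm z)) = (g : G → ℂ) (C.ψ (P.symm z')) := by
  obtain ⟨k, f, A, L, hf1, hA, hAL, hker⟩ := exists_lin C hl
  have h0r : (0 : En n) ∈ ball (0 : En n) C.r := mem_ball_self C.r_pos
  obtain ⟨u, hu⟩ : ∃ u : En n → En k, u = fun z i => C.co (f i : G → ℂ) 1 z := ⟨_, rfl⟩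
  have huf : ∀ z i, u z i = (f i : G → ℂ) (C.ψ z) := by
    intro z i
    rw [hu]
    simp only [CLG.co, one_mul]
  have hucd : ContDiffOn ℂ ∞ u (ball 0 C.r) := by
    rw [hu, contDiffOn_pi]
    exact fun i => C.hol_contDiffOn (f i).2.1 1
  have hud : ∀ z ∈ ball (0 : En n) C.r, DifferentiableAt ℂ u z := fun z hz =>
    (hucd.contDiffAt (isOpen_ball.mem_nhds hz)).differentiableAt (by simp)
  have hufd : ∀ z ∈ ball (0 : En n) C.r, ∀ ξ i, fderiv ℂ u z ξ i =
      fderiv ℂ (C.co (f i : G → ℂ) 1) z ξ := by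
    intro z hz ξ i
    have h1 : ∀ i, DifferentiableAt ℂ (fun z => C.co (f i : G → ℂ) 1 z) z := fun i =>
      ((C.hol_contDiffOn (f i).2.1 1).contDiffAt (isOpen_ball.mem_nhds hz)).differentiableAt
        (by simp)
    rw [hu, fderiv_pi h1]
    rfl
  have hu0 : u 0 = 0 := by
    funext i
    rw [huf, C.map_zero, hf1]
    rfl
  have huA : fderiv ℂ u 0 = A := by
    ext1 v
    funext i
    rw [hufd 0 h0r, hA, dd1_apply]
  -- the map `Φ`
  obtain ⟨Φ, hΦ⟩ : ∃ Φ : En n → En n, Φ = fun z => L (u z) + (z - L (A z)) := ⟨_, rfl⟩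
  have hAΦ : ∀ z, A (Φ z) = u z := by
    intro z
    rw [hΦ]
    simp only [map_add, map_sub, hAL]
    abel
  have hΦ0 : Φ 0 = 0 := by
    rw [hΦ]
    simp [hu0]
  have hΦcd : ContDiffAt ℂ 1 Φ 0 := by
    rw [hΦ]
    have h1 : ContDiffAt ℂ 1 u 0 :=
      (hucd.contDiffAt (isOpen_ball.mem_nhds h0r)).of_le (by exact_mod_cast le_top)
    have h2 : ContDiffAt ℂ 1 (fun z => L (u z)) 0 := L.contDiff.contDiffAt.comp 0 h1
    have h3 : ContDiffAt ℂ 1 (fun z => L (A z)) 0 :=
      (L.contDiff.comp A.contDiff).contDiffAt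
    exact h2.add (contDiffAt_id.sub h3)
  have hΦd : HasFDerivAt Φ ((ContinuousLinearEquiv.refl ℂ (En n) : En n ≃L[ℂ] En n) :
      En n →L[ℂ] En n) 0 := by
    have h1 : HasFDerivAt u A 0 := by
      rw [← huA]
      exact (hud 0 h0r).hasFDerivAt
    have h2 : HasFDerivAt (fun z => L (u z)) (L.comp A) 0 := L.hasFDerivAt.comp 0 h1
    have h3 : HasFDerivAt (fun z => L (A z)) (L.comp A) 0 := (L.comp A).hasFDerivAt
    have h4 := h2.add ((hasFDerivAt_id (𝕜 := ℂ) (0 : En n)).sub h3)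
    have h5 : L.comp A + (ContinuousLinearMap.id ℂ (En n) - L.comp A) =
        ((ContinuousLinearEquiv.refl ℂ (En n) : En n ≃L[ℂ] En n) : En n →L[ℂ] En n) := by
      ext1 v
      simp
    rw [hΦ, ← h5]
    exact h4
  obtain ⟨P₀, hP₀⟩ : ∃ P₀, P₀ = hΦcd.toOpenPartialHomeomorph Φ hΦd one_ne_zero := ⟨_, rfl⟩
  have hP₀c : (P₀ : En n → En n) = Φ := by rw [hP₀]; rfl
  have hP₀s : (0 : En n) ∈ P₀.source := by
    rw [hP₀]
    exact hΦcd.mem_toOpenPartialHomeomorph_source hΦd one_ne_zero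
  have hP₀t : (0 : En n) ∈ P₀.target := by
    have h1 := P₀.map_source hP₀s
    rwa [hP₀c, hΦ0] at h1
  have hP₀symm0 : P₀.symm 0 = 0 := by
    have h1 := P₀.left_inv hP₀s
    rwa [hP₀c, hΦ0] at h1
  have hsymcd : ContDiffAt ℂ 1 P₀.symm 0 := by
    refine P₀.contDiffAt_symm hP₀t (f₀' := ContinuousLinearEquiv.refl ℂ (En n)) ?_ ?_
    · rw [hP₀symm0, hP₀c]
      exact hΦd
    · rw [hP₀symm0, hP₀c]
      exact hΦcd
  have hsymd : ∀ᶠ z in 𝓝 (0 : En n), DifferentiableAt ℂ P₀.symm z := by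
    filter_upwards [hsymcd.eventually (by simp)] with z hz
    exact hz.differentiableAt (by simp)
  obtain ⟨P, hP⟩ : ∃ P, P = P₀.restrOpen (ball (0 : En n) C.r) isOpen_ball := ⟨_, rfl⟩
  have hPc : (P : En n → En n) = Φ := by rw [hP, ← hP₀c]; rfl
  have hPsym : (P.symm : En n → En n) = P₀.symm := by rw [hP]; rfl
  have hPs : P.source ⊆ ball (0 : En n) C.r := by
    rw [hP, OpenPartialHomeomorph.restrOpen_source]
    exact inter_subset_right
  have hP0 : (0 : En n) ∈ P.source := by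
    rw [hP, OpenPartialHomeomorph.restrOpen_source]
    exact ⟨hP₀s, h0r⟩
  have hPΦ0 : P 0 = 0 := by rw [hPc, hΦ0]
  have hPt : (0 : En n) ∈ P.target := by
    have h1 := P.map_source hP0
    rwa [hPΦ0] at h1
  have hPsym0 : P.symm 0 = 0 := by rw [hPsym, hP₀symm0]
  -- the good points
  have hfrmc : ContinuousAt (frm C) 0 := qa_frm_cont C
  obtain ⟨Mz, hMz⟩ : ∃ Mz : En n → (En k →L[ℂ] En k), Mz = fun z =>
    (fderiv ℂ u z).comp ((frm C z).comp L) := ⟨_, rfl⟩
  have hMc : ContinuousAt Mz 0 := by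
    have h1 : ContinuousAt (fderiv ℂ u) 0 :=
      ((hucd.contDiffAt (isOpen_ball.mem_nhds h0r)).fderiv_right (m := ∞) (by simp)).continuousAt
    rw [hMz]
    exact h1.clm_comp (hfrmc.clm_comp continuousAt_const)
  have hM0 : Mz 0 = 1 := by
    rw [hMz]
    simp only
    rw [huA, qa_frm_zero]
    ext1 w
    simp [hAL]
  have hgood : ∀ᶠ z in 𝓝 (0 : En n), z ∈ ball (0 : En n) C.r ∧ IsUnit (frm C z) ∧ IsUnit (Mz z) := by
    have h1 : ∀ᶠ z in 𝓝 (0 : En n), IsUnit (frm C z) := by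
      refine hfrmc.eventually (p := fun T => IsUnit T) ?_
      rw [qa_frm_zero]
      exact Units.isOpen.mem_nhds isUnit_one
    have h2 : ∀ᶠ z in 𝓝 (0 : En n), IsUnit (Mz z) := by
      refine hMc.eventually (p := fun T => IsUnit T) ?_
      rw [hM0]
      exact Units.isOpen.mem_nhds isUnit_one
    filter_upwards [isOpen_ball.mem_nhds h0r, h1, h2] with z a b c
    exact ⟨a, b, c⟩
  -- directions in the kernel
  have hdir : ∀ z, z ∈ ball (0 : En n) C.r → IsUnit (frm C z) → IsUnit (Mz z) → ∀ ξ,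
      fderiv ℂ u z ξ = 0 → ∀ g : Aexp C hl, fderiv ℂ (C.co (g : G → ℂ) 1) z ξ = 0 := by
    intro z hz hT hM ξ hξ g
    obtain ⟨T', hT'⟩ := hT.exists_right_inv
    have h1 : frm C z (T' ξ) = ξ := by
      have := congrArg (fun S : En n →L[ℂ] En n => S ξ) hT'
      exact this
    obtain ⟨η, hη⟩ : ∃ η, η = T' ξ := ⟨_, rfl⟩
    rw [← hη] at h1
    have hkz : ∀ v, A v = 0 → fderiv ℂ u z (frm C z v) = 0 := by
      intro v hv
      funext i
      rw [hufd z hz, frm_apply, qa_D C hl (f i) hz]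
      exact hker v hv _
    have h2 : A (η - L (A η)) = 0 := by rw [map_sub, hAL, sub_self]
    have h3 : Mz z (A η) = 0 := by
      have h4 : fderiv ℂ u z (frm C z η) = 0 := by rw [h1, hξ]
      have h5 : frm C z η = frm C z (L (A η)) + frm C z (η - L (A η)) := by
        rw [← map_add]
        congr 1
        abel
      rw [h5, map_add, hkz _ h2, add_zero] at h4
      rw [hMz]
      exact h4
    have h4 : A η = 0 := by
      obtain ⟨M', hM'⟩ := hM.exists_left_inv
      have h5 := congrArg (fun S : En k →L[ℂ] En k => S (A η)) hM'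
      have h6 : M' (Mz z (A η)) = A η := h5
      rw [← h6, h3, map_zero]
    rw [← h1, frm_apply, qa_D C hl g hz]
    exact hker η h4 _
  -- choice of the radius
  have hPsymc : ContinuousAt P.symm 0 := by
    rw [hPsym]
    exact hsymcd.continuousAt
  have hev : ∀ᶠ z in 𝓝 (0 : En n), z ∈ P.target ∧ DifferentiableAt ℂ P.symm z ∧
      P.symm z ∈ ball (0 : En n) C.r ∧ IsUnit (frm C (P.symm z)) ∧ IsUnit (Mz (P.symm z)) := by
    have h1 : ∀ᶠ z in 𝓝 (0 : En n), P.symm z ∈ ball (0 : En n) C.r ∧ IsUnit (frm C (P.symm z)) ∧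
        IsUnit (Mz (P.symm z)) := by
      refine hPsymc.eventually (p := fun z => z ∈ ball (0 : En n) C.r ∧ IsUnit (frm C z) ∧
        IsUnit (Mz z)) ?_
      rw [hPsym0]
      exact hgood
    filter_upwards [P.open_target.mem_nhds hPt, hsymd, h1] with z a b c
    rw [← hPsym] at b
    exact ⟨a, b, c.1, c.2.1, c.2.2⟩
  obtain ⟨ρ, hρ, hball⟩ := Metric.eventually_nhds_iff_ball.1 hev
  refine ⟨k, f, A, L, P, ρ, hρ, hf1, hAL, hPs, hP0, hPΦ0, fun z hz => (hball z hz).1,
    fun z hz => (hball z hz).2.1, fun z i => ?_, ?_⟩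
  · rw [hPc, hAΦ, huf]
  · intro g z hz z' hz' hzz
    obtain ⟨v, hv⟩ : ∃ v, v = z' - z := ⟨_, rfl⟩
    have hAv : A v = 0 := by rw [hv, map_sub, hzz, sub_self]
    have hseg : ∀ t ∈ Icc (0 : ℝ) 1, z + (t : ℂ) • v ∈ ball (0 : En n) ρ := by
      intro t ht
      have h1 := (convex_ball (0 : En n) ρ).add_smul_sub_mem hz hz' ht
      rw [← hv] at h1
      have e : (t : ℂ) • v = t • v := Complex.coe_smul t v
      rw [e]
      exact h1
    have hder : ∀ y ∈ ball (0 : En n) ρ, HasFDerivAt (fun y => (g : G → ℂ) (C.ψ (P.symm y)))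
        ((fderiv ℂ (C.co (g : G → ℂ) 1) (P.symm y)).comp (fderiv ℂ P.symm y)) y := by
      intro y hy
      obtain ⟨b1, b2, b3, -, -⟩ := hball y hy
      have h1 : HasFDerivAt (C.co (g : G → ℂ) 1) (fderiv ℂ (C.co (g : G → ℂ) 1) (P.symm y))
          (P.symm y) :=
        (((C.hol_contDiffOn g.2.1 1).contDiffAt (isOpen_ball.mem_nhds b3)).differentiableAt
          (by simp)).hasFDerivAt
      have h2 := h1.comp y b2.hasFDerivAt
      have e : (C.co (g : G → ℂ) 1) ∘ P.symm = fun y => (g : G → ℂ) (C.ψ (P.symm y)) := by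
        funext y
        simp only [Function.comp_apply, CLG.co, one_mul]
      rwa [e] at h2
    have hzero : ∀ y ∈ ball (0 : En n) ρ, fderiv ℂ (C.co (g : G → ℂ) 1) (P.symm y)
        (fderiv ℂ P.symm y v) = 0 := by
      intro y hy
      obtain ⟨b1, b2, b3, b4, b5⟩ := hball y hy
      refine hdir _ b3 b4 b5 _ ?_ g
      have h1 : HasFDerivAt (u ∘ P.symm) ((fderiv ℂ u (P.symm y)).comp (fderiv ℂ P.symm y)) y :=
        (hud _ b3).hasFDerivAt.comp y b2.hasFDerivAt
      have h2 : (u ∘ P.symm) =ᶠ[𝓝 y] A := by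
        filter_upwards [P.open_target.mem_nhds b1] with y' hy'
        rw [Function.comp_apply, ← hAΦ, ← hPc, P.right_inv hy']
      have h3 := (A.hasFDerivAt (x := y)).congr_of_eventuallyEq h2
      have h4 := h1.unique h3
      have h5 := congrArg (fun S : En n →L[ℂ] En k => S v) h4
      have h6 : fderiv ℂ u (P.symm y) (fderiv ℂ P.symm y v) = A v := h5
      rw [h6, hAv]
    have hd : ∀ t ∈ Icc (0 : ℝ) 1, HasDerivWithinAt
        (fun t : ℝ => (g : G → ℂ) (C.ψ (P.symm (z + (t : ℂ) • v)))) 0 (Icc 0 1) t := by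
      intro t ht
      have h1 := hder _ (hseg t ht)
      have h2 : HasDerivAt (fun t : ℝ => z + (t : ℂ) • v) v t := by
        have h3 : HasDerivAt (fun t : ℝ => (t : ℂ)) 1 t := Complex.ofRealCLM.hasDerivAt
        have h4 := (h3.smul_const v).const_add z
        rwa [one_smul] at h4
      have h3 := (h1.restrictScalars ℝ).comp_hasDerivAt t h2
      have h4 : ((fderiv ℂ (C.co (g : G → ℂ) 1) (P.symm (z + (t : ℂ) • v))).comp
          (fderiv ℂ P.symm (z + (t : ℂ) • v))) v = 0 := hzero _ (hseg t ht)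
      have h5 : HasDerivAt (fun t : ℝ => (g : G → ℂ) (C.ψ (P.symm (z + (t : ℂ) • v)))) 0 t := by
        rw [← h4]
        exact h3
      exact h5.hasDerivWithinAt
    have hmv := Convex.norm_image_sub_le_of_norm_hasDerivWithin_le (C := 0) hd
      (fun t _ => by simp) (convex_Icc 0 1) (left_mem_Icc.2 zero_le_one)
      (right_mem_Icc.2 zero_le_one)
    rw [zero_mul, norm_le_zero_iff, sub_eq_zero] at hmv
    have e1 : z + ((1 : ℝ) : ℂ) • v = z' := by rw [hv]; simp
    have e0 : z + ((0 : ℝ) : ℂ) • v = z := by simp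
    rw [e1, e0] at hmv
    exact hmv.symm

end algebra

end HR
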