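import Pool.Agent.W_06f097_h35.QA

/-! Coordinates on the quotient group on which the functions of exponential growth live. -/

open scoped Topology ContDiff
open MeasureTheory Set Filter Metric

noncomputable section

namespace HR

variable {n : ℕ} {G : Type*} [Group G] [TopologicalSpace G] [IsTopologicalGroup G]
  [MeasurableSpace G] (C : CLG n G) {μ : Measure G} {l : G → ℝ} (hl : Len μ l)
  {G₁ : Type*} [Group G₁] [TopologicalSpace G₁] [IsTopologicalGroup G₁] (π : G →* G₁)

theorem exists_quot (hπc : Continuous π) (hπo : IsOpenMap π) (hπs : Function.Surjective π)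
    (hπ : ∀ x y, (∀ f : Aexp C hl, (f : G → ℂ) x = (f : G → ℂ) y) ↔ π x = π y) :
    ∃ (k : ℕ) (C₁ : CLG k G₁), (∀ g : G₁ → ℂ, C₁.Hol g ↔ C.Hol (fun x => g (π x))) ∧
      ∀ v : En k, v ≠ 0 → ∃ g : G₁ → ℂ, (fun x => g (π x)) ∈ Aexp C hl ∧ C₁.D g 1 v ≠ 0 := by
  obtain ⟨k, f, A, L, P, ρ, hρ, hf1, hAL, hPs, hP0, hPz, hPt, hPd, hAP, hconst⟩ :=
    exists_coords C hl
  have h0r : (0 : En n) ∈ ball (0 : En n) C.r := mem_ball_self C.r_pos
  -- the descended functions
  obtain ⟨Fb, hFb⟩ : ∃ Fb : G₁ → En k, Fb = fun y i => (f i : G → ℂ) (Function.surjInv hπs y) :=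
    ⟨_, rfl⟩
  have hF : ∀ x i, Fb (π x) i = (f i : G → ℂ) x := by
    intro x i
    rw [hFb]
    exact (hπ _ _).2 (Function.surjInv_eq hπs (π x)) (f i)
  have hFc : Continuous Fb := by
    rw [(hπo.isQuotientMap hπc hπs).continuous_iff, continuous_pi_iff]
    intro i
    have e : (fun x => (Fb ∘ π) x i) = (f i : G → ℂ) := funext fun x => hF x i
    rw [e]
    exact C.hol_continuous (f i).2.1
  -- radius
  obtain ⟨ρ₂, hρ₂, hLρ⟩ : ∃ ρ₂ > 0, ∀ w ∈ ball (0 : En k) ρ₂, L w ∈ ball (0 : En n) ρ := by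
    have h1 : ∀ᶠ w in 𝓝 (0 : En k), L w ∈ ball (0 : En n) ρ := by
      have h2 : ContinuousAt L (0 : En k) := L.continuous.continuousAt
      refine h2.eventually (p := fun z => z ∈ ball (0 : En n) ρ) ?_
      rw [map_zero]
      exact ball_mem_nhds _ hρ
    exact Metric.eventually_nhds_iff_ball.1 h1
  have h0k : (0 : En k) ∈ ball (0 : En k) ρ₂ := mem_ball_self hρ₂
  obtain ⟨σ, hσ⟩ : ∃ σ : En k → En n, σ = fun w => P.symm (L w) := ⟨_, rfl⟩
  have hσ0 : σ 0 = 0 := by
    rw [hσ]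
    simp only [map_zero]
    have h1 := P.left_inv hP0
    rwa [hPz] at h1
  have hσs : ∀ w ∈ ball (0 : En k) ρ₂, σ w ∈ ball (0 : En n) C.r := by
    intro w hw
    rw [hσ]
    exact hPs (P.map_target (hPt (hLρ w hw)))
  have hσd : DifferentiableOn ℂ σ (ball (0 : En k) ρ₂) := by
    intro w hw
    apply DifferentiableAt.differentiableWithinAt
    rw [hσ]
    exact (hPd _ (hLρ w hw)).comp w L.differentiableAt
  have hσcd : ∀ w ∈ ball (0 : En k) ρ₂, ContDiffAt ℂ ∞ σ w := fun w hw =>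
    (contDiffOn_of_differentiableOn isOpen_ball hσd).contDiffAt (isOpen_ball.mem_nhds hw)
  obtain ⟨q, hq⟩ : ∃ q : En k → G₁, q = fun w => π (C.ψ (σ w)) := ⟨_, rfl⟩
  have hqc : ∀ w ∈ ball (0 : En k) ρ₂, ContinuousAt q w := by
    intro w hw
    rw [hq]
    have h1 : ContinuousAt σ w := (hσcd w hw).continuousAt
    have h2 : ContinuousAt C.ψ (σ w) := C.ψ.continuousAt (C.ball_sub (hσs w hw))
    exact hπc.continuousAt.comp (ContinuousAt.comp (f := σ) (g := C.ψ) h2 h1)
  have hq0 : q 0 = 1 := by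
    rw [hq]
    simp only
    rw [hσ0, C.map_zero, map_one]
  have key : ∀ z ∈ ball (0 : En n) ρ, A z ∈ ball (0 : En k) ρ₂ → π (C.ψ (P.symm z)) = q (A z) := by
    intro z hz hAz
    rw [hq, hσ]
    refine (hπ _ _).1 fun g => ?_
    exact hconst g z hz (L (A z)) (hLρ _ hAz) (hAL (A z)).symm
  have hleft : ∀ w ∈ ball (0 : En k) ρ₂, Fb (q w) = w := by
    intro w hw
    funext i
    rw [hq]
    simp only
    rw [hF, ← hAP, hσ]
    simp only
    rw [P.right_inv (hPt (hLρ w hw)), hAL]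
  have hopen : IsOpen (q '' ball (0 : En k) ρ₂) := by
    obtain ⟨U, hU⟩ : ∃ U : Set (En n), U = ball (0 : En n) ρ ∩ A ⁻¹' ball (0 : En k) ρ₂ := ⟨_, rfl⟩
    have hUo : IsOpen U := by
      rw [hU]
      exact isOpen_ball.inter (isOpen_ball.preimage A.continuous)
    have hUt : U ⊆ P.symm.source := by
      rw [hU]
      exact fun z hz => hPt hz.1
    have h1 : IsOpen (P.symm '' U) := P.symm.isOpen_image_of_subset_source hUo hUt
    have h2 : IsOpen (C.ψ '' (P.symm '' U)) := by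
      refine C.ψ.isOpen_image_of_subset_source h1 ?_
      rintro _ ⟨z, hz, rfl⟩
      exact C.ball_sub (hPs (P.map_target (hUt hz)))
    have h3 : q '' ball (0 : En k) ρ₂ = π '' (C.ψ '' (P.symm '' U)) := by
      ext y
      constructor
      · rintro ⟨w, hw, rfl⟩
        refine ⟨C.ψ (P.symm (L w)), ⟨P.symm (L w), ⟨L w, ?_, rfl⟩, rfl⟩, ?_⟩
        · rw [hU]
          refine ⟨hLρ w hw, ?_⟩
          rw [mem_preimage, hAL]
          exact hw
        · rw [hq, hσ]
      · rintro ⟨_, ⟨_, ⟨z, hz, rfl⟩, rfl⟩, rfl⟩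
        rw [hU] at hz
        exact ⟨A z, hz.2, (key z hz.1 hz.2).symm⟩
    rw [h3]
    exact hπo _ h2
  let Q : OpenPartialHomeomorph (En k) G₁ :=
    { toFun := q
      invFun := Fb
      source := ball 0 ρ₂
      target := q '' ball 0 ρ₂
      map_source' := fun w hw => ⟨w, hw, rfl⟩
      map_target' := by
        rintro _ ⟨w, hw, rfl⟩
        rw [hleft w hw]
        exact hw
      left_inv' := fun w hw => hleft w hw
      right_inv' := by
        rintro _ ⟨w, hw, rfl⟩
        rw [hleft w hw]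
      open_source := isOpen_ball
      open_target := hopen
      continuousOn_toFun := fun w hw => (hqc w hw).continuousWithinAt
      continuousOn_invFun := hFc.continuousOn }
  have hQ : ∀ w, Q w = q w := fun w => rfl
  have hQs : ∀ y, Q.symm y = Fb y := fun y => rfl
  have hT1 : Q.target ∈ 𝓝 (1 : G₁) := hopen.mem_nhds ⟨0, h0k, hq0⟩
  -- the smaller radius
  have hqc0 := hqc 0 h0k
  have hσc0 : ContinuousAt σ 0 := (hσcd 0 h0k).continuousAt
  have hev : ∀ᶠ p : En k × En k in 𝓝 ((0 : En k), (0 : En k)), p.1 ∈ ball (0 : En k) ρ₂ ∧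
      p.2 ∈ ball (0 : En k) ρ₂ ∧ q p.1 * q p.2 ∈ Q.target ∧
      C.CA4_mu (σ p.1, σ p.2) ∈ ball (0 : En n) C.r := by
    have c1 : ContinuousAt (fun p : En k × En k => q p.1) ((0 : En k), (0 : En k)) :=
      ContinuousAt.comp (x := ((0 : En k), (0 : En k))) (g := q) hqc0 continuousAt_fst
    have c2 : ContinuousAt (fun p : En k × En k => q p.2) ((0 : En k), (0 : En k)) :=
      ContinuousAt.comp (x := ((0 : En k), (0 : En k))) (g := q) hqc0 continuousAt_snd
    have s1 : ContinuousAt (fun p : En k × En k => σ p.1) ((0 : En k), (0 : En k)) :=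
      ContinuousAt.comp (x := ((0 : En k), (0 : En k))) (g := σ) hσc0 continuousAt_fst
    have s2 : ContinuousAt (fun p : En k × En k => σ p.2) ((0 : En k), (0 : En k)) :=
      ContinuousAt.comp (x := ((0 : En k), (0 : En k))) (g := σ) hσc0 continuousAt_snd
    have h1 : ∀ᶠ p : En k × En k in 𝓝 ((0 : En k), (0 : En k)), p.1 ∈ ball (0 : En k) ρ₂ :=
      continuousAt_fst.eventually (p := fun w => w ∈ ball (0 : En k) ρ₂) (ball_mem_nhds _ hρ₂)
    have h2 : ∀ᶠ p : En k × En k in 𝓝 ((0 : En k), (0 : En k)), p.2 ∈ ball (0 : En k) ρ₂ :=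
      continuousAt_snd.eventually (p := fun w => w ∈ ball (0 : En k) ρ₂) (ball_mem_nhds _ hρ₂)
    have h3 : ∀ᶠ p : En k × En k in 𝓝 ((0 : En k), (0 : En k)), q p.1 * q p.2 ∈ Q.target := by
      refine (c1.mul c2).eventually (p := fun y => y ∈ Q.target) ?_
      show Q.target ∈ 𝓝 (q 0 * q 0)
      rw [hq0, mul_one]
      exact hT1
    have h4 : ∀ᶠ p : En k × En k in 𝓝 ((0 : En k), (0 : En k)),
        C.CA4_mu (σ p.1, σ p.2) ∈ ball (0 : En n) C.r := by
      have c3 : ContinuousAt C.CA4_mu ((0 : En n), (0 : En n)) :=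
        (C.CA4_mu_at (p := ((0 : En n), (0 : En n))) ⟨h0r, h0r⟩).continuousAt
      have c4 : ContinuousAt (fun p : En k × En k => C.CA4_mu (σ p.1, σ p.2))
          ((0 : En k), (0 : En k)) := by
        refine ContinuousAt.comp (x := ((0 : En k), (0 : En k)))
          (f := fun p : En k × En k => (σ p.1, σ p.2)) (g := C.CA4_mu) ?_ (s1.prodMk s2)
        simp only [hσ0]
        exact c3
      refine c4.eventually (p := fun z => z ∈ ball (0 : En n) C.r) ?_
      simp only [hσ0]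
      rw [C.CA4_mu_left h0r]
      exact ball_mem_nhds _ C.r_pos
    filter_upwards [h1, h2, h3, h4] with p a b c d
    exact ⟨a, b, c, d⟩
  obtain ⟨r₁, hr₁, hr₁'⟩ := Metric.eventually_nhds_iff_ball.1 hev
  have hr : ∀ z ∈ ball (0 : En k) r₁, ∀ w ∈ ball (0 : En k) r₁, z ∈ ball (0 : En k) ρ₂ ∧
      w ∈ ball (0 : En k) ρ₂ ∧ q z * q w ∈ Q.target ∧
      C.CA4_mu (σ z, σ w) ∈ ball (0 : En n) C.r := by
    intro z hz w hw
    refine hr₁' (z, w) ?_
    rw [← ball_prod_same]
    exact ⟨hz, hw⟩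
  have hrρ : ball (0 : En k) r₁ ⊆ ball (0 : En k) ρ₂ := fun z hz => (hr z hz z hz).1
  have h0r₁ : (0 : En k) ∈ ball (0 : En k) r₁ := mem_ball_self hr₁
  -- holomorphic functions composed with `ψ ∘ σ`
  have hcomp : ∀ g : G → ℂ, C.Hol g → ∀ w ∈ ball (0 : En k) ρ₂,
      ContDiffAt ℂ ∞ (fun w => g (C.ψ (σ w))) w := by
    intro g hg w hw
    have h1 : ContDiffAt ℂ ∞ (C.co g 1) (σ w) :=
      (C.hol_contDiffOn hg 1).contDiffAt (isOpen_ball.mem_nhds (hσs w hw))
    have h2 := ContDiffAt.comp (g := C.co g 1) (f := σ) w h1 (hσcd w hw)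
    have e : (C.co g 1) ∘ σ = fun w => g (C.ψ (σ w)) := by
      funext w
      simp only [Function.comp_apply, CLG.co, one_mul]
    rwa [e] at h2
  let C₁ : CLG k G₁ :=
    { ψ := Q
      r := r₁
      r_pos := hr₁
      ball_sub := hrρ
      map_zero := hq0
      mul_mem := fun z hz w hw => (hr z hz w hw).2.2.1
      mul_smooth := by
        rintro p ⟨hp1, hp2⟩
        apply ContDiffAt.contDiffWithinAt
        obtain ⟨b1, b2, -, b4⟩ := hr p.1 hp1 p.2 hp2
        rw [contDiffAt_pi]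
        intro i
        have h1 : ContDiffAt ℂ ∞ (C.co (f i : G → ℂ) 1) (C.CA4_mu (σ p.1, σ p.2)) :=
          (C.hol_contDiffOn (f i).2.1 1).contDiffAt (isOpen_ball.mem_nhds b4)
        have h2 : ContDiffAt ℂ ∞ C.CA4_mu (σ p.1, σ p.2) :=
          C.CA4_mu_at (p := (σ p.1, σ p.2)) ⟨hσs _ b1, hσs _ b2⟩
        have h3 : ContDiffAt ℂ ∞ (fun p : En k × En k => (σ p.1, σ p.2)) p := by
          refine ContDiffAt.prodMk ?_ ?_
          · exact ContDiffAt.comp (g := σ) p (hσcd _ b1) contDiffAt_fst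
          · exact ContDiffAt.comp (g := σ) p (hσcd _ b2) contDiffAt_snd
        have h4 : ContDiffAt ℂ ∞ (fun p : En k × En k => C.CA4_mu (σ p.1, σ p.2)) p :=
          ContDiffAt.comp (g := C.CA4_mu) p h2 h3
        have h5 : ContDiffAt ℂ ∞ (fun p : En k × En k =>
            C.co (f i : G → ℂ) 1 (C.CA4_mu (σ p.1, σ p.2))) p :=
          ContDiffAt.comp (g := C.co (f i : G → ℂ) 1) p h1 h4
        refine h5.congr_of_eventuallyEq ?_
        have h6 : ball (0 : En k) r₁ ×ˢ ball (0 : En k) r₁ ∈ 𝓝 p :=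
          (isOpen_ball.prod isOpen_ball).mem_nhds ⟨hp1, hp2⟩
        filter_upwards [h6] with p' hp'
        obtain ⟨b1', b2', -, -⟩ := hr p'.1 hp'.1 p'.2 hp'.2
        have e1 : C.ψ (C.CA4_mu (σ p'.1, σ p'.2)) = C.ψ (σ p'.1) * C.ψ (σ p'.2) :=
          C.ψ.right_inv (C.mul_mem _ (hσs _ b1') _ (hσs _ b2'))
        have e2 : Q p'.1 * Q p'.2 = π (C.ψ (σ p'.1) * C.ψ (σ p'.2)) := by
          rw [map_mul, hQ, hQ, hq]
        rw [hQs, e2, hF]
        simp only [CLG.co, one_mul]
        rw [e1]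
      base_smooth := by
        intro z₀ hz₀
        rw [contDiffAt_pi]
        intro i
        have h1 := hcomp (fun y => (f i : G → ℂ) ((C.ψ (σ z₀))⁻¹ * y))
          (C.hol_left (f i).2.1 _) z₀ (hrρ hz₀)
        refine h1.congr_of_eventuallyEq (Eventually.of_forall fun z => ?_)
        have e2 : (Q z₀)⁻¹ * Q z = π ((C.ψ (σ z₀))⁻¹ * C.ψ (σ z)) := by
          rw [map_mul, map_inv, hQ, hQ, hq]
        simp only
        rw [hQs, e2, hF]
      inv_smooth := by
        rw [contDiffAt_pi]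
        intro i
        have h1 := hcomp (fun y => (f i : G → ℂ) y⁻¹) (C.hol_inv (f i).2.1) 0 h0k
        refine h1.congr_of_eventuallyEq (Eventually.of_forall fun z => ?_)
        have e2 : (Q z)⁻¹ = π ((C.ψ (σ z))⁻¹) := by
          rw [map_inv, hQ, hq]
        simp only
        rw [hQs, e2, hF]
      conj_smooth := by
        intro b
        obtain ⟨a, rfl⟩ := hπs b
        rw [contDiffAt_pi]
        intro i
        have h1 := hcomp (fun y => (f i : G → ℂ) (a⁻¹ * y * a))
          (C.hol_left (f := fun y => (f i : G → ℂ) (y * a)) (C.hol_right (f i).2.1 a) a⁻¹) 0 h0k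
        refine h1.congr_of_eventuallyEq (Eventually.of_forall fun z => ?_)
        have e2 : (π a)⁻¹ * Q z * π a = π (a⁻¹ * C.ψ (σ z) * a) := by
          rw [map_mul, map_mul, map_inv, hQ, hq]
        simp only
        rw [hQs, e2, hF] }
  have hC₁ : ∀ w, C₁.ψ w = π (C.ψ (σ w)) := by
    intro w
    show Q w = _
    rw [hQ, hq]
  refine ⟨k, C₁, fun g => ⟨fun hg x => ?_, fun hg y => ?_⟩, fun v hv => ?_⟩
  · -- pull back
    have hu : DifferentiableAt ℂ (fun z i => C.co (f i : G → ℂ) 1 z) (0 : En n) := by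
      rw [differentiableAt_pi]
      exact fun i => (f i).2.1 1
    have huP : ∀ z, (fun i => C.co (f i : G → ℂ) 1 z) = A (P z) := by
      intro z
      funext i
      rw [hAP]
      simp only [CLG.co, one_mul]
    have hu0 : (fun i => C.co (f i : G → ℂ) 1 (0 : En n)) = (0 : En k) := by
      rw [huP, hPz, map_zero]
    have h1 : DifferentiableAt ℂ (C₁.co g (π x)) (0 : En k) := hg (π x)
    rw [← hu0] at h1
    have h2 := DifferentiableAt.comp (g := C₁.co g (π x)) (0 : En n) h1 hu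
    refine h2.congr_of_eventuallyEq ?_
    have hPc : ContinuousAt P (0 : En n) := P.continuousAt hP0
    have h3 : ∀ᶠ z in 𝓝 (0 : En n), P z ∈ ball (0 : En n) ρ ∧ A (P z) ∈ ball (0 : En k) ρ₂ := by
      have h4 : ∀ᶠ z in 𝓝 (0 : En n), z ∈ ball (0 : En n) ρ ∧ A z ∈ ball (0 : En k) ρ₂ := by
        have h5 : ∀ᶠ z in 𝓝 (0 : En n), A z ∈ ball (0 : En k) ρ₂ := by
          refine (A.continuous.continuousAt (x := (0 : En n))).eventually
            (p := fun z => z ∈ ball (0 : En k) ρ₂) ?_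
          rw [map_zero]
          exact ball_mem_nhds _ hρ₂
        filter_upwards [ball_mem_nhds (0 : En n) hρ, h5] with z a b
        exact ⟨a, b⟩
      refine hPc.eventually (p := fun z => z ∈ ball (0 : En n) ρ ∧ A z ∈ ball (0 : En k) ρ₂) ?_
      rw [hPz]
      exact h4
    filter_upwards [h3, P.open_source.mem_nhds hP0] with z hz hzs
    have h6 := key (P z) hz.1 hz.2
    rw [P.left_inv hzs] at h6
    simp only [Function.comp_apply, CLG.co]
    have h7 := huP z
    simp only [CLG.co] at h7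
    rw [h7, map_mul, h6]
    rfl
  · -- push forward
    obtain ⟨x, rfl⟩ := hπs y
    have h1 : DifferentiableAt ℂ (C.co (fun x => g (π x)) x) (σ 0) := by
      rw [hσ0]
      exact hg x
    have h2 : DifferentiableAt ℂ σ 0 := (hσcd 0 h0k).differentiableAt (by simp)
    have h3 := DifferentiableAt.comp (g := C.co (fun x => g (π x)) x) (0 : En k) h1 h2
    refine h3.congr_of_eventuallyEq (Eventually.of_forall fun w => ?_)
    simp only [Function.comp_apply, CLG.co]
    rw [hC₁, map_mul]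
  · -- separation
    obtain ⟨i, hi⟩ : ∃ i, v i ≠ 0 := by
      by_contra h
      push Not at h
      exact hv (funext h)
    refine ⟨fun y => Fb y i, ?_, ?_⟩
    · have e : (fun x => Fb (π x) i) = (f i : G → ℂ) := funext fun x => hF x i
      rw [e]
      exact (f i).2
    · have h1 : C₁.co (fun y => Fb y i) 1 =ᶠ[𝓝 (0 : En k)] fun w => w i := by
        filter_upwards [ball_mem_nhds (0 : En k) hρ₂] with w hw
        simp only [CLG.co, one_mul]
        have h2 : C₁.ψ w = q w := rfl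
        rw [h2, hleft w hw]
      have h2 : HasFDerivAt (fun w : En k => w i) (ContinuousLinearMap.proj (R := ℝ) i) 0 :=
        (ContinuousLinearMap.proj (R := ℝ) (φ := fun _ : Fin k => ℂ) i).hasFDerivAt
      have h3 := h2.congr_of_eventuallyEq h1
      rw [CLG.D, h3.fderiv]
      exact hi

end HR
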