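import Pool.Agent.W_06f097_h35.QB
import Pool.Agent.W_06f097_h35.KD
import Pool.Agent.W_06f097_h43.ST6
import Pool.Agent.W_06f097_h43.LE1

/-! Transfer of the results from the quotient group on which the functions of exponential growth
live. -/

open scoped Topology ContDiff
open MeasureTheory Set Filter Metric

noncomputable section

namespace HR

/-- compact sets lift along open surjections of locally compact spaces -/
theorem exists_lift_compact {X Y : Type*} [TopologicalSpace X] [TopologicalSpace Y]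
    [LocallyCompactSpace X] {p : X → Y} (hpo : IsOpenMap p) (hps : Function.Surjective p)
    {K : Set Y} (hK : IsCompact K) : ∃ L : Set X, IsCompact L ∧ K ⊆ p '' L := by
  refine hK.induction_on (p := fun K => ∃ L : Set X, IsCompact L ∧ K ⊆ p '' L) ?_ ?_ ?_ ?_
  · exact ⟨∅, isCompact_empty, empty_subset _⟩
  · rintro s t hst ⟨L, hL, h⟩
    exact ⟨L, hL, hst.trans h⟩
  · rintro s t ⟨L, hL, h⟩ ⟨L', hL', h'⟩
    refine ⟨L ∪ L', hL.union hL', ?_⟩
    rw [image_union]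
    exact union_subset_union h h'
  · intro y _
    obtain ⟨x, rfl⟩ := hps y
    obtain ⟨V, hV, hxV⟩ := exists_compact_mem_nhds x
    exact ⟨p '' V, mem_nhdsWithin_of_mem_nhds (hpo.image_mem_nhds hxV), V, hV, Subset.rfl⟩

variable {n : ℕ} {G : Type*} [Group G] [TopologicalSpace G] [IsTopologicalGroup G] [T2Space G]
  [LocallyCompactSpace G] [SecondCountableTopology G] [MeasurableSpace G] [BorelSpace G]
  (C : CLG n G) (μ : Measure G) [μ.IsHaarMeasure] {l : G → ℝ} (hl : Len μ l)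

omit [IsTopologicalGroup G] [T2Space G] [LocallyCompactSpace G] [SecondCountableTopology G]
  [BorelSpace G] [μ.IsHaarMeasure] in
/-- `om` only depends on the values of the functions of the algebra -/
theorem om_congr {R : ℝ} {x y : G} (h : ∀ f : Aexp C hl, (f : G → ℂ) x = (f : G → ℂ) y) :
    om C hl R x = om C hl R y := by
  unfold om
  congr 1
  ext t
  constructor
  · rintro ⟨f, hf, rfl⟩
    exact ⟨f, hf, by rw [h f]⟩
  · rintro ⟨f, hf, rfl⟩
    exact ⟨f, hf, by rw [h f]⟩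

/-- `l` dominates all weights -/
def Dom (l : G → ℝ) : Prop := ∀ w : G → ℝ, (∀ x, 0 ≤ w x) → (∀ x y, w (x * y) ≤ w x * w y) →
  (∀ x, ∃ U ∈ 𝓝 x, ∃ M : ℝ, ∀ y ∈ U, w y ≤ M) →
  ∃ M R : ℝ, 0 ≤ M ∧ 0 ≤ R ∧ ∀ x, w x ≤ M * Real.exp (R * l x)

variable {G₁ : Type*} [Group G₁] [TopologicalSpace G₁] [IsTopologicalGroup G₁] [T2Space G₁]
  [LocallyCompactSpace G₁] [SecondCountableTopology G₁] [MeasurableSpace G₁] [BorelSpace G₁]
  (μ₁ : Measure G₁) [μ₁.IsHaarMeasure] (π : G →* G₁)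

theorem transfer (hw : Dom l) (hπc : Continuous π) (hπo : IsOpenMap π)
    (hπs : Function.Surjective π)
    (hπ : ∀ x y, (∀ f : Aexp C hl, (f : G → ℂ) x = (f : G → ℂ) y) ↔ π x = π y)
    {K₀ : Set G} (hK₀ : IsCompact K₀) (hgen : Subgroup.closure K₀ = ⊤) :
    ∃ (k : ℕ) (C₁ : CLG k G₁) (l₁ : G₁ → ℝ) (hl₁ : Len μ₁ l₁),
      (∀ g : G₁ → ℂ, C₁.Hol g ↔ C.Hol (fun x => g (π x))) ∧
      (∀ g : G₁ → ℂ, g ∈ Aexp C₁ hl₁ ↔ (fun x => g (π x)) ∈ Aexp C hl) ∧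
      (∀ R : ℝ, 0 ≤ R → ∃ M' R' : ℝ, 0 < M' ∧ 0 ≤ R' ∧
        ∀ x, Real.exp (R * l₁ (π x)) ≤ M' * Real.exp (R' * l x)) ∧
      (∃ s : G₁ → ℝ, C₁.Kah s) ∧
      ∀ v : En k, v ≠ 0 → ∃ f : Aexp C₁ hl₁, C₁.D (f : G₁ → ℂ) 1 v ≠ 0 := by
  obtain ⟨k, C₁, hHol, hsep⟩ := exists_quot C hl π hπc hπo hπs hπ
  have hgen₁ : Subgroup.closure (π '' K₀) = ⊤ := by
    rw [← MonoidHom.map_closure, hgen]
    exact Subgroup.map_top_of_surjective π hπs
  obtain ⟨l₁, hl₁, hw₁⟩ := exists_len μ₁ (hK₀.image hπc) hgen₁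
  have hpull : ∀ R : ℝ, 0 ≤ R → ∃ M' R' : ℝ, 0 < M' ∧ 0 ≤ R' ∧
      ∀ x, Real.exp (R * l₁ (π x)) ≤ M' * Real.exp (R' * l x) := by
    intro R hR
    obtain ⟨M, R', hM, hR', h⟩ := hw (fun x => Real.exp (R * l₁ (π x)))
      (fun x => (Real.exp_pos _).le)
      (fun x y => by
        rw [← Real.exp_add]
        apply Real.exp_le_exp.2
        rw [map_mul, ← mul_add]
        exact mul_le_mul_of_nonneg_left (hl₁.mul _ _) hR)
      (fun x => by
        obtain ⟨V, hV, hxV⟩ := exists_compact_mem_nhds (π x)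
        obtain ⟨M, hM⟩ := hl₁.bdd V hV
        refine ⟨π ⁻¹' V, hπc.continuousAt.preimage_mem_nhds hxV, Real.exp (R * M),
          fun y hy => ?_⟩
        exact Real.exp_le_exp.2 (mul_le_mul_of_nonneg_left (hM _ hy) hR))
    refine ⟨M + 1, R', by linarith, hR', fun x => (h x).trans ?_⟩
    exact mul_le_mul_of_nonneg_right (by linarith) (Real.exp_pos _).le
  have hiff : ∀ g : G₁ → ℂ, g ∈ Aexp C₁ hl₁ ↔ (fun x => g (π x)) ∈ Aexp C hl := by
    intro g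
    constructor
    · rintro ⟨h1, M, R, hM, hR, h2⟩
      obtain ⟨M', R', hM', hR', h3⟩ := hpull R hR
      refine ⟨(hHol g).1 h1, M * M', R', by positivity, hR', fun x => ?_⟩
      calc ‖g (π x)‖ ≤ M * Real.exp (R * l₁ (π x)) := h2 _
        _ ≤ M * (M' * Real.exp (R' * l x)) := mul_le_mul_of_nonneg_left (h3 x) hM
        _ = M * M' * Real.exp (R' * l x) := by ring
    · intro hg
      obtain ⟨h1, M, R, hM, hR, h2⟩ := hg
      obtain ⟨w, hwdef⟩ : ∃ w : G₁ → ℝ, w = fun y => om C hl R (Function.surjInv hπs y) := ⟨_, rfl⟩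
      have hwπ : ∀ x, w (π x) = om C hl R x := by
        intro x
        rw [hwdef]
        exact om_congr C μ hl ((hπ _ _).2 (Function.surjInv_eq hπs (π x)))
      obtain ⟨M₁, R₁, hM₁, hR₁, h3⟩ := hw₁ w
        (fun y => by
          obtain ⟨x, rfl⟩ := hπs y
          rw [hwπ]
          exact zero_le_one.trans (one_le_om C μ hl hR x))
        (fun y y' => by
          obtain ⟨x, rfl⟩ := hπs y
          obtain ⟨x', rfl⟩ := hπs y'
          rw [← map_mul, hwπ, hwπ, hwπ]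
          exact om_mul C μ hl R hR x x')
        (fun y => by
          obtain ⟨x, rfl⟩ := hπs y
          obtain ⟨V, hV, hxV⟩ := exists_compact_mem_nhds x
          obtain ⟨M, hM⟩ := hl.bdd V hV
          refine ⟨π '' V, hπo.image_mem_nhds hxV, Real.exp (R * M), ?_⟩
          rintro _ ⟨z, hz, rfl⟩
          rw [hwπ]
          exact (om_le C μ hl R z).trans
            (Real.exp_le_exp.2 (mul_le_mul_of_nonneg_left (hM z hz) hR)))
      refine ⟨(hHol g).2 h1, M * M₁, R₁, by positivity, hR₁, fun y => ?_⟩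
      obtain ⟨x, rfl⟩ := hπs y
      calc ‖g (π x)‖ ≤ M * om C hl R x :=
            le_om C μ hl hM ⟨fun x => g (π x), h1, M, R, hM, hR, h2⟩ h2 x
        _ = M * w (π x) := by rw [hwπ]
        _ ≤ M * (M₁ * Real.exp (R₁ * l₁ (π x))) := mul_le_mul_of_nonneg_left (h3 _) hM
        _ = M * M₁ * Real.exp (R₁ * l₁ (π x)) := by ring
  have hsep₁ : ∀ v : En k, v ≠ 0 → ∃ f : Aexp C₁ hl₁, C₁.D (f : G₁ → ℂ) 1 v ≠ 0 := by
    intro v hv
    obtain ⟨g, hg1, hg2⟩ := hsep v hv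
    exact ⟨⟨g, (hiff g).2 hg1⟩, hg2⟩
  exact ⟨k, C₁, l₁, hl₁, hHol, hiff, hpull, exists_kah C₁ μ₁ hl₁ hsep₁, hsep₁⟩

include μ₁ in
/-- bound of the homomorphisms to Banach algebras -/
theorem bound_of_quot (hw : Dom l) (hπc : Continuous π) (hπo : IsOpenMap π)
    (hπs : Function.Surjective π)
    (hπ : ∀ x y, (∀ f : Aexp C hl, (f : G → ℂ) x = (f : G → ℂ) y) ↔ π x = π y)
    {K₀ : Set G} (hK₀ : IsCompact K₀) (hgen : Subgroup.closure K₀ = ⊤)
    {B : Type*} [NormedCommRing B] [NormedAlgebra ℂ B] [CompleteSpace B]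
    (Φ : Aexp C hl →ₐ[ℂ] B) (hΦ : Cts C hl Φ) :
    ∃ K : Set G, IsCompact K ∧ ∃ M : ℝ, 0 ≤ M ∧ ∀ (f : Aexp C hl) (m : ℝ), 0 ≤ m →
      (∀ x ∈ K, ‖(f : G → ℂ) x‖ ≤ m) → ‖Φ f‖ ≤ M * m := by
  obtain ⟨k, C₁, l₁, hl₁, hHol, hiff, hpull, ⟨s, hs⟩, hsep₁⟩ :=
    transfer C μ hl μ₁ π hw hπc hπo hπs hπ hK₀ hgen
  let pb : Aexp C₁ hl₁ →ₐ[ℂ] Aexp C hl :=
    { toFun := fun f => ⟨fun x => (f : G₁ → ℂ) (π x), (hiff _).1 f.2⟩
      map_one' := rfl
      map_mul' := fun _ _ => rfl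
      map_zero' := rfl
      map_add' := fun _ _ => rfl
      commutes' := fun _ => rfl }
  have hpb : ∀ (f : Aexp C₁ hl₁) x, (pb f : G → ℂ) x = (f : G₁ → ℂ) (π x) := fun _ _ => rfl
  have hcts : Cts C₁ hl₁ (Φ.comp pb) := by
    intro R hR
    obtain ⟨M', R', hM', hR', h3⟩ := hpull R hR
    obtain ⟨M, hM, hb⟩ := hΦ R' hR'
    refine ⟨M' * M, by positivity, fun f hf => ?_⟩
    have h1 : ∀ x, ‖((((M'⁻¹ : ℝ) : ℂ) • pb f : Aexp C hl) : G → ℂ) x‖ ≤ Real.exp (R' * l x) := by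
      intro x
      have e : ((((M'⁻¹ : ℝ) : ℂ) • pb f : Aexp C hl) : G → ℂ) x =
        ((M'⁻¹ : ℝ) : ℂ) * (f : G₁ → ℂ) (π x) := rfl
      rw [e, norm_mul, Complex.norm_real, Real.norm_eq_abs, abs_of_pos (by positivity),
        inv_mul_le_iff₀ hM']
      exact (hf _).trans (h3 x)
    have h2 := hb _ h1
    rw [map_smul, norm_smul, Complex.norm_real, Real.norm_eq_abs, abs_of_pos (by positivity),
      inv_mul_le_iff₀ hM'] at h2
    exact h2
  obtain ⟨K₁, hK₁, M, hM, hb⟩ := main_bound C₁ μ₁ hl₁ hs hsep₁ (Φ.comp pb) hcts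
  obtain ⟨K, hK, hKK⟩ := exists_lift_compact hπo hπs hK₁
  refine ⟨K, hK, M, hM, fun f m hm hf => ?_⟩
  -- descend
  have hd : ∀ x, (f : G → ℂ) (Function.surjInv hπs (π x)) = (f : G → ℂ) x := fun x =>
    (hπ _ _).2 (Function.surjInv_eq hπs (π x)) f
  have hmem : (fun y => (f : G → ℂ) (Function.surjInv hπs y)) ∈ Aexp C₁ hl₁ := by
    rw [hiff]
    have e : (fun x => (f : G → ℂ) (Function.surjInv hπs (π x))) = (f : G → ℂ) := funext hd
    rw [e]
    exact f.2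
  have h1 := hb ⟨_, hmem⟩ m hm (fun y hy => by
    obtain ⟨x, hx, rfl⟩ := hKK hy
    simp only
    rw [hd]
    exact hf x hx)
  have h2 : pb ⟨_, hmem⟩ = f := Subtype.ext (funext hd)
  have h3 : (Φ.comp pb) ⟨_, hmem⟩ = Φ f := by
    rw [AlgHom.comp_apply, h2]
  rwa [h3] at h1

include μ₁ in
/-- density -/
theorem dense_of_quot (hw : Dom l) (hπc : Continuous π) (hπo : IsOpenMap π)
    (hπs : Function.Surjective π)
    (hπ : ∀ x y, (∀ f : Aexp C hl, (f : G → ℂ) x = (f : G → ℂ) y) ↔ π x = π y)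
    {K₀ : Set G} (hK₀ : IsCompact K₀) (hgen : Subgroup.closure K₀ = ⊤)
    {g : G → ℂ} (hg : C.Hol g) (hgπ : ∀ x y, π x = π y → g x = g y)
    {K : Set G} (hK : IsCompact K) {ε : ℝ} (hε : 0 < ε) :
    ∃ f : Aexp C hl, ∀ x ∈ K, ‖g x - (f : G → ℂ) x‖ < ε := by
  obtain ⟨k, C₁, l₁, hl₁, hHol, hiff, hpull, ⟨s, hs⟩, hsep₁⟩ :=
    transfer C μ hl μ₁ π hw hπc hπo hπs hπ hK₀ hgen
  have hd : ∀ x, g (Function.surjInv hπs (π x)) = g x := fun x =>
    hgπ _ _ (Function.surjInv_eq hπs (π x))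
  have hhol : C₁.Hol (fun y => g (Function.surjInv hπs y)) := by
    rw [hHol]
    have e : (fun x => g (Function.surjInv hπs (π x))) = g := funext hd
    rw [e]
    exact hg
  obtain ⟨f, hf⟩ := main_dense C₁ μ₁ hl₁ hs hsep₁ hhol (hK.image hπc) hε
  refine ⟨⟨fun x => (f : G₁ → ℂ) (π x), (hiff _).1 f.2⟩, fun x hx => ?_⟩
  have h1 := hf (π x) ⟨x, hx, rfl⟩
  simp only at h1 ⊢
  rwa [hd] at h1

end HR
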