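import Pool.Agent.W_06f097_h35.Pub
import Pool.Agent.W_06f097_h35.QC
import Pool.Agent.W_06f097_h43.Final

/-! The Arens-Michael envelope of `O_exp(G)` for all compactly generated complex Lie groups. -/

open scoped Topology ContDiff Manifold
open Set Filter MeasureTheory

noncomputable section

namespace HR

open HolRefl

section N

variable {n : ℕ} {G : Type*} [Group G] [TopologicalSpace G] [IsTopologicalGroup G]
  [MeasurableSpace G] (C : CLG n G) {μ : Measure G} {l : G → ℝ} (hl : Len μ l)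

/-- the elements which the algebra does not separate from the unit -/
def NS : Subgroup G where
  carrier := {x | ∀ f : Aexp C hl, (f : G → ℂ) x = (f : G → ℂ) 1}
  mul_mem' := by
    intro x y hx hy f
    have h1 : (f : G → ℂ) (x * y) = (f : G → ℂ) (x * 1) := hy (Lt C hl x f)
    rw [h1, mul_one]
    exact hx f
  one_mem' := fun f => rfl
  inv_mem' := by
    intro x hx f
    have h1 : (f : G → ℂ) (x⁻¹ * x) = (f : G → ℂ) (x⁻¹ * 1) := hx (Lt C hl x⁻¹ f)
    rw [inv_mul_cancel, mul_one] at h1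
    exact h1.symm

theorem NS_mem {x : G} : x ∈ NS C hl ↔ ∀ f : Aexp C hl, (f : G → ℂ) x = (f : G → ℂ) 1 := Iff.rfl

theorem NS_normal : (NS C hl).Normal := by
  refine ⟨fun x hx g f => ?_⟩
  have hgr : Gr l (fun y => (f : G → ℂ) (g * y * g⁻¹)) := by
    obtain ⟨M, R, hM, hR, h⟩ := f.2.2
    refine ⟨M * Real.exp (R * (l g + l g)), R, by positivity, hR, fun y => (h _).trans ?_⟩
    have e : M * Real.exp (R * (l g + l g)) * Real.exp (R * l y) =
        M * Real.exp (R * (l g + l g) + R * l y) := by rw [Real.exp_add]; ring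
    rw [e]
    refine mul_le_mul_of_nonneg_left (Real.exp_le_exp.2 ?_) hM
    have h1 := hl.mul (g * y) g⁻¹
    have h2 := hl.mul g y
    rw [hl.inv] at h1
    nlinarith
  have hmem : (fun y => (f : G → ℂ) (g * y * g⁻¹)) ∈ Aexp C hl :=
    ⟨C.hol_left (f := fun y => (f : G → ℂ) (y * g⁻¹)) (C.hol_right f.2.1 g⁻¹) g, hgr⟩
  have h1 := hx ⟨_, hmem⟩
  simp only at h1
  rw [h1, mul_one, mul_inv_cancel]

theorem NS_closed : IsClosed (NS C hl : Set G) := by
  have e : (NS C hl : Set G) = ⋂ f : Aexp C hl, {x | (f : G → ℂ) x = (f : G → ℂ) 1} := by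
    ext x
    simp only [SetLike.mem_coe, NS_mem, mem_iInter, mem_setOf_eq]
  rw [e]
  exact isClosed_iInter fun f => isClosed_eq (C.hol_continuous f.2.1) continuous_const

theorem NS_iff (x y : G) : (∀ f : Aexp C hl, (f : G → ℂ) x = (f : G → ℂ) y) ↔
    x⁻¹ * y ∈ NS C hl := by
  constructor
  · intro h f
    have h1 : (f : G → ℂ) (x⁻¹ * x) = (f : G → ℂ) (x⁻¹ * y) := h (Lt C hl x⁻¹ f)
    rw [← h1, inv_mul_cancel]
  · intro h f
    have h1 : (f : G → ℂ) (x * (x⁻¹ * y)) = (f : G → ℂ) (x * 1) := h (Lt C hl x f)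
    rw [mul_inv_cancel_left, mul_one] at h1
    exact h1.symm

end N

/-- weights are bounded on compact sets -/
theorem weight_bdd {G : Type*} [TopologicalSpace G] {w : G → ℝ}
    (hw : ∀ x, ∃ U ∈ 𝓝 x, ∃ M : ℝ, ∀ y ∈ U, w y ≤ M) {K : Set G} (hK : IsCompact K) :
    ∃ B : ℝ, 0 ≤ B ∧ ∀ y ∈ K, w y ≤ B := by
  refine hK.induction_on (p := fun K => ∃ B : ℝ, 0 ≤ B ∧ ∀ y ∈ K, w y ≤ B) ?_ ?_ ?_ ?_
  · exact ⟨0, le_rfl, fun y hy => absurd hy (notMem_empty y)⟩
  · rintro s t hst ⟨B, hB, h⟩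
    exact ⟨B, hB, fun y hy => h y (hst hy)⟩
  · rintro s t ⟨B, hB, h⟩ ⟨B', hB', h'⟩
    refine ⟨max B B', le_max_of_le_left hB, fun y hy => ?_⟩
    rcases hy with hy | hy
    · exact (h y hy).trans (le_max_left _ _)
    · exact (h' y hy).trans (le_max_right _ _)
  · intro x _
    obtain ⟨U, hU, M, hM⟩ := hw x
    exact ⟨U, mem_nhdsWithin_of_mem_nhds hU, max M 0, le_max_right _ _,
      fun y hy => (hM y hy).trans (le_max_left _ _)⟩

/-- the supremum over a compact set is a continuous submultiplicative seminorm -/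
theorem exists_sup_seminorm {E : Type*} [NormedAddCommGroup E] [NormedSpace ℂ E]
    {G : Type*} [TopologicalSpace G] [ChartedSpace E G] [Group G] {K : Set G} (hK : IsCompact K) :
    ∃ p : Seminorm ℂ (Oexp E G), IsSubmul E p ∧ IsCtsSeminorm E p ∧
      ∀ f : Oexp E G, p f = ⨆ x : K, ‖(f : G → ℂ) x‖ := by
  have hbdd : ∀ f : Oexp E G, BddAbove (range fun x : K => ‖(f : G → ℂ) x‖) := by
    intro f
    obtain ⟨w, hw, hfw⟩ := f.2.2
    obtain ⟨B, hB, h⟩ := weight_bdd hw.locBdd hK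
    refine ⟨B, ?_⟩
    rintro _ ⟨x, rfl⟩
    exact (hfw x).trans (h x x.2)
  have hle : ∀ (f : Oexp E G) (x : K), ‖(f : G → ℂ) x‖ ≤ ⨆ x : K, ‖(f : G → ℂ) x‖ := fun f x =>
    le_ciSup (hbdd f) x
  have h0 : ∀ f : Oexp E G, 0 ≤ ⨆ x : K, ‖(f : G → ℂ) x‖ := fun f =>
    Real.iSup_nonneg fun x => norm_nonneg _
  refine ⟨Seminorm.of (fun f : Oexp E G => ⨆ x : K, ‖(f : G → ℂ) x‖) ?_ ?_, ?_, ?_,
    fun f => rfl⟩
  · intro f g
    refine Real.iSup_le (fun x => ?_) (add_nonneg (h0 f) (h0 g))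
    have e : ((f + g : Oexp E G) : G → ℂ) x = (f : G → ℂ) x + (g : G → ℂ) x := rfl
    rw [e]
    exact (norm_add_le _ _).trans (add_le_add (hle f x) (hle g x))
  · intro c f
    rw [Real.mul_iSup_of_nonneg (norm_nonneg c)]
    refine iSup_congr fun x => ?_
    have e : ((c • f : Oexp E G) : G → ℂ) x = c * (f : G → ℂ) x := rfl
    rw [e, norm_mul]
  · intro f g
    refine Real.iSup_le (fun x => ?_) (mul_nonneg (h0 f) (h0 g))
    have e : ((f * g : Oexp E G) : G → ℂ) x = (f : G → ℂ) x * (g : G → ℂ) x := rfl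
    rw [e, norm_mul]
    exact mul_le_mul (hle f x) (hle g x) (norm_nonneg _) (h0 f)
  · intro w hw
    obtain ⟨B, hB, h⟩ := weight_bdd hw.locBdd hK
    exact ⟨B, fun f hf => Real.iSup_le (fun x => (hf x).trans (h x x.2)) hB⟩

/-- Main theorem: for every compactly generated complex Lie group the Arens-Michael envelope of
`O_exp(G)` is its closure in `O(G)`. -/
theorem main_cg.{u, w} {E : Type u} [NormedAddCommGroup E] [NormedSpace ℂ E]
    [FiniteDimensional ℂ E] {G : Type w} [TopologicalSpace G] [ChartedSpace E G] [Group G]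
    [LieGroup 𝓘(ℂ, E) ω G] [T2Space G] (hcg : CompactlyGenerated G) : EnvelopeIsClosure E G := by
  have : IsTopologicalGroup G := topologicalGroup_of_lieGroup 𝓘(ℂ, E) ω
  have : ProperSpace E := FiniteDimensional.proper ℂ E
  have : LocallyCompactSpace G := Manifold.locallyCompact_of_finiteDimensional 𝓘(ℂ, E)
  have : SigmaCompactSpace G := sigmaCompact_of_cg hcg
  have : SecondCountableTopology G := ChartedSpace.secondCountable_of_sigmaCompact E G
  letI : MeasurableSpace G := borel G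
  have : BorelSpace G := ⟨rfl⟩
  obtain ⟨C, hC⟩ := exists_clg (E := E) (G := G)
  have hHol : ∀ f : G → ℂ, IsHol E f ↔ C.Hol f := fun f => hol_iff hC f
  obtain ⟨K₀, hK₀, hgen⟩ := hcg
  obtain ⟨l, hl, hw⟩ := exists_len (Measure.haar : Measure G) hK₀ hgen
  -- the two algebras agree
  have hto : ∀ f : G → ℂ, f ∈ Aexp C hl → f ∈ Oexp E G := by
    rintro f ⟨hf, M, R, hM, hR, hb⟩
    have h1 := len_weight (Measure.haar : Measure G) hl (le_max_left 1 M) hR
    refine ⟨(hHol f).2 hf, fun x => max 1 M * Real.exp (R * l x), ⟨h1.1, h1.2.1, h1.2.2⟩,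
      fun x => (hb x).trans ?_⟩
    exact mul_le_mul_of_nonneg_right (le_max_right 1 M) (Real.exp_pos _).le
  have hfrom : ∀ f : G → ℂ, f ∈ Oexp E G → f ∈ Aexp C hl := by
    rintro f ⟨hf, w, hw', hb⟩
    obtain ⟨M, R, hM, hR, h2⟩ := hw w hw'.nonneg hw'.submul hw'.locBdd
    exact ⟨(hHol f).1 hf, M, R, hM, hR, fun x => (hb x).trans (h2 x)⟩
  let ι : Aexp C hl →ₐ[ℂ] Oexp E G := Subalgebra.inclusion hto
  -- the quotient group
  haveI : (NS C hl).Normal := NS_normal C hl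
  haveI : IsClosed (NS C hl : Set G) := NS_closed C hl
  letI : MeasurableSpace (G ⧸ NS C hl) := borel _
  haveI : BorelSpace (G ⧸ NS C hl) := ⟨rfl⟩
  have hπc : Continuous (QuotientGroup.mk' (NS C hl)) := continuous_quot_mk
  have hπo : IsOpenMap (QuotientGroup.mk' (NS C hl)) := QuotientGroup.isOpenMap_coe
  have hπs : Function.Surjective (QuotientGroup.mk' (NS C hl)) := QuotientGroup.mk'_surjective _
  have hπ : ∀ x y, (∀ f : Aexp C hl, (f : G → ℂ) x = (f : G → ℂ) y) ↔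
      QuotientGroup.mk' (NS C hl) x = QuotientGroup.mk' (NS C hl) y := by
    intro x y
    rw [NS_iff, QuotientGroup.mk'_apply, QuotientGroup.mk'_apply, QuotientGroup.eq]
  refine ⟨fun p hp hcts => ?_, fun K hK => exists_sup_seminorm hK, fun f hf => ⟨?_, ?_⟩⟩
  · obtain ⟨B, i1, i2, i3, Φ, hΦ⟩ := exists_banach p hp
    have hcts' : Cts C hl (Φ.comp ι) := by
      intro R hR
      have h1 := len_weight (Measure.haar : Measure G) hl (le_refl (1 : ℝ)) hR
      obtain ⟨M, hM⟩ := hcts (fun x => 1 * Real.exp (R * l x)) ⟨h1.1, h1.2.1, h1.2.2⟩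
      refine ⟨max M 0, le_max_right _ _, fun f hf => ?_⟩
      have h3 : ‖(Φ.comp ι) f‖ = p (ι f) := hΦ (ι f)
      rw [h3]
      refine le_trans (hM (ι f) fun x => ?_) (le_max_left _ _)
      rw [one_mul]
      exact hf x
    obtain ⟨K, hK, M, hM, hb⟩ := bound_of_quot C (Measure.haar : Measure G) hl
      (Measure.haar : Measure (G ⧸ NS C hl)) (QuotientGroup.mk' (NS C hl)) hw hπc hπo hπs hπ hK₀
      hgen (Φ.comp ι) hcts'
    refine ⟨K, hK, M, hM, fun f c hfc hc => ?_⟩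
    have h4 := hb ⟨(f : G → ℂ), hfrom _ f.2⟩ c hc hfc
    have h5 : ‖(Φ.comp ι) ⟨(f : G → ℂ), hfrom _ f.2⟩‖ = p f := by
      have : ι ⟨(f : G → ℂ), hfrom _ f.2⟩ = f := Subtype.ext rfl
      calc ‖(Φ.comp ι) ⟨(f : G → ℂ), hfrom _ f.2⟩‖
          = p (ι ⟨(f : G → ℂ), hfrom _ f.2⟩) := hΦ _
        _ = p f := by rw [this]
    rw [← h5]
    exact h4
  · intro hf2 x y hxy
    by_contra hne
    have hpos : 0 < ‖f x - f y‖ / 2 := by
      have := norm_pos_iff.2 (sub_ne_zero.2 hne)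
      linarith
    obtain ⟨g, hg⟩ := hf2 {x, y} (Set.toFinite _).isCompact _ hpos
    have h1 := hg x (by simp)
    have h2 := hg y (by simp)
    have h3 : f x - f y = (f x - (g : G → ℂ) x) - (f y - (g : G → ℂ) y) := by
      rw [hxy g]
      ring
    have h4 : ‖f x - f y‖ ≤ ‖f x - (g : G → ℂ) x‖ + ‖f y - (g : G → ℂ) y‖ := by
      conv_lhs => rw [h3]
      exact norm_sub_le _ _
    linarith
  · intro hf2 K hK ε hε
    obtain ⟨g, hg⟩ := dense_of_quot C (Measure.haar : Measure G) hl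
      (Measure.haar : Measure (G ⧸ NS C hl)) (QuotientGroup.mk' (NS C hl)) hw hπc hπo hπs hπ hK₀
      hgen ((hHol f).1 hf) (fun x y hxy => by
        refine hf2 x y fun g => ?_
        exact (hπ x y).2 hxy ⟨(g : G → ℂ), hfrom _ g.2⟩) hK hε
    exact ⟨⟨(g : G → ℂ), hto _ g.2⟩, hg⟩

end HR
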