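import Pool.Agent.W_06f097_h35.RD
import Pool.Agent.W_06f097_h35.FA
import Pool.Agent.W_06f097_h43.CA6

/-! Holomorphic reflexivity: the context and the space `O_exp(G)` with its inductive topology. -/

open scoped Topology ContDiff Manifold
open Set Filter Topology Bornology

noncomputable section

namespace HolRefl.Pf

/-- coordinates and a continuous length function -/
structure Ctx (E : Type*) [NormedAddCommGroup E] [NormedSpace ℂ E] (G : Type*)
    [TopologicalSpace G] [ChartedSpace E G] [Group G] where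
  n : ℕ
  C : HR.CLG n G
  hol : ∀ f : G → ℂ, IsHol E f ↔ C.Hol f
  σ : G → ℝ
  cont : Continuous σ
  nonneg : ∀ x, 0 ≤ σ x
  mul : ∀ x y, σ (x * y) ≤ σ x + σ y
  proper : ∀ R : ℝ, IsCompact {x | σ x ≤ R}
  dom : ∀ w : G → ℝ, IsWeight w → ∃ M R : ℝ, 1 ≤ M ∧ 0 ≤ R ∧ ∀ x, w x ≤ M * Real.exp (R * σ x)

variable {E : Type*} [NormedAddCommGroup E] [NormedSpace ℂ E]
variable {G : Type*} [TopologicalSpace G] [ChartedSpace E G] [Group G]

/-- `M exp (R σ)` is a weight for `M ≥ 1`, `R ≥ 0` -/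
theorem Ctx.weight (X : Ctx E G) {M R : ℝ} (hM : 1 ≤ M) (hR : 0 ≤ R) :
    IsWeight (fun x => M * Real.exp (R * X.σ x)) := by
  have hM0 : 0 < M := lt_of_lt_of_le one_pos hM
  have hc : Continuous (fun x => M * Real.exp (R * X.σ x)) :=
    continuous_const.mul (Real.continuous_exp.comp (continuous_const.mul X.cont))
  refine ⟨fun x => by positivity, fun x y => ?_, fun x => ?_⟩
  · have h1 : Real.exp (R * X.σ (x * y)) ≤ Real.exp (R * X.σ x) * Real.exp (R * X.σ y) := by
      rw [← Real.exp_add, ← mul_add]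
      exact Real.exp_le_exp.2 (mul_le_mul_of_nonneg_left (X.mul x y) hR)
    have h2 : 0 < Real.exp (R * X.σ x) := Real.exp_pos _
    have h3 : 0 < Real.exp (R * X.σ y) := Real.exp_pos _
    calc M * Real.exp (R * X.σ (x * y))
        ≤ M * (Real.exp (R * X.σ x) * Real.exp (R * X.σ y)) :=
          mul_le_mul_of_nonneg_left h1 hM0.le
      _ ≤ M * (M * (Real.exp (R * X.σ x) * Real.exp (R * X.σ y))) :=
          mul_le_mul_of_nonneg_left (le_mul_of_one_le_left (by positivity) hM) hM0.le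
      _ = M * Real.exp (R * X.σ x) * (M * Real.exp (R * X.σ y)) := by ring
  · refine ⟨{y | M * Real.exp (R * X.σ y) < M * Real.exp (R * X.σ x) + 1}, ?_,
      M * Real.exp (R * X.σ x) + 1, fun y hy => le_of_lt hy⟩
    exact (isOpen_lt hc continuous_const).mem_nhds (by simp)

/-- multiples of weights -/
theorem isWeight_smul {w : G → ℝ} (hw : IsWeight w) {c : ℝ} (hc : 1 ≤ c) :
    IsWeight (fun x => c * w x) :=
  isWeight_mul (isWeight_const hc) hw

/-- the function of `O_exp(G)` as an element of `OexpT E G` -/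
theorem exists_T {f : G → ℂ} (hf : f ∈ Oexp E G) : ∃ g : OexpT E G, ∀ x, evT g x = f x := by
  have hc : Continuous f := MDifferentiable.continuous hf.1
  exact ⟨(⟨⟨f, hc⟩, hf⟩ : OexpC E G), fun x => rfl⟩

theorem evT_mem (f : OexpT E G) : (fun x => evT f x) ∈ Oexp E G := (show OexpC E G from f).2

theorem evT_ext {f g : OexpT E G} (h : ∀ x, evT f x = evT g x) : f = g :=
  Subtype.ext (ContinuousMap.ext h)

theorem evT_add (f g : OexpT E G) (x : G) : evT (f + g) x = evT f x + evT g x := rfl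
theorem evT_smul (c : ℂ) (f : OexpT E G) (x : G) : evT (c • f) x = c * evT f x := rfl
theorem evT_zero (x : G) : evT (0 : OexpT E G) x = 0 := rfl

theorem evT_hol (X : Ctx E G) (f : OexpT E G) : X.C.Hol (fun x => evT f x) :=
  (X.hol _).1 (evT_mem f).1

/-- the unit balls of the Banach spaces -/
def DW (E : Type*) [NormedAddCommGroup E] [NormedSpace ℂ E] {G : Type*} [TopologicalSpace G]
    [ChartedSpace E G] [Group G] (w : G → ℝ) : Set (OexpT E G) := {f | ∀ x, ‖evT f x‖ ≤ w x}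

/-- continuous seminorms are bounded on the unit balls (`Seminorm.bound_of_continuous`) -/
theorem T_bound (p : Seminorm ℂ (OexpT E G)) (hp : Continuous p) {w : G → ℝ} (hw : IsWeight w) :
    ∃ M : ℝ, 0 ≤ M ∧ ∀ f ∈ DW E w, p f ≤ M := by
  classical
  obtain ⟨s, C, -, h⟩ := Seminorm.bound_of_continuous (indFamily_withSeminorms E G) p hp
  have h1 : ∀ i : indSeminorms E G, ∃ M : ℝ, ∀ f ∈ DW E w, indFamily E G i f ≤ M := fun i => by
    obtain ⟨M, hM⟩ := i.2 w hw
    exact ⟨M, fun f hf => hM f hf⟩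
  choose M hM using h1
  refine ⟨C * ∑ i ∈ s, |M i|, by positivity, fun f hf => ?_⟩
  have h2 : p f ≤ C * (s.sup (indFamily E G)) f := h f
  refine h2.trans (mul_le_mul_of_nonneg_left ?_ C.2)
  refine Seminorm.finset_sup_apply_le (Finset.sum_nonneg fun i _ => abs_nonneg _) fun i hi => ?_
  exact ((hM i f hf).trans (le_abs_self _)).trans
    (Finset.single_le_sum (f := fun i => |M i|) (fun i _ => abs_nonneg _) hi)

theorem T_cts (p : Seminorm ℂ (OexpT E G))
    (h : ∀ w : G → ℝ, IsWeight w → ∃ M : ℝ, ∀ f ∈ DW E w, p f ≤ M) : Continuous p :=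
  continuous_of_ind E G fun w hw => h w hw

/-- the unit balls are bounded (`WithSeminorms.isVonNBounded_iff_seminorm_bounded`) -/
theorem DW_bdd {w : G → ℝ} (hw : IsWeight w) : IsVonNBounded ℂ (DW E w : Set (OexpT E G)) := by
  rw [(indFamily_withSeminorms E G).isVonNBounded_iff_seminorm_bounded]
  intro i
  obtain ⟨M, hM⟩ := i.2 w hw
  exact ⟨|M| + 1, by positivity, fun f hf => by
    have h1 := hM f hf
    have h2 := le_abs_self M
    exact lt_of_le_of_lt (h1.trans h2) (lt_add_one _)⟩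

/-- Bounded sets are contained in unit balls. Proof: otherwise for every `k` there are `f_k` in
`S` and `x_k` with `|f_k(x_k)| > k exp (k σ(x_k))`; `p f = sup_k |f(x_k)| exp (-k σ(x_k))` is a
seminorm bounded on all `DW w` (for `w ≤ M exp (R σ)` the terms with `k ≥ R` are `≤ M`), hence
continuous, but not bounded on `S`. -/
theorem T_bdd (X : Ctx E G) {S : Set (OexpT E G)} (hS : IsVonNBounded ℂ S) :
    ∃ w : G → ℝ, IsWeight w ∧ S ⊆ DW E w := by
  by_contra hcon
  have h1 : ∀ k : ℕ, ∃ f : OexpT E G, f ∈ S ∧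
      ∃ x, ((k : ℝ) + 1) * Real.exp (k * X.σ x) < ‖evT f x‖ := by
    intro k
    have hw := X.weight (M := (k : ℝ) + 1) (R := k) (le_add_of_nonneg_left (Nat.cast_nonneg k))
      (Nat.cast_nonneg k)
    by_contra h2
    refine hcon ⟨_, hw, fun f hf x => ?_⟩
    by_contra h3
    exact h2 ⟨f, hf, x, not_le.1 h3⟩
  choose f hf x hx using h1
  obtain ⟨φ, hφ⟩ : ∃ φ : ℕ → OexpT E G →ₗ[ℂ] ℂ, ∀ k g,
      φ k g = ((Real.exp (-(k * X.σ (x k))) : ℝ) : ℂ) * evT g (x k) :=
    ⟨fun k =>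
      { toFun := fun g => ((Real.exp (-(k * X.σ (x k))) : ℝ) : ℂ) * evT g (x k)
        map_add' := fun g h => by rw [evT_add, mul_add]
        map_smul' := fun c g => by
          rw [evT_smul, RingHom.id_apply, smul_eq_mul, mul_left_comm] }, fun k g => rfl⟩
  have hnorm : ∀ k g, ‖φ k g‖ = Real.exp (-(k * X.σ (x k))) * ‖evT g (x k)‖ := fun k g => by
    rw [hφ, norm_mul, Complex.norm_real, Real.norm_of_nonneg (Real.exp_pos _).le]
  have hb : ∀ w : G → ℝ, IsWeight w → ∃ M : ℝ, 0 ≤ M ∧ ∀ g ∈ DW E w, ∀ k, ‖φ k g‖ ≤ M := by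
    intro w hw
    obtain ⟨M, R, hM, hR, hMR⟩ := X.dom w hw
    obtain ⟨N, hN⟩ := exists_nat_ge R
    have hM0 : 0 ≤ M := zero_le_one.trans hM
    have hs : 0 ≤ ∑ k ∈ Finset.range N, w (x k) := Finset.sum_nonneg fun k _ => hw.nonneg (x k)
    refine ⟨M + ∑ k ∈ Finset.range N, w (x k), add_nonneg hM0 hs, fun g hg k => ?_⟩
    rw [hnorm]
    have hg' : ‖evT g (x k)‖ ≤ w (x k) := hg (x k)
    have hkσ : 0 ≤ (k : ℝ) * X.σ (x k) := mul_nonneg (Nat.cast_nonneg k) (X.nonneg _)
    by_cases hk : k < N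
    · have h2 : Real.exp (-(k * X.σ (x k))) ≤ 1 := Real.exp_le_one_iff.2 (neg_nonpos.2 hkσ)
      calc Real.exp (-(k * X.σ (x k))) * ‖evT g (x k)‖ ≤ 1 * w (x k) :=
            mul_le_mul h2 hg' (norm_nonneg _) zero_le_one
        _ = w (x k) := one_mul _
        _ ≤ ∑ k ∈ Finset.range N, w (x k) :=
            Finset.single_le_sum (f := fun k => w (x k)) (fun k _ => hw.nonneg (x k))
              (Finset.mem_range.2 hk)
        _ ≤ M + ∑ k ∈ Finset.range N, w (x k) := le_add_of_nonneg_left hM0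
    · have hNk : R ≤ k := hN.trans (Nat.cast_le.2 (not_lt.1 hk))
      have h2 : Real.exp (-(k * X.σ (x k))) * Real.exp (R * X.σ (x k)) ≤ 1 := by
        rw [← Real.exp_add]
        refine Real.exp_le_one_iff.2 ?_
        have h3 := mul_le_mul_of_nonneg_right hNk (X.nonneg (x k))
        linarith
      calc Real.exp (-(k * X.σ (x k))) * ‖evT g (x k)‖
          ≤ Real.exp (-(k * X.σ (x k))) * (M * Real.exp (R * X.σ (x k))) :=
            mul_le_mul_of_nonneg_left (hg'.trans (hMR _)) (Real.exp_pos _).le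
        _ = M * (Real.exp (-(k * X.σ (x k))) * Real.exp (R * X.σ (x k))) := by ring
        _ ≤ M * 1 := mul_le_mul_of_nonneg_left h2 hM0
        _ = M := mul_one _
        _ ≤ M + ∑ k ∈ Finset.range N, w (x k) := le_add_of_nonneg_right hs
  obtain ⟨p, hp1, hp2⟩ := exists_supS φ (fun g => by
    obtain ⟨w, hw, hgw⟩ := exists_weight E G g
    obtain ⟨M, _, hM⟩ := hb w hw
    exact ⟨M, hM g hgw⟩)
  have hpm : p ∈ indSeminorms E G := fun w hw => by
    obtain ⟨M, h0, hM⟩ := hb w hw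
    exact ⟨M, fun g hg => hp2 g M h0 (hM g hg)⟩
  obtain ⟨r, hr, h6⟩ :=
    (indFamily_withSeminorms E G).isVonNBounded_iff_seminorm_bounded.1 hS ⟨p, hpm⟩
  obtain ⟨k, hk⟩ := exists_nat_ge r
  have h7 : p (f k) < r := h6 (f k) (hf k)
  have h8 := hp1 k (f k)
  rw [hnorm] at h8
  have h9 : (k : ℝ) + 1 < Real.exp (-(k * X.σ (x k))) * ‖evT (f k) (x k)‖ := by
    have h10 := mul_lt_mul_of_pos_left (hx k) (Real.exp_pos (-(k * X.σ (x k))))
    have h11 : Real.exp (-(k * X.σ (x k))) * (((k : ℝ) + 1) * Real.exp (k * X.σ (x k))) =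
        (k : ℝ) + 1 := by
      rw [mul_left_comm, ← Real.exp_add, neg_add_cancel, Real.exp_zero, mul_one]
    rw [h11] at h10
    exact h10
  linarith

/-- a linear functional which is bounded on the unit balls -/
theorem T_functional (φ : OexpT E G →ₗ[ℂ] ℂ)
    (h : ∀ w : G → ℝ, IsWeight w → ∃ M : ℝ, ∀ f ∈ DW E w, ‖φ f‖ ≤ M) :
    ∃ Φ : StrongDual ℂ (OexpT E G), ∀ f, Φ f = φ f := by
  obtain ⟨p, hp⟩ : ∃ p : Seminorm ℂ (OexpT E G), ∀ f, p f = ‖φ f‖ :=
    ⟨(normSeminorm ℂ ℂ).comp φ, fun f => rfl⟩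
  have hpc : Continuous p := by
    refine T_cts p fun w hw => ?_
    obtain ⟨M, hM⟩ := h w hw
    exact ⟨M, fun f hf => (hp f).le.trans (hM f hf)⟩
  have hφ : Continuous φ := by
    refine continuous_of_continuousAt_zero φ ?_
    rw [ContinuousAt, map_zero, tendsto_zero_iff_norm_tendsto_zero]
    have h1 := hpc.tendsto (0 : OexpT E G)
    rw [map_zero] at h1
    exact h1.congr fun f => hp f
  exact ⟨⟨φ, hφ⟩, fun f => rfl⟩

/-- point evaluation -/
theorem exists_deltaT (x : G) : ∃ Φ : StrongDual ℂ (OexpT E G), ∀ f, Φ f = evT f x := by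
  obtain ⟨φ, hφ⟩ : ∃ φ : OexpT E G →ₗ[ℂ] ℂ, ∀ f, φ f = evT f x :=
    ⟨{ toFun := fun f => evT f x
       map_add' := fun f g => evT_add f g x
       map_smul' := fun c f => evT_smul c f x }, fun f => rfl⟩
  obtain ⟨Φ, hΦ⟩ := T_functional φ fun w _ => ⟨w x, fun f hf => by
    rw [hφ f]
    exact hf x⟩
  exact ⟨Φ, fun f => (hΦ f).trans (hφ f)⟩

end HolRefl.Pf
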