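import Pool.Agent.W_06f097_h35.RA
import Pool.Agent.W_06f097_h43.CA5

/-! Holomorphic reflexivity: the closure of `O_exp(G)` in `O(G)`. -/

open scoped Topology ContDiff Manifold
open Set Filter Topology Bornology

noncomputable section

namespace HolRefl.Pf

variable {E : Type*} [NormedAddCommGroup E] [NormedSpace ℂ E]
variable {G : Type*} [TopologicalSpace G] [ChartedSpace E G] [Group G]

theorem evB_add (f g : OexpBar E G) (x : G) : evB (f + g) x = evB f x + evB g x := rfl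
theorem evB_smul (c : ℂ) (f : OexpBar E G) (x : G) : evB (c • f) x = c * evB f x := rfl
theorem evB_zero (x : G) : evB (0 : OexpBar E G) x = 0 := rfl

theorem evB_ext {f g : OexpBar E G} (h : ∀ x, evB f x = evB g x) : f = g := by
  have h1 : toC f = toC g := ContinuousMap.ext h
  exact Subtype.ext h1

theorem evB_continuous (f : OexpBar E G) : Continuous (fun x => evB f x) := (toC f).continuous

theorem nhds_bar : (𝓝 (0 : OexpBar E G)).HasBasis (fun p : Set G × ℝ => IsCompact p.1 ∧ 0 < p.2)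
    fun p => {f | ∀ x ∈ p.1, ‖evB f x‖ < p.2} := by
  have h0 : 𝓝 (0 : OexpBar E G) = comap toC (𝓝 (toC (0 : OexpBar E G))) :=
    (isInducing_toC E G).nhds_eq_comap 0
  rw [h0]
  have h1 := (nhds_basis_uniformity' (x := toC (0 : OexpBar E G))
    (Filter.HasBasis.compactConvergenceUniformity (α := G)
      (Metric.uniformity_basis_dist (α := ℂ)))).comap (toC (E := E) (G := G))
  refine h1.to_hasBasis ?_ ?_
  · rintro ⟨K, ε⟩ ⟨hK, hε⟩
    refine ⟨(K, ε), ⟨hK, hε⟩, ?_⟩
    intro f hf x hx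
    have h2 := hf x hx
    have e : dist (toC (0 : OexpBar E G) x) (toC f x) = ‖evB f x‖ := by
      rw [dist_comm, dist_eq_norm]
      have e1 : toC (0 : OexpBar E G) x = 0 := rfl
      rw [e1, sub_zero]
      rfl
    exact e.trans_lt h2
  · rintro ⟨K, ε⟩ ⟨hK, hε⟩
    refine ⟨(K, ε), ⟨hK, hε⟩, ?_⟩
    intro f hf x hx
    have h2 : dist (toC (0 : OexpBar E G) x) (toC f x) < ε := hf x hx
    have e : dist (toC (0 : OexpBar E G) x) (toC f x) = ‖evB f x‖ := by
      rw [dist_comm, dist_eq_norm]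
      have e1 : toC (0 : OexpBar E G) x = 0 := rfl
      rw [e1, sub_zero]
      rfl
    exact e.symm.trans_lt h2

theorem B_bound (q : Seminorm ℂ (OexpBar E G)) (hq : Continuous q) : ∃ K : Set G, IsCompact K ∧
    ∃ M : ℝ, 1 ≤ M ∧ ∀ (f : OexpBar E G) (c : ℝ), 0 ≤ c → (∀ x ∈ K, ‖evB f x‖ ≤ c) →
      q f ≤ M * c := by
  have h1 : {f : OexpBar E G | q f < 1} ∈ 𝓝 (0 : OexpBar E G) := by
    have h2 := hq.continuousAt (x := (0 : OexpBar E G))
    refine h2.eventually (p := fun t => t < 1) ?_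
    rw [map_zero]
    exact Iio_mem_nhds one_pos
  obtain ⟨⟨K, ε⟩, ⟨hK, hε⟩, hsub⟩ := nhds_bar.mem_iff.1 h1
  simp only at hK hε hsub
  refine ⟨K, hK, max 1 (1 / ε), le_max_left _ _, fun f c hc hf => ?_⟩
  have h3 : ∀ c' : ℝ, c < c' → q f ≤ (1 / ε) * c' := by
    intro c' hc'
    have hc0 : 0 < c' := hc.trans_lt hc'
    have h4 : ((ε / c' : ℝ) : ℂ) • f ∈ {f : OexpBar E G | q f < 1} := by
      refine hsub fun x hx => ?_
      rw [evB_smul, norm_mul, Complex.norm_real, Real.norm_of_nonneg (by positivity)]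
      calc ε / c' * ‖evB f x‖ ≤ ε / c' * c := by
            exact mul_le_mul_of_nonneg_left (hf x hx) (by positivity)
        _ < ε / c' * c' := mul_lt_mul_of_pos_left hc' (by positivity)
        _ = ε := by field_simp
    have h5 : ε / c' * q f < 1 := by
      have h6 : q (((ε / c' : ℝ) : ℂ) • f) < 1 := h4
      rwa [map_smul_eq_mul, Complex.norm_real, Real.norm_of_nonneg (by positivity)] at h6
    have h7 : q f = c' / ε * (ε / c' * q f) := by field_simp
    rw [h7]
    calc c' / ε * (ε / c' * q f) ≤ c' / ε * 1 :=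
          mul_le_mul_of_nonneg_left h5.le (by positivity)
      _ = 1 / ε * c' := by ring
  have h8 : q f ≤ (1 / ε) * c := by
    have h9 : Tendsto (fun c' : ℝ => (1 / ε) * c') (𝓝[>] c) (𝓝 ((1 / ε) * c)) :=
      ((continuous_const.mul continuous_id).tendsto c).mono_left nhdsWithin_le_nhds
    refine ge_of_tendsto h9 ?_
    filter_upwards [self_mem_nhdsWithin] with c' hc'
    exact h3 c' hc'
  exact h8.trans (mul_le_mul_of_nonneg_right (le_max_right _ _) hc)

theorem B_cts (q : Seminorm ℂ (OexpBar E G)) {K : Set G} (hK : IsCompact K) {M : ℝ}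
    (h : ∀ (f : OexpBar E G) (c : ℝ), 0 ≤ c → (∀ x ∈ K, ‖evB f x‖ ≤ c) → q f ≤ M * c) :
    Continuous q := by
  refine Seminorm.continuous (r := 1) ?_
  have hd : (0 : ℝ) < 1 / (|M| + 1) := by positivity
  refine nhds_bar.mem_iff.2 ⟨(K, 1 / (|M| + 1)), ⟨hK, hd⟩, ?_⟩
  intro f hf
  rw [Seminorm.mem_ball_zero]
  have h1 : q f ≤ M * (1 / (|M| + 1)) := h f _ hd.le fun x hx => (hf x hx).le
  refine h1.trans_lt ?_
  have h2 : M ≤ |M| := le_abs_self M
  rw [mul_one_div, div_lt_one (by positivity)]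
  linarith

/-- suprema over compact sets -/
theorem exists_supB {K : Set G} (hK : IsCompact K) : ∃ q : Seminorm ℂ (OexpBar E G),
    Continuous q ∧ (∀ f x, x ∈ K → ‖evB f x‖ ≤ q f) ∧
    ∀ (f : OexpBar E G) (c : ℝ), 0 ≤ c → (∀ x ∈ K, ‖evB f x‖ ≤ c) → q f ≤ c := by
  have hbdd : ∀ f : OexpBar E G, BddAbove (range fun x : K => ‖evB f x‖) := by
    intro f
    obtain ⟨B, hB⟩ := hK.bddAbove_image (f := fun x => ‖evB f x‖)
      (evB_continuous f).norm.continuousOn
    refine ⟨B, ?_⟩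
    rintro _ ⟨x, rfl⟩
    exact hB ⟨x, x.2, rfl⟩
  have hle : ∀ (f : OexpBar E G) (x : K), ‖evB f x‖ ≤ ⨆ x : K, ‖evB f x‖ := fun f x =>
    le_ciSup (hbdd f) x
  have h0 : ∀ f : OexpBar E G, 0 ≤ ⨆ x : K, ‖evB f x‖ := fun f =>
    Real.iSup_nonneg fun x => norm_nonneg _
  let p : Seminorm ℂ (OexpBar E G) := Seminorm.of (fun f : OexpBar E G => ⨆ x : K, ‖evB f x‖)
    (fun f g => by
      refine Real.iSup_le (fun x => ?_) (add_nonneg (h0 f) (h0 g))
      rw [evB_add]
      exact (norm_add_le _ _).trans (add_le_add (hle f x) (hle g x)))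
    (fun c f => by
      rw [Real.mul_iSup_of_nonneg (norm_nonneg c)]
      refine iSup_congr fun x => ?_
      rw [evB_smul, norm_mul])
  have hp : ∀ (f : OexpBar E G) (c : ℝ), 0 ≤ c → (∀ x ∈ K, ‖evB f x‖ ≤ c) → p f ≤ c :=
    fun f c hc h => Real.iSup_le (fun x => h x x.2) hc
  refine ⟨p, B_cts p hK (M := 1) (fun f c hc h => ?_), fun f x hx => hle f ⟨x, hx⟩, hp⟩
  rw [one_mul]
  exact hp f c hc h

theorem B_bdd_iff {S : Set (OexpBar E G)} : IsVonNBounded ℂ S ↔
    ∀ K : Set G, IsCompact K → ∃ B : ℝ, ∀ f ∈ S, ∀ x ∈ K, ‖evB f x‖ ≤ B := by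
  rw [nhds_bar.isVonNBounded_iff]
  constructor
  · intro h K hK
    obtain ⟨r, hr⟩ := (h (K, 1) ⟨hK, one_pos⟩).exists_pos
    obtain ⟨hr0, hr⟩ := hr
    refine ⟨r, fun f hf x hx => ?_⟩
    have h1 := hr (r : ℂ) (by rw [Complex.norm_real, Real.norm_of_nonneg hr0.le]) hf
    obtain ⟨g, hg, rfl⟩ := h1
    have h2 : ‖evB g x‖ < 1 := hg x hx
    have e : evB ((fun x => (r : ℂ) • x) g) x = (r : ℂ) * evB g x := rfl
    rw [e, norm_mul, Complex.norm_real, Real.norm_of_nonneg hr0.le]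
    nlinarith
  · rintro h ⟨K, ε⟩ ⟨hK, hε⟩
    simp only at hK hε
    obtain ⟨B, hB⟩ := h K hK
    refine Absorbs.of_norm ⟨(|B| + 1) / ε, fun a ha f hf => ?_⟩
    have ha0 : 0 < ‖a‖ := lt_of_lt_of_le (by positivity) ha
    have ha1 : a ≠ 0 := norm_pos_iff.1 ha0
    refine ⟨a⁻¹ • f, fun x hx => ?_, ?_⟩
    · rw [evB_smul, norm_mul, norm_inv]
      have h1 : ‖evB f x‖ ≤ B := hB f hf x hx
      have h2 : B ≤ |B| := le_abs_self B
      rw [div_le_iff₀ hε] at ha
      rw [inv_mul_lt_iff₀ ha0]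
      linarith
    · simp only [smul_smul, mul_inv_cancel₀ ha1, one_smul]

/-- continuous functionals -/
theorem B_functional_bound (Φ : StrongDual ℂ (OexpBar E G)) : ∃ K : Set G, IsCompact K ∧
    ∃ M : ℝ, 1 ≤ M ∧ ∀ (f : OexpBar E G) (c : ℝ), 0 ≤ c → (∀ x ∈ K, ‖evB f x‖ ≤ c) →
      ‖Φ f‖ ≤ M * c := by
  have h1 : Continuous ((normSeminorm ℂ ℂ).comp (Φ : OexpBar E G →ₗ[ℂ] ℂ)) := Φ.continuous.norm
  exact B_bound _ h1

theorem B_functional (φ : OexpBar E G →ₗ[ℂ] ℂ) {K : Set G} (hK : IsCompact K) {M : ℝ}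
    (h : ∀ (f : OexpBar E G) (c : ℝ), 0 ≤ c → (∀ x ∈ K, ‖evB f x‖ ≤ c) → ‖φ f‖ ≤ M * c) :
    ∃ Φ : StrongDual ℂ (OexpBar E G), ∀ f, Φ f = φ f := by
  have h1 : Continuous ((normSeminorm ℂ ℂ).comp φ) := B_cts _ hK (M := M) h
  have h2 : Continuous φ := by
    refine continuous_of_continuousAt_zero φ ?_
    rw [ContinuousAt, map_zero, tendsto_zero_iff_norm_tendsto_zero]
    have h3 := h1.tendsto (0 : OexpBar E G)
    have e : ((normSeminorm ℂ ℂ).comp φ) (0 : OexpBar E G) = 0 := map_zero _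
    rw [e] at h3
    exact h3
  exact ⟨⟨φ, h2⟩, fun f => rfl⟩

/-- point evaluation -/
theorem exists_deltaB (x : G) : ∃ Φ : StrongDual ℂ (OexpBar E G), ∀ f, Φ f = evB f x := by
  let φ : OexpBar E G →ₗ[ℂ] ℂ :=
    { toFun := fun f => evB f x
      map_add' := fun _ _ => rfl
      map_smul' := fun _ _ => rfl }
  exact B_functional φ (isCompact_singleton (x := x)) (M := 1) fun f c hc h => by
    rw [one_mul]
    exact h x (mem_singleton x)

instance : T2Space (OexpBar E G) := by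
  refine T2Space.of_injective_continuous (f := toC (E := E) (G := G)) ?_
    (isInducing_toC E G).continuous
  intro f g h
  exact Subtype.ext h

private theorem rb_range : range (toC (E := E) (G := G)) = closure (OexpC E G : Set C(G, ℂ)) := by
  ext f
  constructor
  · rintro ⟨g, rfl⟩
    exact (show OexpCl E G from g).2
  · intro h
    exact ⟨(⟨f, h⟩ : OexpCl E G), rfl⟩

/-- `OexpCl` is closed in the complete space `C(G, ℂ)` -/
theorem B_complete [WeaklyLocallyCompactSpace G] : CompleteSpace (OexpBar E G) := by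
  have h1 : IsUniformInducing (toC (E := E) (G := G)) := ⟨rfl⟩
  rw [completeSpace_iff_isComplete_range h1, rb_range]
  exact isClosed_closure.isComplete

theorem B_countable [WeaklyLocallyCompactSpace G] [SigmaCompactSpace G] :
    (𝓝 (0 : OexpBar E G)).IsCountablyGenerated := by
  have h0 : 𝓝 (0 : OexpBar E G) = comap toC (𝓝 (toC (0 : OexpBar E G))) :=
    (isInducing_toC E G).nhds_eq_comap 0
  rw [h0]
  infer_instance

theorem B_approx (F : OexpBar E G) {K : Set G} (hK : IsCompact K) {ε : ℝ} (hε : 0 < ε) :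
    ∃ g : OexpT E G, ∀ x ∈ K, ‖evB F x - evT g x‖ < ε := by
  have h1 := nhds_basis_uniformity' (x := toC F)
    (Filter.HasBasis.compactConvergenceUniformity (α := G)
      (Metric.uniformity_basis_dist (α := ℂ)))
  have h2 : toC F ∈ closure (OexpC E G : Set C(G, ℂ)) := (show OexpCl E G from F).2
  obtain ⟨g, hgF, hg⟩ := (mem_closure_iff_nhds_basis' h1).1 h2 (K, ε) ⟨hK, hε⟩
  refine ⟨(⟨g, hg⟩ : OexpC E G), fun x hx => ?_⟩
  have h3 : dist (toC F x) (g x) < ε := hgF x hx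
  rw [dist_eq_norm] at h3
  exact h3

theorem exists_B {f : G → ℂ} (hf : Continuous f) (h : ∀ K : Set G, IsCompact K → ∀ ε : ℝ, 0 < ε →
    ∃ g : OexpT E G, ∀ x ∈ K, ‖f x - evT g x‖ < ε) : ∃ F : OexpBar E G, ∀ x, evB F x = f x := by
  let f' : C(G, ℂ) := ⟨f, hf⟩
  have h1 := nhds_basis_uniformity' (x := f')
    (Filter.HasBasis.compactConvergenceUniformity (α := G)
      (Metric.uniformity_basis_dist (α := ℂ)))
  have h2 : f' ∈ closure (OexpC E G : Set C(G, ℂ)) := by
    rw [mem_closure_iff_nhds_basis' h1]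
    rintro ⟨K, ε⟩ ⟨hK, hε⟩
    obtain ⟨g, hg⟩ := h K hK ε hε
    refine ⟨(show OexpC E G from g).1, fun x hx => ?_, (show OexpC E G from g).2⟩
    have h3 : ‖f x - evT g x‖ < ε := hg x hx
    rw [← dist_eq_norm] at h3
    exact h3
  exact ⟨(⟨f', h2⟩ : OexpCl E G), fun x => rfl⟩

private theorem rb_image : toC '' (range (inclB E G)) = (OexpC E G : Set C(G, ℂ)) := by
  ext f
  constructor
  · rintro ⟨_, ⟨g, rfl⟩, rfl⟩
    exact (show OexpC E G from g).2
  · intro h
    exact ⟨_, ⟨(⟨f, h⟩ : OexpC E G), rfl⟩, rfl⟩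

theorem B_hol [IsTopologicalGroup G] [LocallyCompactSpace G] (X : Ctx E G) (F : OexpBar E G) :
    X.C.Hol (fun x => evB F x) := by
  let j : OexpT E G → C(G, ℂ) := fun g => toC (inclB E G g)
  have hne : NeBot (comap j (𝓝 (toC F))) := by
    rw [comap_neBot_iff]
    intro t ht
    have h2 : toC F ∈ closure (OexpC E G : Set C(G, ℂ)) := (show OexpCl E G from F).2
    obtain ⟨g, hgt, hg⟩ := mem_closure_iff_nhds.1 h2 t ht
    exact ⟨(⟨g, hg⟩ : OexpC E G), hgt⟩
  have h3 : Tendsto j (comap j (𝓝 (toC F))) (𝓝 (toC F)) := tendsto_comap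
  have h4 := ContinuousMap.tendsto_iff_tendstoLocallyUniformly.1 h3
  exact X.C.hol_limit (p := comap j (𝓝 (toC F))) (f := fun g x => evT g x)
    (fun g => evT_hol X g) h4

theorem inclB_dense : DenseRange (inclB E G) := by
  intro F
  rw [(isInducing_toC E G).closure_eq_preimage_closure_image, rb_image]
  exact (show OexpCl E G from F).2

end HolRefl.Pf
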