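import Pool.Agent.W_06f097_h43.CA6
import Pool.Agent.W_06f097_h43.SV1

/-! Holomorphic reflexivity: estimates of holomorphic functions. -/

open scoped Topology ContDiff
open Set Filter Metric

noncomputable section

namespace HR.CLG

/-- Taylor estimate on a ball. Proof: `|fderiv g z v| ≤ 2 B |v| / ρ` for `|z| < ρ / 2` and
`z ↦ fderiv g z v` is holomorphic, so that `|fderiv g z v - fderiv g 0 v| ≤ 8 B |v| |z| / ρ²` for
`|z| < ρ / 4`; integrate along the segment (mean value inequality). -/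
theorem rc_taylor_ball {n : ℕ} {ρ : ℝ} (hρ : 0 < ρ) {g : En n → ℂ} {B : ℝ}
    (hg : DifferentiableOn ℂ g (ball 0 ρ)) (hB : ∀ z ∈ ball (0 : En n) ρ, ‖g z‖ ≤ B) :
    (∀ v, ‖fderiv ℂ g 0 v‖ ≤ 2 / ρ * B * ‖v‖) ∧
    ∀ z ∈ ball (0 : En n) (ρ / 4), ‖g z - g 0 - fderiv ℂ g 0 z‖ ≤ 8 / ρ ^ 2 * B * ‖z‖ ^ 2 := by
  have hB0 : 0 ≤ B := (norm_nonneg _).trans (hB 0 (mem_ball_self hρ))
  have h0 : ‖fderiv ℂ g 0‖ ≤ B / ρ := norm_fderiv_le_of_ball hρ hB0 hg hB
  refine ⟨fun v => ?_, fun z hz => ?_⟩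
  · calc ‖fderiv ℂ g 0 v‖ ≤ ‖fderiv ℂ g 0‖ * ‖v‖ := (fderiv ℂ g 0).le_opNorm v
      _ ≤ (B / ρ) * ‖v‖ := mul_le_mul_of_nonneg_right h0 (norm_nonneg v)
      _ ≤ 2 / ρ * B * ‖v‖ := by
        refine mul_le_mul_of_nonneg_right ?_ (norm_nonneg v)
        have h1 : 0 ≤ B / ρ := by positivity
        have h2 : 2 / ρ * B = 2 * (B / ρ) := by ring
        rw [h2]
        linarith
  · have hsm : ContDiffOn ℂ ∞ g (ball 0 ρ) := contDiffOn_of_differentiableOn isOpen_ball hg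
    have hfd : DifferentiableOn ℂ (fderiv ℂ g) (ball 0 ρ) := by
      have h1 : ContDiffOn ℂ 1 (fderiv ℂ g) (ball 0 ρ) :=
        hsm.fderiv_of_isOpen isOpen_ball (by norm_cast)
      exact h1.differentiableOn one_ne_zero
    have hga : ∀ w ∈ ball (0 : En n) ρ, HasFDerivAt g (fderiv ℂ g w) w := fun w hw =>
      (hg.differentiableAt (isOpen_ball.mem_nhds hw)).hasFDerivAt
    -- the first derivative on the half ball
    have hD1 : ∀ w ∈ ball (0 : En n) (ρ / 2), ‖fderiv ℂ g w‖ ≤ 2 * B / ρ := by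
      intro w hw
      have hsub : ball w (ρ / 2) ⊆ ball (0 : En n) ρ := by
        refine ball_subset_ball' ?_
        rw [mem_ball] at hw
        linarith
      have h1 := norm_fderiv_le_of_ball (half_pos hρ) hB0 (hg.mono hsub)
        (fun y hy => hB y (hsub hy))
      refine h1.trans (le_of_eq ?_)
      field_simp
    -- the second derivative on the quarter ball
    have hD2 : ∀ w ∈ ball (0 : En n) (ρ / 4), ‖fderiv ℂ (fderiv ℂ g) w‖ ≤ 8 / ρ ^ 2 * B := by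
      intro w hw
      have hsub : ball w (ρ / 4) ⊆ ball (0 : En n) (ρ / 2) := by
        refine ball_subset_ball' ?_
        rw [mem_ball] at hw
        linarith
      have hsub2 : ball (0 : En n) (ρ / 2) ⊆ ball 0 ρ := ball_subset_ball (by linarith)
      have h1 := norm_fderiv_le_of_ball (by positivity : (0 : ℝ) < ρ / 4)
        (by positivity : (0 : ℝ) ≤ 2 * B / ρ) (hfd.mono (hsub.trans hsub2))
        (fun y hy => hD1 y (hsub hy))
      refine h1.trans (le_of_eq ?_)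
      field_simp
      ring
    have hq : ball (0 : En n) (ρ / 4) ⊆ ball 0 ρ := ball_subset_ball (by linarith)
    have hlip : ∀ w ∈ ball (0 : En n) (ρ / 4),
        ‖fderiv ℂ g w - fderiv ℂ g 0‖ ≤ 8 / ρ ^ 2 * B * ‖w‖ := by
      intro w hw
      have h1 := (convex_ball (0 : En n) (ρ / 4)).norm_image_sub_le_of_norm_fderiv_le (𝕜 := ℂ)
        (f := fderiv ℂ g) (C := 8 / ρ ^ 2 * B)
        (fun y hy => hfd.differentiableAt (isOpen_ball.mem_nhds (hq hy))) hD2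
        (mem_ball_self (by positivity)) hw
      rwa [sub_zero] at h1
    have hz' : ‖z‖ < ρ / 4 := by rwa [mem_ball_zero_iff] at hz
    have hcb : closedBall (0 : En n) ‖z‖ ⊆ ball 0 (ρ / 4) := closedBall_subset_ball hz'
    have h2 := (convex_closedBall (0 : En n) ‖z‖).norm_image_sub_le_of_norm_hasFDerivWithin_le
      (𝕜 := ℂ) (f := fun w => g w - fderiv ℂ g 0 w) (f' := fun w => fderiv ℂ g w - fderiv ℂ g 0)
      (C := 8 / ρ ^ 2 * B * ‖z‖) (x := 0) (y := z)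
      (fun w hw => ((hga w (hq (hcb hw))).sub (fderiv ℂ g 0).hasFDerivAt).hasFDerivWithinAt)
      (fun w hw => (hlip w (hcb hw)).trans (by
        rw [mem_closedBall_zero_iff] at hw
        exact mul_le_mul_of_nonneg_left hw (by positivity)))
      (mem_closedBall_self (norm_nonneg z)) (mem_closedBall_zero_iff.2 le_rfl)
    have h3 : g z - g 0 - fderiv ℂ g 0 z = (g z - fderiv ℂ g 0 z) - (g 0 - fderiv ℂ g 0 0) := by
      rw [_root_.map_zero]
      ring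
    rw [h3]
    refine h2.trans (le_of_eq ?_)
    rw [sub_zero]
    ring

variable {n : ℕ} {G : Type*} [Group G] [TopologicalSpace G] [IsTopologicalGroup G]
  (C : CLG n G)

/-- Taylor estimate at a point of the group, uniform for functions bounded on a compact set
(`K = {x ψ(z) : |z| ≤ C.r / 2}`) -/
theorem rc_taylor (x : G) : ∃ K : Set G, IsCompact K ∧ x ∈ K ∧ ∃ δ : ℝ, 0 < δ ∧ ∃ M : ℝ, 0 ≤ M ∧
    ∀ (f : G → ℂ) (B : ℝ), C.Hol f → (∀ y ∈ K, ‖f y‖ ≤ B) →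
      (∀ v, ‖fderiv ℂ (fun z => f (x * C.ψ z)) 0 v‖ ≤ M * B * ‖v‖) ∧
      ∀ z ∈ ball (0 : En n) δ,
        ‖f (x * C.ψ z) - f x - fderiv ℂ (fun z => f (x * C.ψ z)) 0 z‖ ≤ M * B * ‖z‖ ^ 2 := by
  have hr := C.r_pos
  have hρ : 0 < C.r / 2 := half_pos hr
  have hsub : closedBall (0 : En n) (C.r / 2) ⊆ C.ψ.source :=
    (closedBall_subset_ball (by linarith)).trans C.ball_sub
  have hcomp : IsCompact (closedBall (0 : En n) (C.r / 2)) := isCompact_closedBall _ _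
  refine ⟨(fun z => x * C.ψ z) '' closedBall 0 (C.r / 2), ?_, ?_, C.r / 2 / 4, by positivity,
    2 / (C.r / 2) + 8 / (C.r / 2) ^ 2, by positivity, ?_⟩
  · exact hcomp.image_of_continuousOn (continuousOn_const.mul (C.ψ.continuousOn.mono hsub))
  · exact ⟨0, mem_closedBall_self hρ.le, by simp only [C.map_zero, mul_one]⟩
  · intro f B hf hB
    have hd := (C.hol_differentiableOn hf x).mono
      (ball_subset_ball (by linarith : C.r / 2 ≤ C.r))
    have hb : ∀ z ∈ ball (0 : En n) (C.r / 2), ‖C.co f x z‖ ≤ B := fun z hz =>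
      hB _ ⟨z, ball_subset_closedBall hz, rfl⟩
    have hB0 : 0 ≤ B := (norm_nonneg _).trans (hb 0 (mem_ball_self hρ))
    obtain ⟨h1, h2⟩ := rc_taylor_ball hρ hd hb
    have e : C.co f x 0 = f x := by simp only [co]; rw [C.map_zero, mul_one]
    rw [e] at h2
    have p1 : 0 ≤ 2 / (C.r / 2) := by positivity
    have p2 : 0 ≤ 8 / (C.r / 2) ^ 2 := by positivity
    refine ⟨fun v => (h1 v).trans ?_, fun z hz => (h2 z hz).trans ?_⟩
    · refine mul_le_mul_of_nonneg_right ?_ (norm_nonneg v)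
      exact mul_le_mul_of_nonneg_right (by linarith) hB0
    · refine mul_le_mul_of_nonneg_right ?_ (by positivity)
      exact mul_le_mul_of_nonneg_right (by linarith) hB0

/-- functions which are bounded on compact sets are equicontinuous -/
theorem rc_equi (x : G) : ∃ K : Set G, IsCompact K ∧ ∀ ε : ℝ, 0 < ε → ∃ U ∈ 𝓝 x,
    ∀ (f : G → ℂ) (B : ℝ), C.Hol f → (∀ y ∈ K, ‖f y‖ ≤ B) → ∀ y ∈ U, ‖f y - f x‖ ≤ ε * B := by
  obtain ⟨K, hK, hxK, δ, hδ, M, hM, h⟩ := C.rc_taylor x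
  refine ⟨K, hK, fun ε hε => ?_⟩
  have hc : ContinuousAt (fun z : En n => M * ‖z‖ + M * ‖z‖ ^ 2) 0 := by fun_prop
  have h1 : ∀ᶠ z : En n in 𝓝 0, M * ‖z‖ + M * ‖z‖ ^ 2 < ε := by
    refine hc.eventually_lt continuousAt_const ?_
    simpa using hε
  have hV : {z : En n | z ∈ ball (0 : En n) δ ∧ M * ‖z‖ + M * ‖z‖ ^ 2 < ε} ∈ 𝓝 (0 : En n) :=
    Filter.inter_mem (ball_mem_nhds (0 : En n) hδ) h1
  refine ⟨(fun z => x * C.ψ z) '' {z : En n | z ∈ ball (0 : En n) δ ∧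
    M * ‖z‖ + M * ‖z‖ ^ 2 < ε}, ?_, ?_⟩
  · rw [← C.map_nhds x]
    exact Filter.image_mem_map hV
  · rintro f B hf hB _ ⟨z, ⟨hz1, hz2⟩, rfl⟩
    obtain ⟨h3, h4⟩ := h f B hf hB
    have hB0 : 0 ≤ B := (norm_nonneg _).trans (hB x hxK)
    have h5 := h4 z hz1
    have h6 := h3 z
    have h7 : ‖f (x * C.ψ z) - f x‖ ≤ ‖f (x * C.ψ z) - f x
        - fderiv ℂ (fun z => f (x * C.ψ z)) 0 z‖ + ‖fderiv ℂ (fun z => f (x * C.ψ z)) 0 z‖ := by
      have h8 := norm_add_le (f (x * C.ψ z) - f x - fderiv ℂ (fun z => f (x * C.ψ z)) 0 z)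
        (fderiv ℂ (fun z => f (x * C.ψ z)) 0 z)
      rwa [sub_add_cancel] at h8
    calc ‖f (x * C.ψ z) - f x‖ ≤ _ := h7
      _ ≤ M * B * ‖z‖ ^ 2 + M * B * ‖z‖ := add_le_add h5 h6
      _ = (M * ‖z‖ + M * ‖z‖ ^ 2) * B := by ring
      _ ≤ ε * B := mul_le_mul_of_nonneg_right hz2.le hB0

end HR.CLG
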