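import Pool.Agent.W_06f097_h43.Public

/-! Public definitions for MP_06f097_an: holomorphic reflexivity of `A_exp(G)`.

`O_exp(G)` carries the inductive limit topology; `A_exp(G)` is its strong dual (in the sense of
Mathlib: uniform convergence on bounded sets). Convolution of functionals on a space `X` of
functions on `G` is given as a relation. -/

open scoped Topology ContDiff Manifold UniformConvergence
open Set Filter Topology

noncomputable section

namespace HolRefl

/-! ### Arens-Michael envelopes -/

section generic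

variable {A B : Type*} [AddCommGroup A] [Module ℂ A] [TopologicalSpace A]
  [AddCommGroup B] [Module ℂ B] [UniformSpace B]

/-- `p` is submultiplicative for the multiplication of which `m a b c` is the graph `c = a b` -/
def SubmulFor (m : A → A → A → Prop) (p : Seminorm ℂ A) : Prop :=
  ∀ a b c, m a b c → p c ≤ p a * p b

/-- the topology is locally convex: it is defined by continuous seminorms -/
def LocConvex (A : Type*) [AddCommGroup A] [Module ℂ A] [TopologicalSpace A] : Prop :=
  ∀ U ∈ 𝓝 (0 : A), ∃ q : Seminorm ℂ A, Continuous q ∧ {b | q b < 1} ⊆ U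

/-- the seminorm `p` is dominated by `q` on the image of `A` -/
def LeOn (ι : A →ₗ[ℂ] B) (p : Seminorm ℂ A) (q : Seminorm ℂ B) : Prop := ∀ a, p a ≤ q (ι a)

/-- the restriction of `q` to the image of `A` is dominated by `p` -/
def GeOn (ι : A →ₗ[ℂ] B) (p : Seminorm ℂ A) (q : Seminorm ℂ B) : Prop := ∀ a, q (ι a) ≤ p a

/-- `ι : A → B` is an Arens-Michael envelope of the algebra `A`, i.e. `B` is the completion of `A`
with respect to all continuous submultiplicative seminorms: `B` is a complete Hausdorff locally
convex space, `ι` is multiplicative with dense range, and the topology which `ι` induces on `A` is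
the topology defined by all continuous submultiplicative seminorms (`le`, `ge`). The relations
`mA a b c`, `mB a b c` are the graphs `c = a b` of the multiplications. -/
structure IsAMEnvelope [IsUniformAddGroup B] [ContinuousSMul ℂ B] (mA : A → A → A → Prop)
    (mB : B → B → B → Prop) (ι : A →ₗ[ℂ] B) : Prop where
  complete : CompleteSpace B
  t2 : T2Space B
  locConvex : LocConvex B
  mul : ∀ a b c, mA a b c → mB (ι a) (ι b) (ι c)
  dense : DenseRange ι
  le : ∀ p : Seminorm ℂ A, Continuous p → SubmulFor mA p →
    ∃ q : Seminorm ℂ B, Continuous q ∧ LeOn ι p q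
  ge : ∀ q : Seminorm ℂ B, Continuous q →
    ∃ p : Seminorm ℂ A, Continuous p ∧ SubmulFor mA p ∧ GeOn ι p q

variable {G : Type*} [Group G]

/-- `c` is the convolution of the functionals `a` and `b` on the space `A` of functions on `G`
(`ev f x` is the value of `f` at `x`): `c(f) = a(x ↦ b(y ↦ f(x y)))`. Here `h x = (y ↦ f(x y))` and
`g = (x ↦ b (h x))`. -/
def IsConv (ev : A → G → ℂ) (a b c : StrongDual ℂ A) : Prop :=
  ∀ (f g : A) (h : G → A), (∀ x y, ev (h x) y = ev f (x * y)) → (∀ x, ev g x = b (h x)) → c f = a g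

/-- the convolution is everywhere defined -/
structure ConvDefined (ev : A → G → ℂ) : Prop where
  left : ∀ f : A, ∃ h : G → A, ∀ x y, ev (h x) y = ev f (x * y)
  app : ∀ (b : StrongDual ℂ A) (f : A) (h : G → A), (∀ x y, ev (h x) y = ev f (x * y)) →
    ∃ g : A, ∀ x, ev g x = b (h x)
  conv : ∀ a b : StrongDual ℂ A, ∃ c : StrongDual ℂ A, IsConv ev a b c

end generic

section spaces

variable (E : Type*) [NormedAddCommGroup E] [NormedSpace ℂ E]
variable (G : Type*) [TopologicalSpace G] [ChartedSpace E G] [Group G]

/-- `O_exp(G)` as a subalgebra of the algebra `C(G, ℂ)` -/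
def OexpC : Subalgebra ℂ C(G, ℂ) := (Oexp E G).comap (ContinuousMap.coeFnAlgHom ℂ)

/-! ### `O_exp(G)` with its inductive limit topology -/

/-- the algebra `O_exp(G)`, to be equipped with the inductive limit topology -/
def OexpT : Type _ := OexpC E G

instance : AddCommGroup (OexpT E G) := (inferInstance : AddCommGroup (OexpC E G))
instance : Module ℂ (OexpT E G) := (inferInstance : Module ℂ (OexpC E G))

variable {E G} in
/-- the value of `f` at `x` -/
def evT (f : OexpT E G) (x : G) : ℂ := (show OexpC E G from f).1 x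

/-- The continuous seminorms of the inductive limit (in the category of locally convex spaces) of
the Banach spaces `{f : |f| ≤ C w}`: the seminorms which are bounded on every set `{f : |f| ≤ w}`.-/
def indSeminorms : Set (Seminorm ℂ (OexpT E G)) :=
  {p | ∀ w : G → ℝ, IsWeight w → ∃ M : ℝ, ∀ f : OexpT E G, (∀ x, ‖evT f x‖ ≤ w x) → p f ≤ M}

/-- the family of these seminorms -/
def indFamily : SeminormFamily ℂ (OexpT E G) (indSeminorms E G) := fun p => p.1

instance : Nonempty (indSeminorms E G) := ⟨⟨0, fun _ _ => ⟨0, fun _ _ => le_rfl⟩⟩⟩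

/-- the inductive limit topology -/
instance : TopologicalSpace (OexpT E G) := (indFamily E G).moduleFilterBasis.topology

theorem indFamily_withSeminorms : WithSeminorms (indFamily E G) := ⟨rfl⟩

instance : IsTopologicalAddGroup (OexpT E G) := (indFamily_withSeminorms E G).topologicalAddGroup
instance : ContinuousSMul ℂ (OexpT E G) := (indFamily_withSeminorms E G).continuousSMul

/-! ### the closure of `O_exp(G)` in `O(G)` -/

/-- the closure of `O_exp(G)` in `C(G, ℂ)` (or in `O(G)`) for the compact-open topology -/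
def OexpCl : Submodule ℂ C(G, ℂ) where
  carrier := closure (OexpC E G : Set C(G, ℂ))
  add_mem' ha hb := map_mem_closure₂ continuous_add ha hb fun _ ha _ hb =>
    (OexpC E G).add_mem ha hb
  zero_mem' := subset_closure (OexpC E G).zero_mem
  smul_mem' c _ ha := map_mem_closure (continuous_const_smul c) ha fun _ ha =>
    (OexpC E G).smul_mem ha c

/-- the closure of `O_exp(G)` in `O(G)` -/
def OexpBar : Type _ := OexpCl E G

instance : AddCommGroup (OexpBar E G) := (inferInstance : AddCommGroup (OexpCl E G))
instance : Module ℂ (OexpBar E G) := (inferInstance : Module ℂ (OexpCl E G))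

variable {E G} in
/-- the element of `C(G, ℂ)` -/
def toC (f : OexpBar E G) : C(G, ℂ) := (show OexpCl E G from f).1

variable {E G} in
/-- the value of `f` at `x` -/
def evB (f : OexpBar E G) (x : G) : ℂ := toC f x

/-- uniform convergence on compact sets -/
instance : UniformSpace (OexpBar E G) :=
  UniformSpace.comap toC ContinuousMap.compactConvergenceUniformSpace

instance : IsUniformAddGroup (OexpBar E G) := by
  let F : OexpBar E G →+ (G →ᵤ[{K | IsCompact K}] ℂ) :=
    { toFun := fun f => ContinuousMap.toUniformOnFunIsCompact (toC f)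
      map_zero' := rfl
      map_add' := fun _ _ => rfl }
  have h1 : IsUniformInducing (toC (E := E) (G := G)) := ⟨rfl⟩
  have h2 : IsUniformInducing F :=
    ContinuousMap.isUniformEmbedding_toUniformOnFunIsCompact.isUniformInducing.comp h1
  exact h2.isUniformAddGroup F

theorem isInducing_toC : IsInducing (toC (E := E) (G := G)) := ⟨rfl⟩

instance : ContinuousSMul ℂ (OexpBar E G) := by
  refine ⟨?_⟩
  rw [(isInducing_toC E G).continuous_iff]
  exact continuous_fst.smul ((isInducing_toC E G).continuous.comp continuous_snd)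

/-- the inclusion of `O_exp(G)` in its closure -/
def inclB : OexpT E G →ₗ[ℂ] OexpBar E G where
  toFun f := (⟨(show OexpC E G from f).1, subset_closure (show OexpC E G from f).2⟩ : OexpCl E G)
  map_add' _ _ := rfl
  map_smul' _ _ := rfl

theorem evB_inclB (f : OexpT E G) (x : G) : evB (inclB E G f) x = evT f x := rfl

/-- weights are bounded on compact sets -/
theorem IsWeight.bddOn {G : Type*} [TopologicalSpace G] [Group G] {w : G → ℝ} (hw : IsWeight w)
    {K : Set G} (hK : IsCompact K) : ∃ B : ℝ, 0 ≤ B ∧ ∀ y ∈ K, w y ≤ B := by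
  refine hK.induction_on (p := fun K => ∃ B : ℝ, 0 ≤ B ∧ ∀ y ∈ K, w y ≤ B) ?_ ?_ ?_ ?_
  · exact ⟨0, le_rfl, fun y hy => absurd hy (notMem_empty y)⟩
  · rintro s t hst ⟨B, hB, h⟩
    exact ⟨B, hB, fun y hy => h y (hst hy)⟩
  · rintro s t ⟨B, hB, h⟩ ⟨B', hB', h'⟩
    refine ⟨max B B', le_max_of_le_left hB, fun y hy => ?_⟩
    rcases hy with hy | hy
    · exact (h y hy).trans (le_max_left _ _)
    · exact (h' y hy).trans (le_max_right _ _)
  · intro x _
    obtain ⟨U, hU, M, hM⟩ := hw.locBdd x
    exact ⟨U, mem_nhdsWithin_of_mem_nhds hU, max M 0, le_max_right _ _,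
      fun y hy => (hM y hy).trans (le_max_left _ _)⟩

/-- seminorms of the family are continuous -/
theorem continuous_of_ind {p : Seminorm ℂ (OexpT E G)} (hp : p ∈ indSeminorms E G) :
    Continuous p :=
  (indFamily_withSeminorms E G).continuous_seminorm ⟨p, hp⟩

theorem exists_weight (f : OexpT E G) : ∃ w : G → ℝ, IsWeight w ∧ ∀ x, ‖evT f x‖ ≤ w x :=
  (show OexpC E G from f).2.2

/-- suprema over compact sets -/
theorem exists_supT {K : Set G} (hK : IsCompact K) : ∃ p : Seminorm ℂ (OexpT E G),
    Continuous p ∧ (∀ f x, x ∈ K → ‖evT f x‖ ≤ p f) ∧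
    ∀ (f : OexpT E G) (c : ℝ), 0 ≤ c → (∀ x ∈ K, ‖evT f x‖ ≤ c) → p f ≤ c := by
  have hbdd : ∀ f : OexpT E G, BddAbove (range fun x : K => ‖evT f x‖) := by
    intro f
    obtain ⟨w, hw, hfw⟩ := exists_weight E G f
    obtain ⟨B, hB, h⟩ := hw.bddOn hK
    refine ⟨B, ?_⟩
    rintro _ ⟨x, rfl⟩
    exact (hfw x).trans (h x x.2)
  have hle : ∀ (f : OexpT E G) (x : K), ‖evT f x‖ ≤ ⨆ x : K, ‖evT f x‖ := fun f x =>
    le_ciSup (hbdd f) x
  have h0 : ∀ f : OexpT E G, 0 ≤ ⨆ x : K, ‖evT f x‖ := fun f =>
    Real.iSup_nonneg fun x => norm_nonneg _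
  let p : Seminorm ℂ (OexpT E G) := Seminorm.of (fun f : OexpT E G => ⨆ x : K, ‖evT f x‖)
    (fun f g => by
      refine Real.iSup_le (fun x => ?_) (add_nonneg (h0 f) (h0 g))
      have e : evT (f + g) x = evT f x + evT g x := rfl
      rw [e]
      exact (norm_add_le _ _).trans (add_le_add (hle f x) (hle g x)))
    (fun c f => by
      rw [Real.mul_iSup_of_nonneg (norm_nonneg c)]
      refine iSup_congr fun x => ?_
      have e : evT (c • f) x = c * evT f x := rfl
      rw [e, norm_mul])
  refine ⟨p, continuous_of_ind E G fun w hw => ?_, fun f x hx => hle f ⟨x, hx⟩,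
    fun f c hc h => Real.iSup_le (fun x => h x x.2) hc⟩
  obtain ⟨B, hB, h⟩ := hw.bddOn hK
  exact ⟨B, fun f hf => Real.iSup_le (fun x => (hf x).trans (h x x.2)) hB⟩

theorem continuous_inclB : Continuous (inclB E G) := by
  refine continuous_of_continuousAt_zero (inclB E G) ?_
  rw [ContinuousAt, map_zero, (isInducing_toC E G).tendsto_nhds_iff,
    ContinuousMap.tendsto_iff_forall_isCompact_tendstoUniformlyOn]
  intro K hK
  obtain ⟨p, hp, h1, -⟩ := exists_supT E G hK
  rw [Metric.tendstoUniformlyOn_iff]
  intro ε hε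
  have h2 : ∀ᶠ f in 𝓝 (0 : OexpT E G), p f < ε := by
    have h3 := hp.continuousAt (x := (0 : OexpT E G))
    refine h3.eventually (p := fun t => t < ε) ?_
    rw [map_zero]
    exact Iio_mem_nhds hε
  filter_upwards [h2] with f hf x hx
  have e : dist (toC (0 : OexpBar E G) x) (toC (inclB E G f) x) = ‖evT f x‖ := by
    rw [dist_comm, dist_eq_norm]
    have e1 : toC (0 : OexpBar E G) x = 0 := rfl
    rw [e1, sub_zero]
    rfl
  exact e.trans_lt ((h1 f x hx).trans_lt hf)

/-- the inclusion of `O_exp(G)` in its closure as a continuous linear map -/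
def inclL : OexpT E G →L[ℂ] OexpBar E G := ⟨inclB E G, continuous_inclB E G⟩

/-- the dual map of the inclusion: restriction of functionals -/
def restrL : StrongDual ℂ (OexpBar E G) →ₗ[ℂ] StrongDual ℂ (OexpT E G) where
  toFun φ := φ.comp (inclL E G)
  map_add' _ _ := rfl
  map_smul' _ _ := rfl

/-- the evaluation at `f`, a continuous functional on the strong dual -/
def evalDual (f : OexpT E G) : StrongDual ℂ (StrongDual ℂ (OexpT E G)) :=
  ⟨{ toFun := fun φ => φ f
     map_add' := fun _ _ => rfl
     map_smul' := fun _ _ => rfl }, continuous_eval_const f⟩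

end spaces

end HolRefl
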