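import Pool.Agent.W_06f097_h35.FA
import Pool.Agent.W_06f097_h35.FB
import Pool.Agent.W_06f097_h35.RB
import Pool.Agent.W_06f097_h35.RC

/-! Holomorphic reflexivity: density of the point evaluations, inductive limit. -/

open scoped Topology ContDiff Manifold BoundedContinuousFunction UniformConvergence
open Set Filter Topology Bornology

noncomputable section

namespace HolRefl.Pf

variable {E : Type*} [NormedAddCommGroup E] [NormedSpace ℂ E]
variable {G : Type*} [TopologicalSpace G] [ChartedSpace E G] [Group G] [IsTopologicalGroup G]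
  [LocallyCompactSpace G] [T2Space G] (X : Ctx E G)

section aux

omit [IsTopologicalGroup G] [LocallyCompactSpace G] [T2Space G] in
theorem re2_cont (f : OexpT E G) : Continuous (fun x => evT f x) :=
  (show OexpC E G from f).1.continuous

/-- the functions of growth at most `exp (R σ)` -/
def re2V (E : Type*) [NormedAddCommGroup E] [NormedSpace ℂ E] {G : Type*} [TopologicalSpace G]
    [ChartedSpace E G] [Group G] (W : G → ℝ) : Submodule ℂ (OexpT E G) where
  carrier := {f | ∃ B : ℝ, ∀ x, ‖evT f x‖ ≤ B * W x}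
  add_mem' := by
    rintro f g ⟨B, hB⟩ ⟨B', hB'⟩
    refine ⟨B + B', fun x => ?_⟩
    rw [evT_add, add_mul]
    exact (norm_add_le _ _).trans (add_le_add (hB x) (hB' x))
  zero_mem' := ⟨0, fun x => by rw [evT_zero, norm_zero, zero_mul]⟩
  smul_mem' := by
    rintro c f ⟨B, hB⟩
    refine ⟨‖c‖ * B, fun x => ?_⟩
    rw [evT_smul, norm_mul, mul_assoc]
    exact mul_le_mul_of_nonneg_left (hB x) (norm_nonneg c)

/-- multiplication by `m` -/
def re2T (E : Type*) [NormedAddCommGroup E] [NormedSpace ℂ E] {G : Type*} [TopologicalSpace G]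
    [ChartedSpace E G] [Group G] (W m : G → ℝ) (hW : ∀ x, 0 ≤ W x) (hm : Continuous m)
    (hmW : ∀ x, |m x| * W x ≤ 1) : re2V E W →ₗ[ℂ] (G →ᵇ ℂ) where
  toFun f := BoundedContinuousFunction.ofNormedAddCommGroup (fun x => (m x : ℂ) * evT f.1 x)
    ((Complex.continuous_ofReal.comp hm).mul (re2_cont f.1)) |Classical.choose f.2| (fun x => by
      have h1 : ‖evT f.1 x‖ ≤ Classical.choose f.2 * W x := Classical.choose_spec f.2 x
      have h2 : Classical.choose f.2 * W x ≤ |Classical.choose f.2| * W x :=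
        mul_le_mul_of_nonneg_right (le_abs_self _) (hW x)
      rw [norm_mul, Complex.norm_real, Real.norm_eq_abs]
      calc |m x| * ‖evT f.1 x‖ ≤ |m x| * (|Classical.choose f.2| * W x) :=
            mul_le_mul_of_nonneg_left (h1.trans h2) (abs_nonneg _)
        _ = (|m x| * W x) * |Classical.choose f.2| := by ring
        _ ≤ 1 * |Classical.choose f.2| := mul_le_mul_of_nonneg_right (hmW x) (abs_nonneg _)
        _ = _ := one_mul _)
  map_add' f g := by
    ext x
    change (m x : ℂ) * evT (f.1 + g.1) x = (m x : ℂ) * evT f.1 x + (m x : ℂ) * evT g.1 x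
    rw [evT_add, mul_add]
  map_smul' c f := by
    ext x
    change (m x : ℂ) * evT (c • f.1) x = c * ((m x : ℂ) * evT f.1 x)
    rw [evT_smul]
    ring

theorem re2T_apply {E : Type*} [NormedAddCommGroup E] [NormedSpace ℂ E] {G : Type*}
    [TopologicalSpace G] [ChartedSpace E G] [Group G] (W m : G → ℝ) (hW : ∀ x, 0 ≤ W x)
    (hm : Continuous m) (hmW : ∀ x, |m x| * W x ≤ 1) (f : re2V E W) (x : G) :
    re2T E W m hW hm hmW f x = (m x : ℂ) * evT f.1 x := rfl

end aux

include X

/-- Proof. Let `w ≤ M exp (R σ)`, `R' = R + 1`, `m = exp (- R' σ)`, `V` the submodule of all `f` in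
`OexpT E G` such that `m f` is bounded, `T f = m f`. Since `Φ` is bounded on
`DW E (exp (R' σ))` (`T_bound`), `|Φ f| ≤ C ‖T f‖` for `f` in `V`. For `f` in `DW E w`,
`|m f| ≤ M exp (- σ)`, which tends to `0` at infinity; equicontinuity by `rc_equi` and the
continuity of `m`. Apply `approx_functional`. -/
theorem density_T (Φ : StrongDual ℂ (OexpT E G)) {w : G → ℝ} (hw : IsWeight w) {ε : ℝ}
    (hε : 0 < ε) :
    ∃ (s : Finset G) (c : G → ℂ), ∀ f ∈ DW E w, ‖Φ f - ∑ x ∈ s, c x * evT f x‖ ≤ ε := by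
  obtain ⟨M, R, hM, hR, hdom⟩ := X.dom w hw
  have hM0 : 0 < M := lt_of_lt_of_le one_pos hM
  let W : G → ℝ := fun x => Real.exp ((R + 1) * X.σ x)
  let m : G → ℝ := fun x => Real.exp (-((R + 1) * X.σ x))
  have hW0 : ∀ x, 0 < W x := fun x => Real.exp_pos _
  have hW : ∀ x, 0 ≤ W x := fun x => (hW0 x).le
  have hm0 : ∀ x, 0 < m x := fun x => Real.exp_pos _
  have hm : Continuous m := Real.continuous_exp.comp ((continuous_const.mul X.cont).neg)
  have hmW' : ∀ x, m x * W x = 1 := fun x => by
    simp only [m, W]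
    rw [← Real.exp_add, neg_add_cancel, Real.exp_zero]
  have hmW : ∀ x, |m x| * W x ≤ 1 := fun x => by
    rw [abs_of_pos (hm0 x)]
    exact (hmW' x).le
  have hm1 : ∀ x, m x ≤ 1 := fun x => by
    have h1 : 0 ≤ (R + 1) * X.σ x := mul_nonneg (by linarith) (X.nonneg x)
    exact Real.exp_le_one_iff.2 (by linarith)
  have hWw : IsWeight W := by
    have h1 := X.weight (M := 1) (R := R + 1) le_rfl (by linarith)
    have e : (fun x => 1 * Real.exp ((R + 1) * X.σ x)) = W := by
      funext x
      exact one_mul _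
    rwa [e] at h1
  -- the functional on `V`
  have hpc : Continuous ((normSeminorm ℂ ℂ).comp (Φ : OexpT E G →ₗ[ℂ] ℂ)) := Φ.continuous.norm
  obtain ⟨C, hC0, hC⟩ := T_bound _ hpc hWw
  let T := re2T E W m hW hm hmW
  have hφ : ∀ v : re2V E W, ‖((Φ : OexpT E G →ₗ[ℂ] ℂ).comp (re2V E W).subtype) v‖
      ≤ C * ‖T v‖ := by
    intro v
    have h1 : ∀ x, ‖evT v.1 x‖ ≤ ‖T v‖ * W x := by
      intro x
      have h2 : ‖T v x‖ ≤ ‖T v‖ := (T v).norm_coe_le_norm x
      have h3 : ‖T v x‖ = m x * ‖evT v.1 x‖ := by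
        change ‖re2T E W m hW hm hmW v x‖ = _
        rw [re2T_apply, norm_mul, Complex.norm_real, Real.norm_of_nonneg (hm0 x).le]
      rw [h3] at h2
      calc ‖evT v.1 x‖ = (m x * W x) * ‖evT v.1 x‖ := by rw [hmW' x, one_mul]
        _ = (m x * ‖evT v.1 x‖) * W x := by ring
        _ ≤ ‖T v‖ * W x := mul_le_mul_of_nonneg_right h2 (hW x)
    change ‖Φ v.1‖ ≤ C * ‖T v‖
    rcases (norm_nonneg (T v)).eq_or_lt with h0 | h0
    · have h2 : v.1 = 0 := evT_ext fun x => by
        have h3 := h1 x
        rw [← h0, zero_mul] at h3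
        rw [evT_zero]
        exact norm_le_zero_iff.1 h3
      rw [h2, map_zero, norm_zero]
      exact mul_nonneg hC0 (norm_nonneg _)
    · have h2 : ((‖T v‖⁻¹ : ℝ) : ℂ) • v.1 ∈ DW E W := by
        intro x
        rw [evT_smul, norm_mul, Complex.norm_real, Real.norm_of_nonneg (by positivity),
          inv_mul_le_iff₀ h0]
        exact h1 x
      have h3 : ‖Φ (((‖T v‖⁻¹ : ℝ) : ℂ) • v.1)‖ ≤ C := hC _ h2
      rw [map_smul, smul_eq_mul, norm_mul, Complex.norm_real,
        Real.norm_of_nonneg (by positivity), inv_mul_le_iff₀ h0, mul_comm] at h3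
      exact h3
  have hTn : ∀ (v : re2V E W) (x : G), ‖T v x‖ = m x * ‖evT v.1 x‖ := by
    intro v x
    change ‖re2T E W m hW hm hmW v x‖ = _
    rw [re2T_apply, norm_mul, Complex.norm_real, Real.norm_of_nonneg (hm0 x).le]
  obtain ⟨s, c, hs⟩ := approx_functional T _ hφ {v | v.1 ∈ DW E w}
    (fun x ε hε => by
      obtain ⟨K, hK, hKe⟩ := X.C.rc_equi x
      obtain ⟨B, hB⟩ := (hK.insert x).bddAbove_image (f := fun y => M * Real.exp (R * X.σ y))
        (continuous_const.mul (Real.continuous_exp.comp (continuous_const.mul X.cont))).continuousOn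
      have hB' : ∀ y ∈ insert x K, w y ≤ B := fun y hy =>
        (hdom y).trans (hB ⟨y, hy, rfl⟩)
      have hB0 : 0 ≤ B := by
        have h1 : M * Real.exp (R * X.σ x) ≤ B := hB ⟨x, mem_insert _ _, rfl⟩
        exact le_trans (by positivity) h1
      have hε1 : 0 < ε / (2 * (B + 1)) := by positivity
      obtain ⟨U, hU, hUe⟩ := hKe _ hε1
      have hmU : ∀ᶠ y in 𝓝 x, |m y - m x| < ε / (2 * (B + 1)) := by
        have h1 := (hm.tendsto x) (Metric.ball_mem_nhds (m x) hε1)
        filter_upwards [h1] with y hy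
        rw [mem_preimage, Metric.mem_ball, Real.dist_eq] at hy
        exact hy
      refine ⟨_, inter_mem hU hmU, ?_⟩
      rintro v hv y ⟨hy1, hy2⟩
      have h1 : ‖evT v.1 y - evT v.1 x‖ ≤ ε / (2 * (B + 1)) * B :=
        hUe (fun z => evT v.1 z) B (evT_hol X v.1)
          (fun z hz => (hv z).trans (hB' z (mem_insert_of_mem _ hz))) y hy1
      have h2 : ‖evT v.1 x‖ ≤ B := (hv x).trans (hB' x (mem_insert _ _))
      have h3 : T v y - T v x = (m y : ℂ) * (evT v.1 y - evT v.1 x)
          + ((m y - m x : ℝ) : ℂ) * evT v.1 x := by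
        change re2T E W m hW hm hmW v y - re2T E W m hW hm hmW v x = _
        rw [re2T_apply, re2T_apply]
        push_cast
        ring
      have hy2' : |m y - m x| < ε / (2 * (B + 1)) := hy2
      rw [h3]
      refine (norm_add_le _ _).trans ?_
      rw [norm_mul, norm_mul, Complex.norm_real, Complex.norm_real,
        Real.norm_of_nonneg (hm0 y).le, Real.norm_eq_abs]
      calc m y * ‖evT v.1 y - evT v.1 x‖ + |m y - m x| * ‖evT v.1 x‖
          ≤ 1 * (ε / (2 * (B + 1)) * B) + ε / (2 * (B + 1)) * B :=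
            add_le_add (mul_le_mul (hm1 y) h1 (norm_nonneg _) zero_le_one)
              (mul_le_mul hy2'.le h2 (norm_nonneg _) hε1.le)
        _ = ε * (B / (B + 1)) := by
            field_simp
            ring
        _ ≤ ε * 1 := by
            refine mul_le_mul_of_nonneg_left ?_ hε.le
            rw [div_le_one (by positivity)]
            linarith
        _ = ε := mul_one ε)
    (fun ε hε => by
      refine ⟨{x | X.σ x ≤ Real.log (M / ε)}, X.proper _, ?_⟩
      intro v hv y hy
      have hy' : Real.log (M / ε) < X.σ y := not_le.1 hy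
      have h1 : ‖evT v.1 y‖ ≤ M * Real.exp (R * X.σ y) := (hv y).trans (hdom y)
      rw [hTn]
      calc m y * ‖evT v.1 y‖ ≤ m y * (M * Real.exp (R * X.σ y)) :=
            mul_le_mul_of_nonneg_left h1 (hm0 y).le
        _ = M * Real.exp (-X.σ y) := by
            simp only [m]
            rw [mul_left_comm, ← Real.exp_add]
            congr 2
            ring
        _ ≤ M * Real.exp (-Real.log (M / ε)) := by
            refine mul_le_mul_of_nonneg_left ?_ hM0.le
            exact Real.exp_le_exp.2 (by linarith)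
        _ = ε := by
            rw [Real.exp_neg, Real.exp_log (by positivity)]
            field_simp) hε
  refine ⟨s, fun x => c x * (m x : ℂ), fun f hf => ?_⟩
  have hfV : f ∈ re2V E W := by
    refine ⟨M, fun x => ((hf x).trans (hdom x)).trans ?_⟩
    refine mul_le_mul_of_nonneg_left ?_ hM0.le
    exact Real.exp_le_exp.2 (mul_le_mul_of_nonneg_right (by linarith) (X.nonneg x))
  have h1 := hs ⟨f, hfV⟩ hf
  have e : ∑ x ∈ s, c x * T ⟨f, hfV⟩ x = ∑ x ∈ s, c x * (m x : ℂ) * evT f x := by
    refine Finset.sum_congr rfl fun x _ => ?_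
    change c x * re2T E W m hW hm hmW ⟨f, hfV⟩ x = _
    rw [re2T_apply, mul_assoc]
  rw [e] at h1
  exact h1

end HolRefl.Pf
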