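import Pool.Agent.W_06f097_h35.RE1
import Pool.Agent.W_06f097_h35.RE2

/-! Holomorphic reflexivity: functionals on the strong duals. -/

open scoped Topology ContDiff Manifold BoundedContinuousFunction UniformConvergence
open Set Filter Topology Bornology

noncomputable section

namespace HolRefl.Pf

variable {E : Type*} [NormedAddCommGroup E] [NormedSpace ℂ E]
variable {G : Type*} [TopologicalSpace G] [ChartedSpace E G] [Group G] [IsTopologicalGroup G]
  [LocallyCompactSpace G] [T2Space G] (X : Ctx E G)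

include X

/-- a continuous functional on the strong dual which agrees with `f` on the point evaluations is
the evaluation at `f` (`dual_bound` for the seminorm `|Λ Φ - Φ f|`, then `density_B`) -/
theorem dual_eq_B (Λ : StrongDual ℂ (OexpBar E G) →ₗ[ℂ] ℂ) (hΛ : Continuous Λ) (f : OexpBar E G)
    (h : ∀ (x : G) (δ : StrongDual ℂ (OexpBar E G)), (∀ g, δ g = evB g x) → Λ δ = evB f x)
    (Φ : StrongDual ℂ (OexpBar E G)) : Λ Φ = Φ f := by
  choose δ hδ using exists_deltaB (E := E) (G := G)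
  obtain ⟨D, hD⟩ : ∃ D : StrongDual ℂ (OexpBar E G) →ₗ[ℂ] ℂ, ∀ φ, D φ = Λ φ - φ f :=
    ⟨Λ - { toFun := fun φ => φ f
           map_add' := fun _ _ => rfl
           map_smul' := fun _ _ => rfl }, fun φ => rfl⟩
  have hDc : Continuous D := by
    have h1 : (D : StrongDual ℂ (OexpBar E G) → ℂ) = fun φ => Λ φ - φ f := funext hD
    rw [h1]
    exact hΛ.sub (continuous_eval_const f)
  obtain ⟨S, hS, M, hM, hq⟩ := dual_bound ((normSeminorm ℂ ℂ).comp D)
    (continuous_norm.comp hDc)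
  have hM0 : 0 < M := lt_of_lt_of_le one_pos hM
  have key : ∀ ε : ℝ, 0 < ε → ‖D Φ‖ ≤ M * ε := by
    intro ε hε
    obtain ⟨s, c, hs⟩ := density_B X Φ hS hε
    have h2 := hq (Φ - ∑ x ∈ s, c x • δ x) ε hε.le (fun g hg => by
      have h3 : (Φ - ∑ x ∈ s, c x • δ x) g = Φ g - ∑ x ∈ s, c x * evB g x := by
        simp [hδ]
      rw [h3]
      exact hs g hg)
    have h4 : D (Φ - ∑ x ∈ s, c x • δ x) = D Φ := by
      have h5 : ∀ x, D (δ x) = 0 := fun x => by
        rw [hD, h x (δ x) (hδ x), hδ, sub_self]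
      simp [map_sub, map_sum, h5]
    have h6 : ‖D (Φ - ∑ x ∈ s, c x • δ x)‖ ≤ M * ε := h2
    rw [h4] at h6
    exact h6
  have h7 : ‖D Φ‖ ≤ 0 := by
    refine le_of_forall_pos_le_add fun ε hε => ?_
    have h8 := key (ε / M) (div_pos hε hM0)
    rw [mul_div_cancel₀ _ hM0.ne'] at h8
    linarith
  have h9 : D Φ = 0 := norm_le_zero_iff.1 h7
  rw [hD] at h9
  exact sub_eq_zero.1 h9

theorem dual_eq_T (Λ : StrongDual ℂ (OexpT E G) →ₗ[ℂ] ℂ) (hΛ : Continuous Λ) (f : OexpT E G)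
    (h : ∀ (x : G) (δ : StrongDual ℂ (OexpT E G)), (∀ g, δ g = evT g x) → Λ δ = evT f x)
    (Φ : StrongDual ℂ (OexpT E G)) : Λ Φ = Φ f := by
  choose δ hδ using exists_deltaT (E := E) (G := G)
  obtain ⟨D, hD⟩ : ∃ D : StrongDual ℂ (OexpT E G) →ₗ[ℂ] ℂ, ∀ φ, D φ = Λ φ - φ f :=
    ⟨Λ - { toFun := fun φ => φ f
           map_add' := fun _ _ => rfl
           map_smul' := fun _ _ => rfl }, fun φ => rfl⟩
  have hDc : Continuous D := by
    have h1 : (D : StrongDual ℂ (OexpT E G) → ℂ) = fun φ => Λ φ - φ f := funext hD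
    rw [h1]
    exact hΛ.sub (continuous_eval_const f)
  obtain ⟨S, hS, M, hM, hq⟩ := dual_bound ((normSeminorm ℂ ℂ).comp D)
    (continuous_norm.comp hDc)
  have hM0 : 0 < M := lt_of_lt_of_le one_pos hM
  obtain ⟨w, hw, hSw⟩ := T_bdd X hS
  have key : ∀ ε : ℝ, 0 < ε → ‖D Φ‖ ≤ M * ε := by
    intro ε hε
    obtain ⟨s, c, hs⟩ := density_T X Φ hw hε
    have h2 := hq (Φ - ∑ x ∈ s, c x • δ x) ε hε.le (fun g hg => by
      have h3 : (Φ - ∑ x ∈ s, c x • δ x) g = Φ g - ∑ x ∈ s, c x * evT g x := by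
        simp [hδ]
      rw [h3]
      exact hs g (hSw hg))
    have h4 : D (Φ - ∑ x ∈ s, c x • δ x) = D Φ := by
      have h5 : ∀ x, D (δ x) = 0 := fun x => by
        rw [hD, h x (δ x) (hδ x), hδ, sub_self]
      simp [map_sub, map_sum, h5]
    have h6 : ‖D (Φ - ∑ x ∈ s, c x • δ x)‖ ≤ M * ε := h2
    rw [h4] at h6
    exact h6
  have h7 : ‖D Φ‖ ≤ 0 := by
    refine le_of_forall_pos_le_add fun ε hε => ?_
    have h8 := key (ε / M) (div_pos hε hM0)
    rw [mul_div_cancel₀ _ hM0.ne'] at h8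
    linarith
  have h9 : D Φ = 0 := norm_le_zero_iff.1 h7
  rw [hD] at h9
  exact sub_eq_zero.1 h9

theorem restrL_dense : DenseRange (restrL E G) := by
  choose δT hδT using exists_deltaT (E := E) (G := G)
  choose δB hδB using exists_deltaB (E := E) (G := G)
  intro Φ
  rw [mem_closure_iff_nhds]
  intro t ht
  have h1 : Continuous fun ψ : StrongDual ℂ (OexpT E G) => Φ + ψ := continuous_const.add continuous_id
  have h2 : (fun ψ : StrongDual ℂ (OexpT E G) => Φ + ψ) ⁻¹' t ∈ 𝓝 0 := by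
    refine h1.continuousAt.preimage_mem_nhds ?_
    rw [add_zero]
    exact ht
  obtain ⟨⟨S, V⟩, ⟨hS, hV⟩, hsub⟩ := (ContinuousLinearMap.hasBasis_nhds_zero.mem_iff).1 h2
  obtain ⟨ε, hε, hεV⟩ := Metric.nhds_basis_closedBall.mem_iff.1 hV
  obtain ⟨w, hw, hSw⟩ := T_bdd X hS
  obtain ⟨s, c, hs⟩ := density_T X Φ hw hε
  refine ⟨restrL E G (∑ x ∈ s, c x • δB x), ?_, mem_range_self _⟩
  have h3 : restrL E G (∑ x ∈ s, c x • δB x) - Φ ∈
      {f : StrongDual ℂ (OexpT E G) | ∀ x ∈ S, f x ∈ V} := by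
    intro g hg
    refine hεV ?_
    rw [mem_closedBall_zero_iff]
    have h4 : (restrL E G (∑ x ∈ s, c x • δB x) - Φ) g = -(Φ g - ∑ x ∈ s, c x * evT g x) := by
      have h5 : ∀ x, (δB x) (inclB E G g) = evT g x := fun x => by
        rw [hδB, evB_inclB]
      have h6 : restrL E G (∑ x ∈ s, c x • δB x) g = ∑ x ∈ s, c x * evT g x := by
        have h7 : restrL E G (∑ x ∈ s, c x • δB x) g = (∑ x ∈ s, c x • δB x) (inclB E G g) := rfl
        rw [h7]
        simp [h5]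
      rw [sub_apply, h6, neg_sub]
    rw [h4, norm_neg]
    exact hs g (hSw hg)
  have h8 := hsub h3
  have h9 : Φ + (restrL E G (∑ x ∈ s, c x • δB x) - Φ) ∈ t := h8
  rw [add_sub_cancel] at h9
  exact h9

end HolRefl.Pf
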