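import Pool.Agent.W_06f097_h35.FA
import Pool.Agent.W_06f097_h35.FB
import Pool.Agent.W_06f097_h35.RB
import Pool.Agent.W_06f097_h35.RC

/-! Holomorphic reflexivity: density of the point evaluations, closure. -/

open scoped Topology ContDiff Manifold BoundedContinuousFunction UniformConvergence
open Set Filter Topology Bornology

noncomputable section

namespace HolRefl.Pf

variable {E : Type*} [NormedAddCommGroup E] [NormedSpace ℂ E]
variable {G : Type*} [TopologicalSpace G] [ChartedSpace E G] [Group G] [IsTopologicalGroup G]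
  [LocallyCompactSpace G] [T2Space G] (X : Ctx E G)

include X

/-- Proof. `|Φ f| ≤ M sup_K |f|` (`B_functional_bound`); let `χ` be continuous with compact support
and `χ = 1` on `K`. Apply `approx_functional` to `V = OexpBar E G`, `T f = χ f`; equicontinuity on
`S` by `rc_equi` and the continuity of `χ`. -/
theorem density_B (Φ : StrongDual ℂ (OexpBar E G)) {S : Set (OexpBar E G)}
    (hS : IsVonNBounded ℂ S) {ε : ℝ} (hε : 0 < ε) :
    ∃ (s : Finset G) (c : G → ℂ), ∀ f ∈ S, ‖Φ f - ∑ x ∈ s, c x * evB f x‖ ≤ ε := by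
  obtain ⟨K, hK, M, _, hΦ⟩ := B_functional_bound Φ
  obtain ⟨χ, hχ1, _, hχc, hχ01⟩ := exists_continuous_one_zero_of_isCompact hK isClosed_empty
    (disjoint_empty K)
  have hcont : ∀ f : OexpBar E G, Continuous fun y => ((χ y : ℝ) : ℂ) * evB f y := fun f =>
    (Complex.continuous_ofReal.comp χ.continuous).mul (evB_continuous f)
  have hsupp : ∀ (f : OexpBar E G) (y : G), y ∉ tsupport χ → ((χ y : ℝ) : ℂ) * evB f y = 0 := by
    intro f y hy
    rw [image_eq_zero_of_notMem_tsupport hy, Complex.ofReal_zero, zero_mul]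
  have hbd : ∀ f : OexpBar E G, ∃ C : ℝ, ∀ y, ‖((χ y : ℝ) : ℂ) * evB f y‖ ≤ C := by
    intro f
    have h1 : HasCompactSupport fun y => ((χ y : ℝ) : ℂ) * evB f y := by
      refine HasCompactSupport.intro hχc fun y hy => hsupp f y hy
    exact h1.exists_bound_of_continuous (hcont f)
  let T : OexpBar E G →ₗ[ℂ] (G →ᵇ ℂ) :=
    { toFun := fun f => BoundedContinuousFunction.ofNormedAddCommGroup
        (fun y => ((χ y : ℝ) : ℂ) * evB f y) (hcont f) (hbd f).choose (hbd f).choose_spec
      map_add' := fun f g => by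
        ext y
        change ((χ y : ℝ) : ℂ) * evB (f + g) y
          = ((χ y : ℝ) : ℂ) * evB f y + ((χ y : ℝ) : ℂ) * evB g y
        rw [evB_add, mul_add]
      map_smul' := fun a f => by
        ext y
        change ((χ y : ℝ) : ℂ) * evB (a • f) y = a * (((χ y : ℝ) : ℂ) * evB f y)
        rw [evB_smul]
        ring }
  have hT : ∀ f y, T f y = ((χ y : ℝ) : ℂ) * evB f y := fun _ _ => rfl
  have hχn : ∀ y, ‖((χ y : ℝ) : ℂ)‖ ≤ 1 := fun y => by
    rw [Complex.norm_real, Real.norm_of_nonneg (hχ01 y).1]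
    exact (hχ01 y).2
  obtain ⟨s, c, hs⟩ := approx_functional T (Φ : OexpBar E G →ₗ[ℂ] ℂ) (C := M)
    (fun f => by
      refine hΦ f _ (norm_nonneg _) fun x hx => ?_
      have h1 : evB f x = T f x := by
        rw [hT, hχ1 hx]
        simp
      rw [h1]
      exact (T f).norm_coe_le_norm x) S
    (fun x ε hε => by
      obtain ⟨K', hK', hU⟩ := X.C.rc_equi x
      obtain ⟨B, hB⟩ := B_bdd_iff.mp hS (K' ∪ {x}) (hK'.union isCompact_singleton)
      obtain ⟨U, hUx, hUe⟩ := hU (ε / 2 / (|B| + 1)) (by positivity)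
      have h1 : ∀ᶠ y in 𝓝 x, |χ y - χ x| < ε / 2 / (|B| + 1) := by
        have h2 := (χ.continuous.continuousAt (x := x))
        have h3 := Metric.tendsto_nhds.mp h2 (ε / 2 / (|B| + 1)) (by positivity)
        simpa [Real.dist_eq] using h3
      refine ⟨U ∩ {y | |χ y - χ x| < ε / 2 / (|B| + 1)}, Filter.inter_mem hUx h1, ?_⟩
      rintro f hf y ⟨hyU, hy⟩
      have hBx : ‖evB f x‖ ≤ |B| + 1 :=
        (hB f hf x (Or.inr rfl)).trans ((le_abs_self B).trans (by linarith))
      have h4 := hUe (fun z => evB f z) (|B| + 1) (B_hol X f) (fun z hz =>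
        (hB f hf z (Or.inl hz)).trans ((le_abs_self B).trans (by linarith))) y hyU
      have h5 : ε / 2 / (|B| + 1) * (|B| + 1) = ε / 2 := by
        field_simp
      rw [h5] at h4
      have h6 : T f y - T f x = ((χ y : ℝ) : ℂ) * (evB f y - evB f x)
          + ((χ y - χ x : ℝ) : ℂ) * evB f x := by
        rw [hT, hT]
        push_cast
        ring
      rw [h6]
      refine (norm_add_le _ _).trans ?_
      have h9 : ‖((χ y - χ x : ℝ) : ℂ)‖ = |χ y - χ x| := by
        rw [Complex.norm_real, Real.norm_eq_abs]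
      rw [norm_mul, norm_mul, h9]
      have h7 : ‖((χ y : ℝ) : ℂ)‖ * ‖evB f y - evB f x‖ ≤ 1 * (ε / 2) :=
        mul_le_mul (hχn y) h4 (norm_nonneg _) zero_le_one
      have h8 : |χ y - χ x| * ‖evB f x‖ ≤ ε / 2 / (|B| + 1) * (|B| + 1) :=
        mul_le_mul (le_of_lt hy) hBx (norm_nonneg _) (by positivity)
      rw [h5] at h8
      linarith)
    (fun ε hε => ⟨tsupport χ, hχc, fun f _ y hy => by
      rw [hT, hsupp f y hy, norm_zero]
      exact hε.le⟩) hε
  refine ⟨s, fun x => c x * ((χ x : ℝ) : ℂ), fun f hf => ?_⟩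
  have h1 := hs f hf
  have h2 : ∑ x ∈ s, c x * ((χ x : ℝ) : ℂ) * evB f x = ∑ x ∈ s, c x * T f x :=
    Finset.sum_congr rfl fun x _ => by rw [hT]; ring
  rw [h2]
  exact h1

end HolRefl.Pf
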