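import Pool.Agent.W_06f097_h35.FA
import Pool.Agent.W_06f097_h35.RB
import Pool.Agent.W_06f097_h35.RC

/-! Holomorphic reflexivity: functionals on the strong dual give holomorphic functions. -/

open scoped Topology ContDiff Manifold
open Set Filter Topology Bornology

noncomputable section

namespace HolRefl.Pf

variable {E : Type*} [NormedAddCommGroup E] [NormedSpace ℂ E]
variable {G : Type*} [TopologicalSpace G] [ChartedSpace E G] [Group G] [IsTopologicalGroup G]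
  [LocallyCompactSpace G] [T2Space G] (X : Ctx E G)

/-- the derivative of the point evaluation: `v ↦ (f ↦ derivative of z ↦ f (x ψ(z)) at 0 in
direction v)` (continuity by the first part of `rc_taylor`) -/
theorem exists_derivB (x : G) : ∃ D : HR.En X.n →ₗ[ℂ] StrongDual ℂ (OexpBar E G),
    ∀ v f, D v f = fderiv ℂ (fun z => evB f (x * X.C.ψ z)) 0 v := by
  obtain ⟨K, hK, -, δ, -, M, hM, h⟩ := X.C.rc_taylor x
  have hd : ∀ f : OexpBar E G, DifferentiableAt ℂ (fun z => evB f (x * X.C.ψ z)) 0 :=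
    fun f => B_hol X f x
  have hadd : ∀ (f g : OexpBar E G), fderiv ℂ (fun z => evB (f + g) (x * X.C.ψ z)) 0 =
      fderiv ℂ (fun z => evB f (x * X.C.ψ z)) 0 + fderiv ℂ (fun z => evB g (x * X.C.ψ z)) 0 :=
    fun f g => ((hd f).hasFDerivAt.add (hd g).hasFDerivAt).fderiv
  have hsmul : ∀ (c : ℂ) (f : OexpBar E G), fderiv ℂ (fun z => evB (c • f) (x * X.C.ψ z)) 0 =
      c • fderiv ℂ (fun z => evB f (x * X.C.ψ z)) 0 :=
    fun c f => ((hd f).hasFDerivAt.const_smul c).fderiv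
  have hφ : ∀ v : HR.En X.n, ∃ Φ : StrongDual ℂ (OexpBar E G),
      ∀ f, Φ f = fderiv ℂ (fun z => evB f (x * X.C.ψ z)) 0 v := by
    intro v
    let φ : OexpBar E G →ₗ[ℂ] ℂ :=
      { toFun := fun f => fderiv ℂ (fun z => evB f (x * X.C.ψ z)) 0 v
        map_add' := fun f g => by rw [hadd]; rfl
        map_smul' := fun c f => by rw [hsmul]; rfl }
    refine B_functional φ hK (M := M * ‖v‖) fun f c _ hc => ?_
    have h1 := (h (fun y => evB f y) c (B_hol X f) hc).1 v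
    have h2 : M * c * ‖v‖ = M * ‖v‖ * c := by ring
    rw [← h2]
    exact h1
  choose Φ hΦ using hφ
  refine ⟨{ toFun := Φ, map_add' := fun v w => ?_, map_smul' := fun c v => ?_ }, hΦ⟩
  · refine ContinuousLinearMap.ext fun f => ?_
    have e : (Φ v + Φ w) f = Φ v f + Φ w f := rfl
    rw [e, hΦ, hΦ, hΦ, map_add]
  · refine ContinuousLinearMap.ext fun f => ?_
    have e : ((RingHom.id ℂ) c • Φ v) f = c • Φ v f := rfl
    rw [e, hΦ, hΦ, map_smul]

/-- Proof. `|Λ Φ| ≤ M sup_S |Φ|` for a bounded set `S` (`dual_bound` for the seminorm `|Λ Φ|`). By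
`rc_taylor`, `|Λ (δ (x ψ(z))) - Λ (δ x) - Λ (D z)| ≤ M' |z|²`, so `z ↦ Λ (δ (x ψ(z)))` has the
derivative `z ↦ Λ (D z)` at `0`. -/
theorem hol_dual (Λ : StrongDual ℂ (OexpBar E G) →ₗ[ℂ] ℂ) (hΛ : Continuous Λ)
    (δ : G → StrongDual ℂ (OexpBar E G)) (hδ : ∀ x f, δ x f = evB f x) :
    X.C.Hol (fun x => Λ (δ x)) := by
  intro x
  obtain ⟨D, hD⟩ := exists_derivB X x
  obtain ⟨K, hK, -, ρ, hρ, M, hM, h⟩ := X.C.rc_taylor x
  have hp : Continuous ((normSeminorm ℂ ℂ).comp Λ) := continuous_norm.comp hΛ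
  obtain ⟨S, hS, M', hM', h'⟩ := dual_bound ((normSeminorm ℂ ℂ).comp Λ) hp
  obtain ⟨B, hB⟩ := B_bdd_iff.1 hS K hK
  have hB' : ∀ f ∈ S, ∀ y ∈ K, ‖evB f y‖ ≤ max B 0 := fun f hf y hy =>
    (hB f hf y hy).trans (le_max_left _ _)
  have key : ∀ z ∈ Metric.ball (0 : HR.En X.n) ρ,
      ‖Λ (δ (x * X.C.ψ z)) - Λ (δ x) - Λ (D z)‖ ≤ M' * (M * max B 0) * ‖z‖ ^ 2 := by
    intro z hz
    have h1 := h' (δ (x * X.C.ψ z) - δ x - D z) (M * max B 0 * ‖z‖ ^ 2)
      (mul_nonneg (mul_nonneg hM (le_max_right _ _)) (sq_nonneg _)) (fun f hf => by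
        have h2 := (h (fun y => evB f y) (max B 0) (B_hol X f) (hB' f hf)).2 z hz
        have e : (δ (x * X.C.ψ z) - δ x - D z) f =
            δ (x * X.C.ψ z) f - δ x f - D z f := rfl
        rw [e, hδ, hδ, hD]
        exact h2)
    have e2 : ((normSeminorm ℂ ℂ).comp Λ) (δ (x * X.C.ψ z) - δ x - D z) =
        ‖Λ (δ (x * X.C.ψ z)) - Λ (δ x) - Λ (D z)‖ := by
      rw [← map_sub, ← map_sub]
      rfl
    rw [e2] at h1
    refine h1.trans (le_of_eq ?_)
    ring
  have hder : HasFDerivAt (fun z => Λ (δ (x * X.C.ψ z)))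
      (LinearMap.toContinuousLinearMap (Λ ∘ₗ D)) 0 := by
    rw [hasFDerivAt_iff_isLittleO_nhds_zero]
    refine Asymptotics.IsBigO.trans_isLittleO ?_
      (Asymptotics.isLittleO_norm_pow_id (E' := HR.En X.n) one_lt_two)
    refine Asymptotics.IsBigO.of_bound (M' * (M * max B 0)) ?_
    filter_upwards [Metric.ball_mem_nhds (0 : HR.En X.n) hρ] with z hz
    have h3 := key z hz
    have e3 : Λ (δ (x * X.C.ψ (0 + z))) - Λ (δ (x * X.C.ψ 0)) -
        (LinearMap.toContinuousLinearMap (Λ ∘ₗ D)) z =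
        Λ (δ (x * X.C.ψ z)) - Λ (δ x) - Λ (D z) := by
      rw [zero_add, X.C.map_zero, mul_one]
      rfl
    rw [e3, norm_pow, norm_norm]
    exact h3
  exact hder.differentiableAt

end HolRefl.Pf
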