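import Pool.Agent.W_06f097_h35.RG1

/-! Holomorphic reflexivity: convolution on the dual of the closure. -/

open scoped Topology ContDiff Manifold BoundedContinuousFunction UniformConvergence
open Set Filter Topology Bornology

noncomputable section

namespace HolRefl.Pf

variable {E : Type*} [NormedAddCommGroup E] [NormedSpace ℂ E]
variable {G : Type*} [TopologicalSpace G] [ChartedSpace E G] [Group G] [IsTopologicalGroup G]
  [LocallyCompactSpace G] [T2Space G] (X : Ctx E G)

include X

/-- left translates -/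
theorem leftB (f : OexpBar E G) : ∃ h : G → OexpBar E G, ∀ x y, evB (h x) y = evB f (x * y) := by
  have key : ∀ x : G, ∃ g : OexpBar E G, ∀ y, evB g y = evB f (x * y) := by
    intro x
    refine exists_B (f := fun y => evB f (x * y))
      ((evB_continuous f).comp (continuous_mul_left x)) fun K hK ε hε => ?_
    obtain ⟨g, hg⟩ := B_approx f (hK.image (continuous_mul_left x)) hε
    obtain ⟨h, hh⟩ := leftT X g
    refine ⟨h x, fun y hy => ?_⟩
    rw [hh]
    exact hg _ (mem_image_of_mem _ hy)
  choose h hh using key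
  exact ⟨h, hh⟩

omit X [IsTopologicalGroup G] [LocallyCompactSpace G] [T2Space G] in
private theorem rg_sub (f g : OexpBar E G) (x : G) : evB (f - g) x = evB f x - evB g x := rfl

omit X [IsTopologicalGroup G] [LocallyCompactSpace G] [T2Space G] in
private theorem rg_cont (f : OexpT E G) : Continuous (fun x => evT f x) :=
  (show OexpC E G from f).1.continuous

/-- uniform approximation on compact sets -/
private theorem rg_approx (b : StrongDual ℂ (OexpBar E G)) (f : OexpBar E G)
    (h : G → OexpBar E G) (hh : ∀ x y, evB (h x) y = evB f (x * y)) (L : Set G)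
    (hL : IsCompact L) (ε : ℝ) (hε : 0 < ε) :
    ∃ g : OexpT E G, ∀ x ∈ L, ‖b (h x) - evT g x‖ < ε := by
  obtain ⟨K, hK, M, hM, hb⟩ := B_functional_bound b
  have hM0 : 0 < M := by linarith
  obtain ⟨f', hf'⟩ := B_approx f (hL.mul hK) (ε := ε / (2 * M)) (by positivity)
  obtain ⟨h', hh'⟩ := leftT X f'
  obtain ⟨g, hg⟩ := appT X (restrL E G b) f' h' hh'
  refine ⟨g, fun x hx => ?_⟩
  rw [hg]
  have e1 : (restrL E G b) (h' x) = b (inclB E G (h' x)) := rfl
  rw [e1, ← map_sub]
  have h1 := hb (h x - inclB E G (h' x)) (ε / (2 * M)) (by positivity) (fun y hy => by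
    rw [rg_sub, evB_inclB, hh, hh']
    exact (hf' _ (Set.mul_mem_mul hx hy)).le)
  refine h1.trans_lt ?_
  have e2 : M * (ε / (2 * M)) = ε / 2 := by
    field_simp
  rw [e2]
  linarith

/-- Proof. `|b f| ≤ M sup_K |f|`. For a compact set `L` and `f' ∈ OexpT` with `|f - f'| < ε` on
`L K`, the function `g'` of `appT` for `f'` and `b ∘ incl` satisfies `|b (h x) - g' x| ≤ M ε` on
`L`. Continuity of `x ↦ b (h x)`: it is a locally uniform limit of continuous functions. Then
`exists_B`. -/
theorem appB (b : StrongDual ℂ (OexpBar E G)) (f : OexpBar E G) (h : G → OexpBar E G)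
    (hh : ∀ x y, evB (h x) y = evB f (x * y)) : ∃ g : OexpBar E G, ∀ x, evB g x = b (h x) := by
  have happ := rg_approx X b f h hh
  refine exists_B (f := fun x => b (h x)) ?_ happ
  refine continuous_of_locally_uniform_approx_of_continuousAt fun x u hu => ?_
  obtain ⟨ε, hε, hεu⟩ := Metric.mem_uniformity_dist.1 hu
  obtain ⟨L, hL, hxL⟩ := exists_compact_mem_nhds x
  obtain ⟨g, hg⟩ := happ L hL ε hε
  refine ⟨L, hxL, fun x => evT g x, (rg_cont g).continuousAt, fun y hy => hεu ?_⟩
  rw [dist_eq_norm]
  exact hg y hy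

theorem conv_B : ConvDefined (evB (E := E) (G := G)) := by
  refine ⟨leftB X, appB X, fun a b => ?_⟩
  have hl := leftB X
  choose H hH using hl
  have hg : ∀ f : OexpBar E G, ∃ g : OexpBar E G, ∀ x, evB g x = b (H f x) := fun f =>
    appB X b f (H f) (hH f)
  choose g hg using hg
  have hHadd : ∀ f₁ f₂ x, H (f₁ + f₂) x = H f₁ x + H f₂ x := by
    intro f₁ f₂ x
    refine evB_ext fun y => ?_
    rw [evB_add, hH, hH, hH, evB_add]
  have hHsmul : ∀ (c : ℂ) f x, H (c • f) x = c • H f x := by
    intro c f x
    refine evB_ext fun y => ?_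
    rw [evB_smul, hH, hH, evB_smul]
  let φ : OexpBar E G →ₗ[ℂ] ℂ :=
    { toFun := fun f => a (g f)
      map_add' := by
        intro f₁ f₂
        have : g (f₁ + f₂) = g f₁ + g f₂ := by
          refine evB_ext fun x => ?_
          rw [evB_add, hg, hg, hg, hHadd, map_add]
        rw [this, map_add]
      map_smul' := by
        intro c f
        have : g (c • f) = c • g f := by
          refine evB_ext fun x => ?_
          rw [evB_smul, hg, hg, hHsmul, map_smul, smul_eq_mul]
        rw [this, map_smul, RingHom.id_apply] }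
  obtain ⟨Ka, hKa, Ma, hMa, ha⟩ := B_functional_bound a
  obtain ⟨Kb, hKb, Mb, hMb, hb⟩ := B_functional_bound b
  obtain ⟨Φ, hΦ⟩ := B_functional φ (hKa.mul hKb) (M := Ma * Mb) (fun f c hc hf => by
    have h1 := ha (g f) (Mb * c) (mul_nonneg (by linarith) hc) (fun x hx => by
      rw [hg]
      refine hb _ c hc fun y hy => ?_
      rw [hH]
      exact hf _ (Set.mul_mem_mul hx hy))
    rw [mul_assoc]
    exact h1)
  refine ⟨Φ, fun f g' h hh hg' => ?_⟩
  rw [hΦ]
  have e : g f = g' := by
    refine evB_ext fun x => ?_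
    rw [hg, hg']
    congr 1
    refine evB_ext fun y => ?_
    rw [hH, hh]
  show a (g f) = a g'
  rw [e]

end HolRefl.Pf
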