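import Pool.Agent.W_06f097_h35.RE2
import Pool.Agent.W_06f097_h43.CA5

/-! Holomorphic reflexivity: convolution on the dual of the inductive limit. -/

open scoped Topology ContDiff Manifold BoundedContinuousFunction UniformConvergence
open Set Filter Topology Bornology

noncomputable section

namespace HolRefl.Pf

section hol

variable {n : ℕ} {G : Type*} [Group G] [TopologicalSpace G] (C : HR.CLG n G)

private theorem rg1_left {f : G → ℂ} (hf : C.Hol f) (a : G) : C.Hol (fun x => f (a * x)) :=
  fun x => by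
    have := hf (a * x)
    simpa [mul_assoc] using this

private theorem rg1_lin {ι : Type*} (s : Finset ι) (c : ι → ℂ) {f : ι → G → ℂ}
    (hf : ∀ i ∈ s, C.Hol (f i)) : C.Hol (fun x => ∑ i ∈ s, c i * f i x) := by
  intro x
  have := DifferentiableAt.fun_sum (u := s) (A := fun i (z : HR.En n) => c i * f i (x * C.ψ z))
    (fun i hi => (hf i hi x).const_mul (c i))
  exact this

end hol

variable {E : Type*} [NormedAddCommGroup E] [NormedSpace ℂ E]
variable {G : Type*} [TopologicalSpace G] [ChartedSpace E G] [Group G] [IsTopologicalGroup G]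
  [LocallyCompactSpace G] [T2Space G] (X : Ctx E G)

include X

/-- left translates -/
theorem leftT (f : OexpT E G) : ∃ h : G → OexpT E G, ∀ x y, evT (h x) y = evT f (x * y) := by
  have key : ∀ x : G, ∃ g : OexpT E G, ∀ y, evT g y = evT f (x * y) := by
    intro x
    refine exists_T (f := fun y => evT f (x * y)) ?_
    have hhol : IsHol E (fun y => evT f (x * y)) := by
      rw [X.hol]
      exact rg1_left X.C (evT_hol X f) x
    obtain ⟨w, hw, hfw⟩ := exists_weight E G f
    refine ⟨hhol, fun y => max 1 (w x) * w y, isWeight_smul hw (le_max_left _ _), fun y => ?_⟩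
    calc ‖evT f (x * y)‖ ≤ w (x * y) := hfw _
      _ ≤ w x * w y := hw.submul x y
      _ ≤ max 1 (w x) * w y := mul_le_mul_of_nonneg_right (le_max_right _ _) (hw.nonneg y)
  choose h hh using key
  exact ⟨h, hh⟩

omit X [IsTopologicalGroup G] [LocallyCompactSpace G] [T2Space G] in
private theorem rg1_mem {w : G → ℝ} (hw : IsWeight w) {f : OexpT E G} (hf : f ∈ DW E w)
    {h : G → OexpT E G} (hh : ∀ x y, evT (h x) y = evT f (x * y)) (x y : G) :
    ‖evT (h x) y‖ ≤ w x * w y := by
  rw [hh]
  exact (hf _).trans (hw.submul x y)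

/-- Growth: for `f ∈ DW E w` and `|b| ≤ M` on `DW E w` one has `|b (h x)| ≤ M w x`, because
`h x ∈ w x • DW E w` (if `w x = 0` then `h x = 0`). -/
theorem app_le {w : G → ℝ} (hw : IsWeight w) {b : StrongDual ℂ (OexpT E G)} {M : ℝ}
    (hM : ∀ f ∈ DW E w, ‖b f‖ ≤ M) {f : OexpT E G} (hf : f ∈ DW E w) {h : G → OexpT E G}
    (hh : ∀ x y, evT (h x) y = evT f (x * y)) (x : G) : ‖b (h x)‖ ≤ M * w x := by
  have h1 := fun y => rg1_mem hw hf hh x y
  rcases (hw.nonneg x).eq_or_lt with h0 | h0
  · have h2 : h x = 0 := by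
      refine evT_ext fun y => ?_
      have := h1 y
      rw [← h0, zero_mul] at this
      rw [evT_zero]
      exact norm_le_zero_iff.1 this
    rw [h2, map_zero, norm_zero, ← h0, mul_zero]
  · have h2 : (((w x)⁻¹ : ℝ) : ℂ) • h x ∈ DW E w := by
      intro y
      rw [evT_smul, norm_mul, Complex.norm_real, Real.norm_of_nonneg (inv_nonneg.2 h0.le)]
      calc (w x)⁻¹ * ‖evT (h x) y‖ ≤ (w x)⁻¹ * (w x * w y) :=
            mul_le_mul_of_nonneg_left (h1 y) (inv_nonneg.2 h0.le)
        _ = w y := by rw [← mul_assoc, inv_mul_cancel₀ h0.ne', one_mul]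
    have h3 := hM _ h2
    rw [map_smul, norm_smul, Complex.norm_real, Real.norm_of_nonneg (inv_nonneg.2 h0.le)] at h3
    rw [inv_mul_le_iff₀ h0] at h3
    linarith

omit X [IsTopologicalGroup G] [LocallyCompactSpace G] [T2Space G] in
private theorem rg1_bound (b : StrongDual ℂ (OexpT E G)) {w : G → ℝ} (hw : IsWeight w) :
    ∃ M : ℝ, 0 ≤ M ∧ ∀ f ∈ DW E w, ‖b f‖ ≤ M := by
  obtain ⟨M, h0, hM⟩ := T_bound ((normSeminorm ℂ ℂ).comp b.toLinearMap)
    (continuous_norm.comp b.continuous) hw
  exact ⟨M, h0, fun f hf => hM f hf⟩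

/-- Holomorphy: `x ↦ b (h x)` is the locally uniform limit of the holomorphic functions
`x ↦ Σ c_i f(x x_i)` (`density_T`, `hol_right`, `hol_limit`: for a compact set `L` the functions
`h x`, `x ∈ L`, are in one `DW E w'`). -/
theorem appT (b : StrongDual ℂ (OexpT E G)) (f : OexpT E G) (h : G → OexpT E G)
    (hh : ∀ x y, evT (h x) y = evT f (x * y)) : ∃ g : OexpT E G, ∀ x, evT g x = b (h x) := by
  obtain ⟨w, hw, hfw⟩ := exists_weight E G f
  have hf : f ∈ DW E w := hfw
  obtain ⟨M, hM0, hM⟩ := rg1_bound b hw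
  obtain ⟨M₀, R, hM₀, hR, hdom⟩ := X.dom w hw
  refine exists_T (f := fun x => b (h x)) ?_
  have hwk : ∀ k : ℕ, IsWeight (fun y => max 1 (M₀ * Real.exp (R * k)) * w y) := fun k =>
    isWeight_smul hw (le_max_left _ _)
  have hmem : ∀ (k : ℕ) (x : G), X.σ x ≤ k →
      h x ∈ DW E (fun y => max 1 (M₀ * Real.exp (R * k)) * w y) := by
    intro k x hx y
    refine (rg1_mem hw hf hh x y).trans (mul_le_mul_of_nonneg_right ?_ (hw.nonneg y))
    refine le_trans ((hdom x).trans ?_) (le_max_right _ _)
    refine mul_le_mul_of_nonneg_left ?_ (by linarith)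
    exact Real.exp_le_exp.2 (mul_le_mul_of_nonneg_left hx hR)
  have hd := fun k : ℕ => density_T X b (hwk k) (ε := 1 / ((k : ℝ) + 1)) (by positivity)
  choose s c hsc using hd
  have hFhol : ∀ k : ℕ, X.C.Hol (fun x => ∑ y ∈ s k, c k y * evT f (x * y)) := by
    intro k
    exact rg1_lin X.C (s k) (c k) fun y _ => X.C.hol_right (evT_hol X f) y
  have hlim : X.C.Hol (fun x => b (h x)) := by
    refine X.C.hol_limit' hFhol fun K hK => ?_
    rw [Metric.tendstoUniformlyOn_iff]
    intro ε hε
    obtain ⟨B, hB⟩ := hK.bddAbove_image X.cont.continuousOn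
    obtain ⟨k₀, hk₀⟩ := exists_nat_ge B
    obtain ⟨k₁, hk₁⟩ := exists_nat_one_div_lt hε
    filter_upwards [eventually_ge_atTop (max k₀ k₁)] with k hk x hx
    have hσ : X.σ x ≤ k := by
      have h1 : X.σ x ≤ B := hB (mem_image_of_mem _ hx)
      have h2 : (k₀ : ℝ) ≤ k := by exact_mod_cast (le_max_left _ _).trans hk
      linarith
    have h3 := hsc k (h x) (hmem k x hσ)
    have h4 : ∑ y ∈ s k, c k y * evT (h x) y = ∑ y ∈ s k, c k y * evT f (x * y) :=
      Finset.sum_congr rfl fun y _ => by rw [hh]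
    rw [h4] at h3
    rw [dist_eq_norm]
    refine h3.trans_lt (lt_of_le_of_lt ?_ hk₁)
    have h5 : (k₁ : ℝ) ≤ k := by exact_mod_cast (le_max_right _ _).trans hk
    exact one_div_le_one_div_of_le (by positivity) (by linarith)
  refine ⟨(X.hol _).2 hlim, fun x => max 1 M * w x, isWeight_smul hw (le_max_left _ _),
    fun x => ?_⟩
  exact (app_le X hw hM hf hh x).trans
    (mul_le_mul_of_nonneg_right (le_max_right _ _) (hw.nonneg x))

/-- the convolution is defined on the strong dual of `OexpT` (continuity of `f ↦ a (g_f)` by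
`app_le` and `T_functional`) -/
theorem conv_T : ConvDefined (evT (E := E) (G := G)) := by
  refine ⟨leftT X, appT X, fun a b => ?_⟩
  have hl := leftT X
  choose H hH using hl
  have hg : ∀ f : OexpT E G, ∃ g : OexpT E G, ∀ x, evT g x = b (H f x) := fun f =>
    appT X b f (H f) (hH f)
  choose g hg using hg
  have hHadd : ∀ f₁ f₂ x, H (f₁ + f₂) x = H f₁ x + H f₂ x := by
    intro f₁ f₂ x
    refine evT_ext fun y => ?_
    rw [evT_add, hH, hH, hH, evT_add]
  have hHsmul : ∀ (c : ℂ) f x, H (c • f) x = c • H f x := by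
    intro c f x
    refine evT_ext fun y => ?_
    rw [evT_smul, hH, hH, evT_smul]
  let φ : OexpT E G →ₗ[ℂ] ℂ :=
    { toFun := fun f => a (g f)
      map_add' := by
        intro f₁ f₂
        have : g (f₁ + f₂) = g f₁ + g f₂ := by
          refine evT_ext fun x => ?_
          rw [evT_add, hg, hg, hg, hHadd, map_add]
        rw [this, map_add]
      map_smul' := by
        intro c f
        have : g (c • f) = c • g f := by
          refine evT_ext fun x => ?_
          rw [evT_smul, hg, hg, hHsmul, map_smul, smul_eq_mul]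
        rw [this, map_smul, RingHom.id_apply] }
  obtain ⟨Φ, hΦ⟩ := T_functional φ (fun w hw => by
    obtain ⟨M, hM0, hM⟩ := rg1_bound b hw
    have hw' : IsWeight (fun x => max 1 M * w x) := isWeight_smul hw (le_max_left _ _)
    obtain ⟨M', hM0', hM'⟩ := rg1_bound a hw'
    refine ⟨M', fun f hf => hM' _ fun x => ?_⟩
    rw [hg]
    exact (app_le X hw hM hf (hH f) x).trans
      (mul_le_mul_of_nonneg_right (le_max_right _ _) (hw.nonneg x)))
  refine ⟨Φ, fun f g' h hh hg' => ?_⟩
  rw [hΦ]
  have e : g f = g' := by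
    refine evT_ext fun x => ?_
    rw [hg, hg']
    congr 1
    refine evT_ext fun y => ?_
    rw [hH, hh]
  show a (g f) = a g'
  rw [e]

end HolRefl.Pf
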