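import Pool.Agent.W_06f097_h35.FA
import Pool.Agent.W_06f097_h35.RB
import Pool.Agent.W_06f097_h35.Pub

/-! Holomorphic reflexivity: the envelope of `O_exp(G)`. -/

open scoped Topology ContDiff Manifold
open Set Filter Topology Bornology

noncomputable section

namespace HolRefl.Pf

variable {E : Type*} [NormedAddCommGroup E] [NormedSpace ℂ E]
variable {G : Type*} [TopologicalSpace G] [ChartedSpace E G] [Group G] [IsTopologicalGroup G]
  [LocallyCompactSpace G] [T2Space G]

omit [IsTopologicalGroup G] [LocallyCompactSpace G] [T2Space G] in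
private theorem rh_smul {V : Type*} [AddCommGroup V] [Module ℂ V] [TopologicalSpace V]
    (q : Seminorm ℂ V) (hq : Continuous q) {M : ℝ} (hM : 0 ≤ M) :
    ∃ q' : Seminorm ℂ V, Continuous q' ∧ ∀ v, q' v = M * q v := by
  obtain ⟨c, hc⟩ : ∃ c : NNReal, (c : ℝ) = M := ⟨⟨M, hM⟩, rfl⟩
  refine ⟨c • q, hq.const_smul _, fun v => ?_⟩
  rw [← hc]
  rfl

/-- `H^• = OexpBar`. `le`: `EnvelopeIsClosure.bound` for the seminorm on `Oexp E G` which
corresponds to `p`; `ge`: `q f ≤ M sup_K |f|` with `M ≥ 1`, take `p = M sup_K` (`exists_supT`). -/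
theorem envelope_incl (h : EnvelopeIsClosure E G) :
    IsAMEnvelope (fun a b c : OexpT E G => ∀ x, evT a x * evT b x = evT c x)
      (fun a b c : OexpBar E G => ∀ x, evB a x * evB b x = evB c x) (inclB E G) where
  complete := B_complete
  t2 := inferInstance
  locConvex := by
    intro U hU
    obtain ⟨⟨K, ε⟩, ⟨hK, hε⟩, h1⟩ := nhds_bar.mem_iff.1 hU
    obtain ⟨q, hq, hq1, -⟩ := exists_supB (E := E) hK
    obtain ⟨q', hq', hq2⟩ := rh_smul q hq (inv_nonneg.2 hε.le)
    refine ⟨q', hq', fun f hf => h1 fun x hx => ?_⟩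
    have h2 : q' f < 1 := hf
    rw [hq2, inv_mul_lt_iff₀ hε, mul_one] at h2
    exact (hq1 f x hx).trans_lt h2
  mul := fun a b c h x => h x
  dense := inclB_dense
  le := by
    intro p hp hs
    have hsp : ∀ (f : Oexp E G) x, evT (Classical.choose (exists_T f.2)) x = (f : G → ℂ) x :=
      fun f => Classical.choose_spec (exists_T f.2)
    let e : Oexp E G →ₗ[ℂ] OexpT E G :=
      { toFun := fun f => Classical.choose (exists_T f.2)
        map_add' := fun a b => evT_ext fun x => by
          rw [evT_add, hsp, hsp, hsp]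
          rfl
        map_smul' := fun c a => evT_ext fun x => by
          rw [RingHom.id_apply, evT_smul, hsp, hsp]
          rfl }
    have he : ∀ (f : Oexp E G) x, evT (e f) x = (f : G → ℂ) x := hsp
    obtain ⟨K, hK, M, hM, hb⟩ := h.bound (p.comp e)
      (fun f g => by
        refine hs (e f) (e g) (e (f * g)) fun x => ?_
        rw [he, he, he]
        rfl)
      (fun w hw => by
        obtain ⟨M, -, hM⟩ := T_bound p hp hw
        refine ⟨M, fun f hf => hM (e f) fun x => ?_⟩
        rw [he]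
        exact hf x)
    obtain ⟨q, hq, hq1, -⟩ := exists_supB (E := E) hK
    obtain ⟨q', hq', hq2⟩ := rh_smul q hq hM
    refine ⟨q', hq', fun a => ?_⟩
    rw [hq2]
    have h1 := hb ⟨_, evT_mem a⟩ (q (inclB E G a)) (fun x hx => hq1 (inclB E G a) x hx)
      (apply_nonneg _ _)
    have h2 : e ⟨_, evT_mem a⟩ = a := evT_ext fun x => he _ x
    have h3 : (p.comp e) ⟨_, evT_mem a⟩ = p a := by
      rw [Seminorm.comp_apply, h2]
    rwa [h3] at h1
  ge := by
    intro q hq
    obtain ⟨K, hK, M, hM, hb⟩ := B_bound q hq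
    obtain ⟨p, hp, hp1, hp2⟩ := exists_supT E G hK
    have hM0 : 0 ≤ M := zero_le_one.trans hM
    obtain ⟨p', hp', hp3⟩ := rh_smul p hp hM0
    refine ⟨p', hp', ?_, fun a => ?_⟩
    · rintro a b c habc
      rw [hp3, hp3, hp3]
      have h1 : p c ≤ p a * p b := by
        refine hp2 _ _ (mul_nonneg (apply_nonneg _ _) (apply_nonneg _ _)) fun x hx => ?_
        rw [← habc x, norm_mul]
        exact mul_le_mul (hp1 a x hx) (hp1 b x hx) (norm_nonneg _) (apply_nonneg _ _)
      have h2 : 0 ≤ p a * p b := mul_nonneg (apply_nonneg _ _) (apply_nonneg _ _)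
      calc M * p c ≤ M * (p a * p b) := mul_le_mul_of_nonneg_left h1 hM0
        _ ≤ M * (M * (p a * p b)) := by
          refine mul_le_mul_of_nonneg_left ?_ hM0
          nlinarith
        _ = M * p a * (M * p b) := by ring
    · rw [hp3]
      exact hb _ _ (apply_nonneg _ _) fun x hx => hp1 a x hx

end HolRefl.Pf
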