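import Pool.Agent.W_06f097_h35.RE
import Pool.Agent.W_06f097_h35.RF

/-! Holomorphic reflexivity: submultiplicative seminorms on the dual of the closure. -/

open scoped Topology ContDiff Manifold BoundedContinuousFunction UniformConvergence
open Set Filter Topology Bornology

noncomputable section

namespace HolRefl.Pf

variable {E : Type*} [NormedAddCommGroup E] [NormedSpace ℂ E]
variable {G : Type*} [TopologicalSpace G] [ChartedSpace E G] [Group G] [IsTopologicalGroup G]
  [LocallyCompactSpace G] [T2Space G] (X : Ctx E G)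

include X in
/-- Let `p` be a continuous submultiplicative seminorm on the convolution algebra of `OexpBar` and
`w x = p (δ x)`: a weight (`δ (x y) = δ x * δ y`; locally bounded by `dual_bound`, `B_bdd_iff`).
For every functional `Φ₀` there is a linear functional `Λ` with `|Λ| ≤ p`, `Λ Φ₀ = p Φ₀`
(`exists_functional`), `f x = Λ (δ x)` is holomorphic (`hol_dual`) with `|f| ≤ w`, so `f` is in
`DW E w` and `Λ Φ = Φ (inclB f)` for all `Φ` (`dual_eq_B`). -/
theorem kappa_le (p : Seminorm ℂ (StrongDual ℂ (OexpBar E G))) (hp : Continuous p)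
    (hs : SubmulFor (IsConv (evB (E := E) (G := G))) p) : ∃ w : G → ℝ, IsWeight w ∧
      ∀ (Φ : StrongDual ℂ (OexpBar E G)), ∃ f ∈ DW E w, ‖Φ (inclB E G f)‖ = p Φ := by
  choose δ hδ using exists_deltaB (E := E) (G := G)
  have hw : IsWeight (fun x => p (δ x)) := by
    refine ⟨fun x => apply_nonneg p _, fun x y => ?_, fun x => ?_⟩
    · refine hs (δ x) (δ y) (δ (x * y)) ?_
      intro f g h hh hg
      rw [hδ, hδ, hg, hδ, hh]
    · obtain ⟨S, hS, M, hM, hb⟩ := dual_bound p hp
      obtain ⟨K, hK, hKx⟩ := exists_compact_mem_nhds x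
      obtain ⟨B, hB⟩ := B_bdd_iff.1 hS K hK
      refine ⟨K, hKx, M * max B 0, fun y hy => ?_⟩
      refine hb (δ y) (max B 0) (le_max_right _ _) fun f hf => ?_
      rw [hδ]
      exact (hB f hf y hy).trans (le_max_left _ _)
  refine ⟨fun x => p (δ x), hw, fun Φ => ?_⟩
  obtain ⟨Λ, hΛ, hΛΦ⟩ := exists_functional p Φ
  have hc : Continuous Λ := cts_of_le Λ p hp hΛ
  have hhol := hol_dual X Λ hc δ hδ
  have hmem : (fun x => Λ (δ x)) ∈ Oexp E G :=
    ⟨(X.hol _).2 hhol, fun x => p (δ x), hw, fun x => hΛ _⟩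
  obtain ⟨f, hf⟩ := exists_T hmem
  refine ⟨f, fun x => ?_, ?_⟩
  · rw [hf]
    exact hΛ _
  · have e : Λ Φ = Φ (inclB E G f) := by
      refine dual_eq_B X Λ hc (inclB E G f) (fun x d hd => ?_) Φ
      have e1 : d = δ x := by
        ext g
        rw [hd, hδ]
      rw [evB_inclB, hf, e1]
    rw [← e, hΛΦ, Complex.norm_real, Real.norm_of_nonneg (apply_nonneg p Φ)]

end HolRefl.Pf
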