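import Pool.Agent.W_06f097_h35.RG1

/-! Holomorphic reflexivity: suprema over unit balls are submultiplicative. -/

open scoped Topology ContDiff Manifold BoundedContinuousFunction UniformConvergence
open Set Filter Topology Bornology

noncomputable section

namespace HolRefl.Pf

variable {E : Type*} [NormedAddCommGroup E] [NormedSpace ℂ E]
variable {G : Type*} [TopologicalSpace G] [ChartedSpace E G] [Group G] [IsTopologicalGroup G]
  [LocallyCompactSpace G] [T2Space G] (X : Ctx E G)

include X in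
/-- `sup_{DW E w}` is a submultiplicative seminorm (`app_le`), continuous on the strong dual of
`OexpBar` because the image of `DW E w` is bounded in `OexpBar`. -/
theorem kappa_ge {w : G → ℝ} (hw : IsWeight w) {M : ℝ} (hM : 1 ≤ M) :
    ∃ p : Seminorm ℂ (StrongDual ℂ (OexpBar E G)), Continuous p ∧
      SubmulFor (IsConv (evB (E := E) (G := G))) p ∧
      ∀ Φ f, f ∈ DW E w → M * ‖Φ (inclB E G f)‖ ≤ p Φ := by
  obtain ⟨p0, hp0c, hp0a, hp0b⟩ := exists_dual_sup (X := OexpBar E G)
    (S := (fun f => inclB E G f) '' (DW E w)) (B_bdd_iff.2 fun K hK => by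
      obtain ⟨B, -, h⟩ := hw.bddOn hK
      refine ⟨B, ?_⟩
      rintro _ ⟨f, hf, rfl⟩ x hx
      exact (hf x).trans (h x hx))
  have hsub : ∀ a b c, IsConv (evB (E := E) (G := G)) a b c → p0 c ≤ p0 a * p0 b := by
    intro a b c habc
    refine hp0b c _ (mul_nonneg (apply_nonneg p0 a) (apply_nonneg p0 b)) ?_
    rintro _ ⟨f, hf, rfl⟩
    obtain ⟨h, hh⟩ := leftT X f
    obtain ⟨g, hg⟩ := appT X (restrL E G b) f h hh
    have hb : ∀ f' ∈ DW E w, ‖restrL E G b f'‖ ≤ p0 b := fun f' hf' =>
      hp0a _ ⟨f', hf', rfl⟩ b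
    have hgw : ∀ x, ‖evT g x‖ ≤ p0 b * w x := by
      intro x
      rw [hg x]
      exact app_le X hw hb hf hh x
    have hcv : c (inclB E G f) = a (inclB E G g) := by
      refine habc (inclB E G f) (inclB E G g) (fun x => inclB E G (h x)) ?_ ?_
      · intro x y
        exact hh x y
      · intro x
        exact hg x
    show ‖c (inclB E G f)‖ ≤ _
    rw [hcv]
    rcases (apply_nonneg p0 b).eq_or_lt with h0 | h0
    · have hg0 : g = 0 := by
        apply evT_ext
        intro x
        have h1 := hgw x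
        rw [← h0, zero_mul] at h1
        rw [evT_zero]
        exact norm_le_zero_iff.1 h1
      rw [hg0, map_zero, map_zero, norm_zero]
      exact mul_nonneg (apply_nonneg p0 a) (apply_nonneg p0 b)
    · have hmem : (((p0 b)⁻¹ : ℝ) : ℂ) • g ∈ DW E w := by
        intro x
        rw [evT_smul, norm_mul, Complex.norm_real, Real.norm_of_nonneg (inv_nonneg.2 h0.le)]
        calc (p0 b)⁻¹ * ‖evT g x‖ ≤ (p0 b)⁻¹ * (p0 b * w x) := by
              exact mul_le_mul_of_nonneg_left (hgw x) (inv_nonneg.2 h0.le)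
          _ = w x := by field_simp
      have h2 := hp0a _ ⟨_, hmem, rfl⟩ a
      simp only [map_smul] at h2
      rw [norm_smul, Complex.norm_real, Real.norm_of_nonneg (inv_nonneg.2 h0.le)] at h2
      calc ‖a (inclB E G g)‖ = p0 b * ((p0 b)⁻¹ * ‖a (inclB E G g)‖) := by field_simp
        _ ≤ p0 b * p0 a := mul_le_mul_of_nonneg_left h2 h0.le
        _ = p0 a * p0 b := mul_comm _ _
  have hM0 : (0 : ℝ) ≤ M := zero_le_one.trans hM
  let r : NNReal := NNReal.mk M hM0
  refine ⟨r • p0, ?_, ?_, ?_⟩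
  · have e : (fun φ => (r • p0) φ) = fun φ => M * p0 φ := rfl
    show Continuous (fun φ => (r • p0) φ)
    rw [e]
    exact continuous_const.mul hp0c
  · intro a b c habc
    show M * p0 c ≤ (M * p0 a) * (M * p0 b)
    have h1 := hsub a b c habc
    have h2 : 0 ≤ p0 a * p0 b := mul_nonneg (apply_nonneg p0 a) (apply_nonneg p0 b)
    calc M * p0 c ≤ M * (p0 a * p0 b) := mul_le_mul_of_nonneg_left h1 hM0
      _ ≤ M * (M * (p0 a * p0 b)) := mul_le_mul_of_nonneg_left (le_mul_of_one_le_left h2 hM) hM0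
      _ = (M * p0 a) * (M * p0 b) := by ring
  · intro Φ f hf
    show M * ‖Φ (inclB E G f)‖ ≤ M * p0 Φ
    exact mul_le_mul_of_nonneg_left (hp0a _ ⟨f, hf, rfl⟩ Φ) hM0

end HolRefl.Pf
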