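import Pool.Agent.W_06f097_h35.RI1
import Pool.Agent.W_06f097_h35.RI2
import Pool.Agent.W_06f097_h35.RI3

/-! Holomorphic reflexivity: the restriction of functionals is an envelope. -/

open scoped Topology ContDiff Manifold BoundedContinuousFunction UniformConvergence
open Set Filter Topology Bornology

noncomputable section

namespace HolRefl.Pf

variable {E : Type*} [NormedAddCommGroup E] [NormedSpace ℂ E]
variable {G : Type*} [TopologicalSpace G] [ChartedSpace E G] [Group G] [IsTopologicalGroup G]
  [LocallyCompactSpace G] [T2Space G] (X : Ctx E G)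

include X in
theorem envelope_restr : IsAMEnvelope (IsConv (evB (E := E) (G := G)))
    (IsConv (evT (E := E) (G := G))) (restrL E G) where
  complete := dualT_complete
  t2 := inferInstance
  locConvex := dualT_locConvex
  mul := by
    intro a b c h f g k hk hg
    exact h (inclB E G f) (inclB E G g) (fun x => inclB E G (k x)) hk hg
  dense := restrL_dense X
  le := by
    intro p hp hs
    obtain ⟨w, hw, h1⟩ := kappa_le X p hp hs
    obtain ⟨q, hq, h2, -⟩ := exists_dual_sup (DW_bdd (E := E) hw)
    refine ⟨q, hq, fun Φ => ?_⟩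
    obtain ⟨f, hf, h3⟩ := h1 Φ
    rw [← h3]
    exact h2 f hf (restrL E G Φ)
  ge := by
    intro q hq
    obtain ⟨w, hw, M, hM, h1⟩ := dualT_bound X q hq
    obtain ⟨p, hp, hs, h2⟩ := kappa_ge X hw hM
    refine ⟨p, hp, hs, fun Φ => ?_⟩
    have hM0 : 0 < M := by linarith
    have h3 := h1 (restrL E G Φ) (p Φ / M) (div_nonneg (apply_nonneg p Φ) hM0.le) (fun f hf => by
      rw [le_div_iff₀ hM0, mul_comm]
      exact h2 Φ f hf)
    rwa [mul_div_cancel₀ _ hM0.ne'] at h3

end HolRefl.Pf
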