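import Pool.Agent.W_06f097_h35.FA
import Pool.Agent.W_06f097_h35.RA

/-! Holomorphic reflexivity: the strong dual of `O_exp(G)`. -/

open scoped Topology ContDiff Manifold BoundedContinuousFunction UniformConvergence
open Set Filter Topology Bornology

noncomputable section

namespace HolRefl.Pf

variable {E : Type*} [NormedAddCommGroup E] [NormedSpace ℂ E]
variable {G : Type*} [TopologicalSpace G] [ChartedSpace E G] [Group G] [IsTopologicalGroup G]
  [LocallyCompactSpace G] [T2Space G] (X : Ctx E G)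

/-- The strong dual is complete: the limit of a Cauchy filter, uniformly on the sets `DW E w`, is a
linear functional bounded on these sets. (`ContinuousLinearMap.isUniformEmbedding_toUniformOnFun`,
the range is closed: `T_functional`, `T_bdd`, `DW_bdd`.) -/
theorem dualT_complete : CompleteSpace (StrongDual ℂ (OexpT E G)) := by
  have h0 := ContinuousLinearMap.isUniformEmbedding_toUniformOnFun (E := OexpT E G) (F := ℂ)
    (σ := RingHom.id ℂ)
  rw [completeSpace_iff_isComplete_range h0.isUniformInducing]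
  refine IsClosed.isComplete ?_
  rw [← closure_subset_iff_isClosed]
  intro g hg
  obtain ⟨g', hg'⟩ : ∃ g' : OexpT E G → ℂ, g' = UniformOnFun.toFun _ g := ⟨_, rfl⟩
  have key : ∀ S : Set (OexpT E G), IsVonNBounded ℂ S → ∀ ε : ℝ, 0 < ε →
      ∃ φ : StrongDual ℂ (OexpT E G), ∀ f ∈ S, ‖g' f - φ f‖ < ε := by
    intro S hS ε hε
    have h1 := (UniformOnFun.tendsto_iff_tendstoUniformlyOn (F := id) (f := g)
      (p := 𝓝 g)).1 tendsto_id S hS
    rw [Metric.tendstoUniformlyOn_iff] at h1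
    have h2 := (mem_closure_iff_frequently.1 hg).and_eventually (h1 ε hε)
    obtain ⟨k, ⟨φ, rfl⟩, h3⟩ := h2.exists
    refine ⟨φ, fun f hf => ?_⟩
    have h4 := h3 f hf
    rw [dist_eq_norm] at h4
    rw [hg']
    exact h4
  have hfin : ∀ S : Set (OexpT E G), S.Finite → IsVonNBounded ℂ S := fun S hS => by
    induction S, hS using Set.Finite.induction_on with
    | empty => exact isVonNBounded_empty ℂ _
    | insert _ _ ih => exact ih.insert _
  have hadd : ∀ a b, g' (a + b) = g' a + g' b := by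
    intro a b
    rw [← sub_eq_zero, ← norm_le_zero_iff]
    refine le_of_forall_pos_le_add fun ε hε => ?_
    obtain ⟨φ, hφ⟩ := key {a, b, a + b} (hfin _ (by simp)) (ε / 3) (by positivity)
    have h1 := hφ a (by simp)
    have h2 := hφ b (by simp)
    have h3 := hφ (a + b) (by simp)
    have e : g' (a + b) - (g' a + g' b) = (g' (a + b) - φ (a + b)) - (g' a - φ a) - (g' b - φ b) := by
      rw [map_add]
      ring
    rw [e, zero_add]
    calc ‖g' (a + b) - φ (a + b) - (g' a - φ a) - (g' b - φ b)‖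
        ≤ ‖g' (a + b) - φ (a + b)‖ + ‖g' a - φ a‖ + ‖g' b - φ b‖ :=
          (norm_sub_le _ _).trans (add_le_add (norm_sub_le _ _) le_rfl)
      _ ≤ ε := by linarith
  have hsmul : ∀ (c : ℂ) a, g' (c • a) = c * g' a := by
    intro c a
    rw [← sub_eq_zero, ← norm_le_zero_iff]
    refine le_of_forall_pos_le_add fun ε hε => ?_
    have hc : 0 < 1 + ‖c‖ := by positivity
    obtain ⟨φ, hφ⟩ := key {a, c • a} (hfin _ (by simp)) (ε / (1 + ‖c‖)) (by positivity)
    have h1 := hφ a (by simp)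
    have h2 := hφ (c • a) (by simp)
    have e : g' (c • a) - c * g' a = (g' (c • a) - φ (c • a)) - c * (g' a - φ a) := by
      rw [map_smul, smul_eq_mul]
      ring
    rw [e, zero_add]
    calc ‖g' (c • a) - φ (c • a) - c * (g' a - φ a)‖
        ≤ ‖g' (c • a) - φ (c • a)‖ + ‖c‖ * ‖g' a - φ a‖ := by
          refine (norm_sub_le _ _).trans ?_
          rw [norm_mul]
      _ ≤ ε / (1 + ‖c‖) + ‖c‖ * (ε / (1 + ‖c‖)) :=
          add_le_add h2.le (mul_le_mul_of_nonneg_left h1.le (norm_nonneg _))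
      _ = ε := by field_simp
  let gl : OexpT E G →ₗ[ℂ] ℂ :=
    { toFun := g'
      map_add' := hadd
      map_smul' := fun c a => by rw [hsmul]; rfl }
  obtain ⟨Φ, hΦ⟩ := T_functional gl fun w hw => by
    obtain ⟨φ, hφ⟩ := key _ (DW_bdd hw) 1 one_pos
    obtain ⟨M, hM, hMb⟩ := T_bound ((normSeminorm ℂ ℂ).comp φ.toLinearMap)
      (continuous_norm.comp φ.continuous) hw
    refine ⟨M + 1, fun f hf => ?_⟩
    have h1 := hφ f hf
    have h2 : ‖φ f‖ ≤ M := hMb f hf
    have e : gl f = (g' f - φ f) + φ f := by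
      show g' f = _
      ring
    rw [e]
    exact (norm_add_le _ _).trans (by linarith)
  refine ⟨Φ, ?_⟩
  have e : (fun f => Φ f) = UniformOnFun.toFun _ g := by
    funext f
    rw [hΦ, ← hg']
    rfl
  have e2 : (Φ : OexpT E G → ℂ) = UniformOnFun.toFun _ g := e
  show UniformOnFun.ofFun _ (Φ : OexpT E G → ℂ) = g
  rw [e2]
  rfl

include X in
/-- the strong topology is defined by the seminorms `sup_{DW E w}` -/
theorem dualT_bound (q : Seminorm ℂ (StrongDual ℂ (OexpT E G))) (hq : Continuous q) :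
    ∃ w : G → ℝ, IsWeight w ∧ ∃ M : ℝ, 1 ≤ M ∧ ∀ (φ : StrongDual ℂ (OexpT E G)) (c : ℝ), 0 ≤ c →
      (∀ f ∈ DW E w, ‖φ f‖ ≤ c) → q φ ≤ M * c := by
  obtain ⟨S, hS, M, hM, h⟩ := dual_bound q hq
  obtain ⟨w, hw, hSw⟩ := T_bdd X hS
  exact ⟨w, hw, M, hM, fun φ c hc h1 => h φ c hc fun f hf => h1 f (hSw hf)⟩

theorem dualT_locConvex : ∀ U ∈ 𝓝 (0 : StrongDual ℂ (OexpT E G)),
    ∃ q : Seminorm ℂ (StrongDual ℂ (OexpT E G)), Continuous q ∧ {b | q b < 1} ⊆ U := by
  intro U hU
  obtain ⟨⟨S, V⟩, ⟨hS, hV⟩, h⟩ := ContinuousLinearMap.hasBasis_nhds_zero.mem_iff.1 hU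
  obtain ⟨ε, hε, hεV⟩ := Metric.mem_nhds_iff.1 hV
  obtain ⟨p, hp, hp1, -⟩ := exists_dual_sup hS
  obtain ⟨c, hc⟩ : ∃ c : NNReal, (c : ℝ) = ε⁻¹ := ⟨⟨ε⁻¹, inv_nonneg.2 hε.le⟩, rfl⟩
  refine ⟨c • p, hp.const_smul _, fun φ hφ => h ?_⟩
  have h1 : c * p φ < 1 := hφ
  rw [hc, inv_mul_lt_iff₀ hε, mul_one] at h1
  intro f hf
  refine hεV ?_
  rw [mem_ball_zero_iff]
  exact (hp1 f hf φ).trans_lt h1

end HolRefl.Pf
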