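import Pool.Agent.W_06f097_h35.RE
import Pool.Agent.W_06f097_h35.RF

/-! Holomorphic reflexivity: the bidual. -/

open scoped Topology ContDiff Manifold
open Set Filter Topology Bornology

noncomputable section

namespace HolRefl.Pf

variable {E : Type*} [NormedAddCommGroup E] [NormedSpace ℂ E]
variable {G : Type*} [TopologicalSpace G] [ChartedSpace E G] [Group G] [IsTopologicalGroup G]
  [LocallyCompactSpace G] [T2Space G] (X : Ctx E G)

theorem bidual_injective : Function.Injective (evalDual E G) := by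
  intro f g h
  refine evT_ext fun x => ?_
  obtain ⟨Φ, hΦ⟩ := exists_deltaT (E := E) (G := G) x
  have h1 : evalDual E G f Φ = evalDual E G g Φ := by rw [h]
  rw [← hΦ f, ← hΦ g]
  exact h1

/-- the restriction of functionals is continuous -/
theorem RJ_restrL_continuous : Continuous (restrL E G) :=
  (ContinuousLinearMap.precomp ℂ (inclL E G)).continuous

include X in
/-- Proof. `|Λ φ| ≤ M sup_{DW E w} |φ|` (`dual_bound`, `T_bdd`); `f x = Λ (δ x)` is holomorphic by
`hol_dual` for the functional `Φ ↦ Λ (restrL Φ)` (continuous because the image of `DW E w` is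
bounded in `OexpBar`), and `|f| ≤ M w`; so `f` is in `O_exp(G)` and `Λ` is the evaluation at `f` by
`dual_eq_T`. -/
theorem bidual_surjective : Function.Surjective (evalDual E G) := by
  intro Λ
  choose δT hδT using exists_deltaT (E := E) (G := G)
  choose δB hδB using exists_deltaB (E := E) (G := G)
  have e1 : ∀ x, restrL E G (δB x) = δT x := by
    intro x
    ext f
    rw [hδT x f]
    have e2 : restrL E G (δB x) f = δB x (inclB E G f) := rfl
    rw [e2, hδB, evB_inclB]
  let q : Seminorm ℂ (StrongDual ℂ (OexpT E G)) :=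
    (normSeminorm ℂ ℂ).comp Λ.toLinearMap
  have hq : ∀ φ, q φ = ‖Λ φ‖ := fun φ => rfl
  have hqc : Continuous q := by
    have : (q : StrongDual ℂ (OexpT E G) → ℝ) = fun φ => ‖Λ φ‖ := funext hq
    rw [this]
    exact Λ.continuous.norm
  obtain ⟨S, hS, M, hM, hb⟩ := dual_bound q hqc
  obtain ⟨w, hw, hSw⟩ := T_bdd X hS
  have hhol : X.C.Hol (fun x => Λ (δT x)) := by
    have h1 := hol_dual X (Λ.toLinearMap.comp (restrL E G))
      (Λ.continuous.comp RJ_restrL_continuous) δB hδB
    have h2 : (fun x => (Λ.toLinearMap.comp (restrL E G)) (δB x)) = fun x => Λ (δT x) := by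
      funext x
      rw [← e1 x]
      rfl
    rw [h2] at h1
    exact h1
  have hmem : (fun x => Λ (δT x)) ∈ Oexp E G := by
    refine ⟨(X.hol _).2 hhol, fun x => M * w x, isWeight_smul hw hM, fun x => ?_⟩
    exact hb (δT x) (w x) (hw.nonneg x) fun f hf => by
      rw [hδT]
      exact hSw hf x
  obtain ⟨f, hf⟩ := exists_T hmem
  refine ⟨f, ?_⟩
  ext Φ
  have h3 := dual_eq_T X Λ.toLinearMap Λ.continuous f (fun x δ hδ => ?_) Φ
  · exact h3.symm
  · have e3 : δ = δT x := by
      ext g
      rw [hδ g, hδT]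
    rw [e3, hf x]
    rfl

theorem RJ_evalDual_add (f g : OexpT E G) :
    evalDual E G (f + g) = evalDual E G f + evalDual E G g := by
  ext φ
  exact map_add φ f g

/-- Proof. A basic neighbourhood of `0` in the bidual is given by a bounded set `Φ` of functionals
and `ε > 0`; `sup_Φ |φ f|` is a seminorm bounded on all `DW E w` (`bdd_of_dual_bdd`, `DW_bdd`),
hence continuous (`T_cts`). -/
theorem bidual_continuous : Continuous (evalDual E G) := by
  let L : OexpT E G →+ StrongDual ℂ (StrongDual ℂ (OexpT E G)) :=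
    { toFun := evalDual E G
      map_zero' := by
        ext φ
        exact map_zero φ
      map_add' := RJ_evalDual_add }
  have i1 : IsTopologicalAddGroup (StrongDual ℂ (StrongDual ℂ (OexpT E G))) := inferInstance
  have i2 : ContinuousAdd (StrongDual ℂ (StrongDual ℂ (OexpT E G))) := i1.toContinuousAdd
  refine continuous_of_continuousAt_zero L ?_
  rw [ContinuousAt, map_zero, ContinuousLinearMap.hasBasis_nhds_zero.tendsto_right_iff]
  rintro ⟨Φ, V⟩ ⟨hΦ, hV⟩
  obtain ⟨ε, hε, hεV⟩ := Metric.mem_nhds_iff.1 hV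
  obtain ⟨p, hp1, hp2⟩ := exists_supS (fun φ : Φ => (φ.1 : OexpT E G →L[ℂ] ℂ).toLinearMap)
    (fun f => by
      obtain ⟨B, hB⟩ := bdd_of_dual_bdd hΦ (isVonNBounded_singleton (𝕜 := ℂ) f)
      exact ⟨B, fun φ => hB φ.1 φ.2 f rfl⟩)
  have hpc : Continuous p := T_cts p fun w hw => by
    obtain ⟨B, hB⟩ := bdd_of_dual_bdd hΦ (DW_bdd (E := E) hw)
    exact ⟨max B 0, fun f hf => hp2 f _ (le_max_right _ _) fun φ =>
      (hB φ.1 φ.2 f hf).trans (le_max_left _ _)⟩
  have h2 : ∀ᶠ f in 𝓝 (0 : OexpT E G), p f < ε := by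
    refine (hpc.continuousAt (x := (0 : OexpT E G))).eventually (p := fun t => t < ε) ?_
    rw [map_zero]
    exact Iio_mem_nhds hε
  filter_upwards [h2] with f hf φ hφ
  refine hεV ?_
  rw [mem_ball_zero_iff]
  exact (hp1 ⟨φ, hφ⟩ f).trans_lt hf

include X in
/-- Proof. For a continuous seminorm `p` on `OexpT E G` the set `Φ` of all functionals `φ` with
`|φ| ≤ p` is bounded (`dual_bdd`, `T_bdd`, `T_bound`), and `p f` is attained by some `φ ∈ Φ`
(`exists_functional`, `cts_of_le`); so the preimage of a neighbourhood of `0` under the inverse map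
is a neighbourhood of `0`. -/
theorem bidual_open : IsOpenMap (evalDual E G) := by
  let L : OexpT E G →+ StrongDual ℂ (StrongDual ℂ (OexpT E G)) :=
    { toFun := evalDual E G
      map_zero' := by
        ext φ
        exact map_zero φ
      map_add' := RJ_evalDual_add }
  have key : 𝓝 (0 : StrongDual ℂ (StrongDual ℂ (OexpT E G))) ≤ map L (𝓝 (0 : OexpT E G)) := by
    intro s hs
    rw [mem_map] at hs
    obtain ⟨⟨I, r⟩, hr, hsub⟩ := (indFamily_withSeminorms E G).hasBasis_zero_ball.mem_iff.1 hs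
    simp only at hr hsub
    obtain ⟨p, hp⟩ : ∃ p, p = I.sup (indFamily E G) := ⟨_, rfl⟩
    rw [← hp] at hsub
    have hpc : Continuous p := by
      refine Seminorm.continuous (r := r) ?_
      rw [hp]
      exact (indFamily_withSeminorms E G).hasBasis_zero_ball.mem_of_mem (i := (I, r)) hr
    let Φ : Set (StrongDual ℂ (OexpT E G)) := {φ | ∀ f, ‖φ f‖ ≤ p f}
    have hΦ : IsVonNBounded ℂ Φ := dual_bdd fun S hS => by
      obtain ⟨w, hw, hSw⟩ := T_bdd X hS
      obtain ⟨M, hM, hb⟩ := T_bound p hpc hw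
      exact ⟨M, fun φ hφ f hf => (hφ f).trans (hb f (hSw hf))⟩
    refine (ContinuousLinearMap.hasBasis_nhds_zero.mem_iff).2
      ⟨(Φ, Metric.ball 0 r), ⟨hΦ, Metric.ball_mem_nhds _ hr⟩, fun Λ hΛ => ?_⟩
    obtain ⟨f, rfl⟩ := bidual_surjective X Λ
    refine hsub ?_
    rw [Seminorm.mem_ball_zero]
    obtain ⟨φ, hφ1, hφ2⟩ := exists_functional p f
    have h1 := hΛ ⟨φ, cts_of_le φ p hpc hφ1⟩ hφ1
    rw [mem_ball_zero_iff] at h1
    have h2 : ‖φ f‖ < r := h1
    rw [hφ2] at h2
    have h3 : ‖((p f : ℝ) : ℂ)‖ = p f := by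
      rw [Complex.norm_real, Real.norm_eq_abs, abs_of_nonneg (apply_nonneg p f)]
    rw [h3] at h2
    exact h2
  have i1 : IsTopologicalAddGroup (StrongDual ℂ (StrongDual ℂ (OexpT E G))) := inferInstance
  have i2 : ContinuousAdd (StrongDual ℂ (StrongDual ℂ (OexpT E G))) := i1.toContinuousAdd
  exact (IsTopologicalAddGroup.isOpenMap_iff_nhds_zero (f := L)).2 key

include X in
theorem bidual_homeo : IsHomeomorph (evalDual E G) :=
  ⟨bidual_continuous, bidual_open X, bidual_injective, bidual_surjective X⟩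

end HolRefl.Pf
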