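import Pool.Agent.W_06f097_h35.RD

/-! Public definitions for MP_06f097_an: holomorphic reflexivity of `A_exp(G)`. -/

open scoped Topology ContDiff Manifold
open Set Filter Topology

noncomputable section

namespace HolRefl

/-! ### strong duals -/

section dual

variable (X : Type*) [AddCommGroup X] [Module ℂ X] [TopologicalSpace X]

/-- the strong dual of `X`: continuous linear functionals with the topology of uniform convergence
on bounded sets (Mathlib's topology of `StrongDual`) -/
def SD : Type _ := StrongDual ℂ X

instance : AddCommGroup (SD X) := (inferInstance : AddCommGroup (StrongDual ℂ X))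
instance : Module ℂ (SD X) := (inferInstance : Module ℂ (StrongDual ℂ X))
instance : UniformSpace (SD X) := (inferInstance : UniformSpace (StrongDual ℂ X))
instance : IsUniformAddGroup (SD X) := (inferInstance : IsUniformAddGroup (StrongDual ℂ X))
instance : ContinuousSMul ℂ (SD X) := (inferInstance : ContinuousSMul ℂ (StrongDual ℂ X))

variable {X}

/-- the value of the functional `φ` at `f` -/
def ap (φ : SD X) (f : X) : ℂ := (show StrongDual ℂ X from φ) f

variable {Y : Type*} [AddCommGroup Y] [Module ℂ Y] [TopologicalSpace Y]

/-- the dual map `φ ↦ φ ∘ T` -/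
def dualMap (T : X →L[ℂ] Y) : SD Y →ₗ[ℂ] SD X where
  toFun φ := (show StrongDual ℂ Y from φ).comp T
  map_add' _ _ := rfl
  map_smul' _ _ := rfl

/-- the evaluation map `X → X''` -/
def evalMap [ContinuousSMul ℂ X] (f : X) : SD (SD X) :=
  (⟨{ toFun := fun φ : SD X => ap φ f
      map_add' := fun _ _ => rfl
      map_smul' := fun _ _ => rfl },
    continuous_eval_const (F := StrongDual ℂ X) f⟩ : StrongDual ℂ (SD X))

variable {G : Type*} [Group G]

/-- `c` is the convolution of the functionals `a` and `b` on the space `X` of functions on `G`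
(`ev f x` is the value of `f` at `x`): `c(f) = a(x ↦ b(y ↦ f(x y)))`. Here `h x = (y ↦ f(x y))` and
`g = (x ↦ b (h x))`. -/
def Conv (ev : X → G → ℂ) (a b c : SD X) : Prop :=
  ∀ (f g : X) (h : G → X), (∀ x y, ev (h x) y = ev f (x * y)) → (∀ x, ev g x = ap b (h x)) →
    ap c f = ap a g

/-- the convolution is everywhere defined -/
structure ConvDef (ev : X → G → ℂ) : Prop where
  left : ∀ f : X, ∃ h : G → X, ∀ x y, ev (h x) y = ev f (x * y)
  app : ∀ (b : SD X) (f : X) (h : G → X), (∀ x y, ev (h x) y = ev f (x * y)) →
    ∃ g : X, ∀ x, ev g x = ap b (h x)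
  conv : ∀ a b : SD X, ∃ c : SD X, Conv ev a b c

end dual

section

variable (E : Type*) [NormedAddCommGroup E] [NormedSpace ℂ E]
variable (G : Type*) [TopologicalSpace G] [ChartedSpace E G] [Group G]

/-- pointwise multiplication on `O_exp(G)` -/
def MulT (a b c : OexpT E G) : Prop := ∀ x, evT a x * evT b x = evT c x

/-- pointwise multiplication on the closure of `O_exp(G)` -/
def MulB (a b c : OexpBar E G) : Prop := ∀ x, evB a x * evB b x = evB c x

/-- convolution on `A_exp(G)`, the strong dual of `O_exp(G)` -/
def ConvT : SD (OexpT E G) → SD (OexpT E G) → SD (OexpT E G) → Prop := Conv evT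

/-- convolution on the strong dual of the closure of `O_exp(G)` -/
def ConvB : SD (OexpBar E G) → SD (OexpBar E G) → SD (OexpBar E G) → Prop := Conv evB

/-- the restriction of functionals from the closure of `O_exp(G)` to `O_exp(G)` -/
def restr : SD (OexpBar E G) →ₗ[ℂ] SD (OexpT E G) := dualMap (inclL E G)

/-- a holomorphic function belongs to the closure of `O_exp(G)` iff it takes equal values at any two
points at which all functions of `O_exp(G)` take equal values -/
def ClosureDescription : Prop := ∀ f : G → ℂ, IsHol E f →
  ((∃ F : OexpBar E G, ∀ x, evB F x = f x) ↔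
    ∀ x y : G, (∀ g : OexpT E G, evT g x = evT g y) → f x = f y)

/-- for every Arens-Michael envelope `j : B' → C` (`B` the closure of `O_exp(G)`) the restriction
map `B' → A_exp(G)` extends to a topological isomorphism `κ : C → A_exp(G)` -/
def KappaIso.{v} : Prop := ∀ (C : Type v) [AddCommGroup C] [Module ℂ C] [UniformSpace C]
  [IsUniformAddGroup C] [ContinuousSMul ℂ C] (mC : C → C → C → Prop)
  (j : SD (OexpBar E G) →ₗ[ℂ] C), IsAMEnvelope (ConvB E G) mC j →
  ∃ κ : C ≃L[ℂ] SD (OexpT E G), ∀ φ, κ (j φ) = restr E G φ

end

/-- `A_exp(G) = O_exp(G)'` (strong dual, convolution product) is holomorphically reflexive. -/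
structure HolReflexive.{u, w, v} (E : Type u) [NormedAddCommGroup E] [NormedSpace ℂ E]
    (G : Type w) [TopologicalSpace G] [ChartedSpace E G] [Group G] : Prop where
  /-- `O_exp(G)` carries a locally convex topology -/
  locConvex : LocConvex (OexpT E G)
  /-- the continuous seminorms on `O_exp(G)` are those of the inductive limit -/
  seminorms : ∀ p : Seminorm ℂ (OexpT E G), Continuous p ↔ p ∈ indSeminorms E G
  /-- `H' = O_exp(G)` for `H = A_exp(G)` -/
  bidual : IsHomeomorph (evalMap : OexpT E G → SD (SD (OexpT E G)))
  /-- the multiplication is defined on `O_exp(G)` -/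
  mulT : ∀ a b, ∃ c, MulT E G a b c
  /-- the convolution is defined on `H = A_exp(G)` -/
  convT : ConvDef (evT : OexpT E G → G → ℂ)
  /-- the closure `B` of `O_exp(G)` in `O(G)` is an Arens-Michael envelope of `H' = O_exp(G)`, that
  is, `H^• = B` -/
  envelope : IsAMEnvelope (MulT E G) (MulB E G) (inclB E G)
  /-- the multiplication is defined on `H^• = B` -/
  mulB : ∀ a b, ∃ c, MulB E G a b c
  /-- the elements of `B` are holomorphic functions -/
  holomorphic : ∀ F : OexpBar E G, IsHol E (evB F)
  /-- description of `B` -/
  description : ClosureDescription E G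
  /-- `H^• = B` is a Frechet space (complete and locally convex by `envelope`) -/
  frechet : (𝓝 (0 : OexpBar E G)).IsCountablyGenerated
  /-- the convolution is defined on `(H^•)'` -/
  convB : ConvDef (evB : OexpBar E G → G → ℂ)
  /-- the dual map `(H^•)' → H` of the envelope map `H' → H^•` is an Arens-Michael envelope -/
  dual : IsAMEnvelope (ConvB E G) (ConvT E G) (restr E G)
  /-- for every Arens-Michael envelope `j : (H^•)' → C`, i.e. `C = H^••`, the dual map
  `(H^•)' → H` extends to a topological isomorphism `κ : H^•• → H` -/
  kappa : KappaIso.{u, w, v} E G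

end HolRefl
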