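import Pool.Agent.W_06f097_h35.RG
import Pool.Agent.W_06f097_h35.RH
import Pool.Agent.W_06f097_h35.RI
import Pool.Agent.W_06f097_h35.RJ
import Pool.Agent.W_06f097_h35.FC
import Pool.Agent.W_06f097_h35.RPub
import Pool.Agent.W_06f097_h35.QD

/-! Holomorphic reflexivity of `A_exp(G)` for all compactly generated complex Lie groups. -/

open scoped Topology ContDiff Manifold NNReal
open Set Filter MeasureTheory HR

noncomputable section

namespace HolRefl.Pf

/-- coordinates and a continuous length function -/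
theorem exists_ctx.{u, w} {E : Type u} [NormedAddCommGroup E] [NormedSpace ℂ E]
    [FiniteDimensional ℂ E] {G : Type w} [TopologicalSpace G] [ChartedSpace E G] [Group G]
    [LieGroup 𝓘(ℂ, E) ω G] [T2Space G] (hcg : CompactlyGenerated G) : Nonempty (Ctx E G) := by
  have : IsTopologicalGroup G := topologicalGroup_of_lieGroup 𝓘(ℂ, E) ω
  have : ProperSpace E := FiniteDimensional.proper ℂ E
  have : LocallyCompactSpace G := Manifold.locallyCompact_of_finiteDimensional 𝓘(ℂ, E)
  have : SigmaCompactSpace G := sigmaCompact_of_cg hcg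
  have : SecondCountableTopology G := ChartedSpace.secondCountable_of_sigmaCompact E G
  letI : MeasurableSpace G := borel G
  have : BorelSpace G := ⟨rfl⟩
  obtain ⟨C, hC⟩ := exists_clg (E := E) (G := G)
  have hHol : ∀ f : G → ℂ, IsHol E f ↔ C.Hol f := fun f => hol_iff hC f
  obtain ⟨K₀, hK₀, hgen⟩ := hcg
  obtain ⟨l, hl, hw⟩ := exists_len (Measure.haar : Measure G) hK₀ hgen
  obtain ⟨t, ht, htp, ⟨c, hc, htc⟩, -⟩ := CLG.exists_slow' C (Measure.haar : Measure G) hl
  have htcont : Continuous t := C.sm_continuous (C.sm_ofReal.1 ht)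
  refine ⟨⟨_, C, hHol, fun x => t x + 3 * c, htcont.add continuous_const, fun x => ?_,
    fun x y => ?_, fun R => ?_, fun w hw' => ?_⟩⟩
  · have h1 := (abs_le.1 (htc x)).1
    have h2 := hl.nonneg x
    linarith
  · have h1 := (abs_le.1 (htc (x * y))).2
    have h2 := (abs_le.1 (htc x)).1
    have h3 := (abs_le.1 (htc y)).1
    have h4 := hl.mul x y
    linarith
  · have e : {x | t x + 3 * c ≤ R} = {x | t x ≤ R - 3 * c} := by
      ext x
      simp only [mem_setOf_eq]
      constructor <;> intro h <;> linarith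
    rw [e]
    exact htp _
  · obtain ⟨M, R, hM, hR, h⟩ := hw w hw'.nonneg hw'.submul hw'.locBdd
    refine ⟨max M 1, R, le_max_right _ _, hR, fun x => (h x).trans ?_⟩
    refine mul_le_mul (le_max_left _ _) (Real.exp_le_exp.2 ?_) (Real.exp_pos _).le
      (hM.trans (le_max_left _ _))
    have h1 := (abs_le.1 (htc x)).1
    exact mul_le_mul_of_nonneg_left (by linarith) hR

/-- the inductive limit is locally convex -/
theorem T_locConvex {E : Type*} [NormedAddCommGroup E] [NormedSpace ℂ E] {G : Type*}
    [TopologicalSpace G] [ChartedSpace E G] [Group G] : ∀ U ∈ 𝓝 (0 : OexpT E G), ∃ p : Seminorm ℂ (OexpT E G), Continuous p ∧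
    {f | p f < 1} ⊆ U := by
  intro U hU
  obtain ⟨⟨s, r⟩, hr, h⟩ := (indFamily_withSeminorms E G).hasBasis_zero_ball.mem_iff.1 hU
  have hr : 0 < r := hr
  obtain ⟨c, hc⟩ : ∃ c : ℝ≥0, (c : ℝ) = r⁻¹ := ⟨⟨r⁻¹, inv_nonneg.2 hr.le⟩, rfl⟩
  refine ⟨c • s.sup (indFamily E G),
    (Seminorm.continuous_finsetSup fun i _ =>
      (indFamily_withSeminorms E G).continuous_seminorm i).const_smul _, fun f hf => h ?_⟩
  rw [Seminorm.mem_ball_zero]
  have h1 : c * (s.sup (indFamily E G)) f < 1 := hf
  rw [hc] at h1
  rwa [inv_mul_lt_iff₀ hr, mul_one] at h1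

theorem T_cts_iff {E : Type*} [NormedAddCommGroup E] [NormedSpace ℂ E] {G : Type*}
    [TopologicalSpace G] [ChartedSpace E G] [Group G] (p : Seminorm ℂ (OexpT E G)) : Continuous p ↔ p ∈ indSeminorms E G := by
  constructor
  · intro hp w hw
    obtain ⟨M, -, hM⟩ := T_bound p hp hw
    exact ⟨M, fun f hf => hM f hf⟩
  · exact fun h => continuous_of_ind E G h
/-- the closure is closed under multiplication -/
theorem exists_mulB {E : Type*} [NormedAddCommGroup E] [NormedSpace ℂ E] {G : Type*}
    [TopologicalSpace G] [ChartedSpace E G] [Group G] [LocallyCompactSpace G]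
    (a b : OexpBar E G) : ∃ c : OexpBar E G, ∀ x, evB a x * evB b x = evB c x := by
  have h1 : toC a * toC b ∈ closure (OexpC E G : Set C(G, ℂ)) :=
    map_mem_closure₂ continuous_mul (show OexpCl E G from a).2 (show OexpCl E G from b).2
      fun _ ha _ hb => (OexpC E G).mul_mem ha hb
  exact ⟨(⟨toC a * toC b, h1⟩ : OexpCl E G), fun x => rfl⟩

/-- description of the closure -/
theorem closure_iff {E : Type*} [NormedAddCommGroup E] [NormedSpace ℂ E] {G : Type*}
    [TopologicalSpace G] [ChartedSpace E G] [Group G] (h : EnvelopeIsClosure E G) (f : G → ℂ)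
    (hf : IsHol E f) : (∃ F : OexpBar E G, ∀ x, evB F x = f x) ↔
      ∀ x y : G, (∀ g : OexpT E G, evT g x = evT g y) → f x = f y := by
  have h1 : (∃ F : OexpBar E G, ∀ x, evB F x = f x) ↔
      ∀ K : Set G, IsCompact K → ∀ ε : ℝ, 0 < ε → ∃ g : Oexp E G, ∀ x ∈ K,
        ‖f x - (g : G → ℂ) x‖ < ε := by
    constructor
    · rintro ⟨F, hF⟩ K hK ε hε
      obtain ⟨g, hg⟩ := B_approx F hK hε
      refine ⟨⟨_, evT_mem g⟩, fun x hx => ?_⟩
      have h2 := hg x hx
      rw [hF] at h2
      exact h2
    · intro h2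
      refine exists_B hf.continuous fun K hK ε hε => ?_
      obtain ⟨g, hg⟩ := h2 K hK ε hε
      obtain ⟨g', hg'⟩ := exists_T g.2
      refine ⟨g', fun x hx => ?_⟩
      rw [hg']
      exact hg x hx
  rw [h1, h.closure f hf]
  constructor
  · intro h2 x y hxy
    refine h2 x y fun g => ?_
    obtain ⟨g', hg'⟩ := exists_T g.2
    rw [← hg' x, ← hg' y]
    exact hxy g'
  · intro h2 x y hxy
    exact h2 x y fun g => hxy ⟨_, evT_mem g⟩

/-- Main theorem: for every compactly generated complex Lie group `G` the Hopf algebra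
`A_exp(G)` is holomorphically reflexive. -/
theorem hol_reflexive.{u, w, v} {E : Type u} [NormedAddCommGroup E] [NormedSpace ℂ E]
    [FiniteDimensional ℂ E] {G : Type w} [TopologicalSpace G] [ChartedSpace E G] [Group G]
    [LieGroup 𝓘(ℂ, E) ω G] [T2Space G] (hcg : CompactlyGenerated G) :
    HolReflexive.{u, w, v} E G := by
  have : IsTopologicalGroup G := topologicalGroup_of_lieGroup 𝓘(ℂ, E) ω
  have : ProperSpace E := FiniteDimensional.proper ℂ E
  have : LocallyCompactSpace G := Manifold.locallyCompact_of_finiteDimensional 𝓘(ℂ, E)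
  have : SigmaCompactSpace G := sigmaCompact_of_cg hcg
  obtain ⟨X⟩ := exists_ctx (E := E) hcg
  have hdual : IsAMEnvelope (ConvB E G) (ConvT E G) (restr E G) := envelope_restr X
  exact
    { locConvex := T_locConvex
      seminorms := T_cts_iff
      bidual := bidual_homeo X
      mulT := fun a b => by
        obtain ⟨c, hc⟩ := exists_T ((Oexp E G).mul_mem (evT_mem a) (evT_mem b))
        exact ⟨c, fun x => (hc x).symm⟩
      convT := ⟨(conv_T X).left, (conv_T X).app, (conv_T X).conv⟩
      envelope := envelope_incl (HR.main_cg hcg)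
      mulB := exists_mulB
      holomorphic := fun F => (X.hol _).2 (B_hol X F)
      description := closure_iff (HR.main_cg hcg)
      frechet := B_countable
      convB := ⟨(conv_B X).left, (conv_B X).app, (conv_B X).conv⟩
      dual := hdual
      kappa := fun C _ _ _ _ _ mC j hj => am_unique hdual hj }

end HolRefl.Pf
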